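import Mathlib
import Pool.Agent.Results.MP_9ec3f0_nt.AllFieldsAllDegrees
import Pool.Agent.W223.VD.Points
import Pool.Agent.N752.RD.Low

/-!
# The truncated inequality with discriminant term for almost all points of degree `r` of projective
# space of any dimension, for hyperplanes in general position

Let `k` be a number field, `D = H_1 + … + H_q` a divisor of `q ≥ m + 1` hyperplanes in general
position in `ℙ^m` over `k`, and `r ≥ 2`. We consider the points of `ℙ^m` over `ℂ` whose field of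
definition `k(P)` has degree `r` over `k`; let `n = r [k : ℚ]` be its degree over `ℚ`. There are at
least `c B ^ (n (m + 1) - δ)` such points of height at most `log B` outside `D`. We prove that for
`0 ≤ θ < q` at most `C B ^ (n α θ + δ)` of them violate the inequality
`θ h(P) + c < N_S^{(1)}(D, P) + ∑_{v ∈ S} log N_v / n + d(P)` for all finite sets `S` of places of
`k(P)`, where `d(P) = log |disc k(P)| / n` and
`α = alpha n = min ((n - 1) (n + 2) / (4 ⌈n / 2⌉), c₀ n ^ η)` (so that there are `O(Δ ^ α)` number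
fields of degree `n` and discriminant at most `Δ`). Hence the inequality holds for almost all
points of degree `r` if `α θ < m + 1`. For `θ = q - m - 1` it is the one of the conjecture; for
`q = m + 2` and `k = ℚ` the condition is satisfied for all `r ≤ 2 m + 1`, and for all
`r < ((m + 1) / c₀) ^ (1 / η)`.

Proof. By the inequality that is violated, the discriminant of `k(P)` is at most
`C B ^ (n θ)`, and if it is about `B ^ (n τ)`, then `N_S^{(1)}(D, P) ≤ (θ - τ) h(P) + c`. The number of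
the fields with this discriminant is `O(B ^ (n α τ))`, and the number of such points over each
of them is at most `(C B ^ (θ - τ + δ)) ^ n`, uniformly in the field, by the starting result
`AllFieldsAllDegrees` of MP_9ec3f0.
-/

set_option autoImplicit false

namespace Pool.Agent.Results.MP_44a246_nt.BoundedDegreeHyperplanes

open NumberField Finset
open scoped LinearAlgebra.Projectivization

/-- The absolute logarithmic height of a point of `ℙ^m(K)`. -/
noncomputable def height {K : Type} [Field K] [NumberField K] {m : ℕ}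
    (Q : ℙ K (Fin (m + 1) → K)) : ℝ :=
  Real.log Q.mulHeight / Module.finrank ℚ K

/-- The logarithm of the norm of the prime ideal of the finite place `v`. -/
noncomputable def logNorm {K : Type} [Field K] [NumberField K] (v : FinitePlace K) : ℝ :=
  Real.log (Ideal.absNorm v.maximalIdeal.asIdeal)

/-- The value of the linear form with the coefficients `b` at the chosen coordinates of `Q`. -/
noncomputable def value {K : Type} [Field K] {m : ℕ} (b : Fin (m + 1) → K)
    (Q : ℙ K (Fin (m + 1) → K)) : K := ∑ j, b j * Q.rep j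

open Classical in
/-- The absolute truncated counting function `N_S^{(1)}(D, Q)` of the hyperplanes
`H_i : ∑ j, a i j x_j = 0`: the sum of `log N_v` over the finite places `v` of `K` not in `S` at which
the local height with respect to some `H_i` is positive, divided by `[K : ℚ]`. -/
noncomputable def truncated {K : Type} [Field K] [NumberField K] {m q : ℕ}
    (S : Finset (FinitePlace K)) (a : Fin q → Fin (m + 1) → K) (Q : ℙ K (Fin (m + 1) → K)) : ℝ :=
  (∑ᶠ v : FinitePlace K,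
    if v ∉ S ∧ ∃ i, v (value (a i) Q) < (⨆ j, v (a i j)) * ⨆ j, v (Q.rep j) then logNorm v else 0) /
      Module.finrank ℚ K

/-- The absolute logarithmic discriminant `log |disc K| / [K : ℚ]`. -/
noncomputable def logDisc (K : Type) [Field K] [NumberField K] : ℝ :=
  Real.log |(NumberField.discr K : ℝ)| / Module.finrank ℚ K

/-- The coefficients of the hyperplanes in the larger field `K`. -/
noncomputable def liftTo {k K : IntermediateField ℚ ℂ} (h : k ≤ K) {m q : ℕ} (a : Fin q → Fin (m + 1) → k) :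
    Fin q → Fin (m + 1) → K := fun i j => IntermediateField.inclusion h (a i j)

lemma coe_rep_ne {K : IntermediateField ℚ ℂ} {m : ℕ} (Q : ℙ K (Fin (m + 1) → K)) :
    (fun i => ((Q.rep i : K) : ℂ)) ≠ 0 := by
  intro h
  apply Q.rep_nonzero
  funext i
  have := congrFun h i
  simpa using this

/-- The complex point of a point over the subfield `K` of `ℂ`. -/
noncomputable def toC {K : IntermediateField ℚ ℂ} {m : ℕ} (Q : ℙ K (Fin (m + 1) → K)) :
    ℙ ℂ (Fin (m + 1) → ℂ) :=
  Projectivization.mk ℂ (fun i => ((Q.rep i : K) : ℂ)) (coe_rep_ne Q)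

/-- The field of definition `k(P)` of the point `P`: it is generated over `k` by the quotients of
the coordinates of `P`. -/
noncomputable def fieldOf (k : IntermediateField ℚ ℂ) {m : ℕ} (P : ℙ ℂ (Fin (m + 1) → ℂ)) :
    IntermediateField ℚ ℂ :=
  k ⊔ IntermediateField.adjoin ℚ {z : ℂ | ∃ i j, P.rep j ≠ 0 ∧ z = P.rep i / P.rep j}

/-- The points of `ℙ^m` whose field of definition has degree `r` over `k`, of height at most
`log B`, outside the hyperplanes `a i`. -/
def Points (k : IntermediateField ℚ ℂ) {m q : ℕ} (a : Fin q → Fin (m + 1) → k) (r : ℕ) (B : ℝ) :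
    Set (ℙ ℂ (Fin (m + 1) → ℂ)) :=
  {P | ∃ (K : IntermediateField ℚ ℂ) (_ : NumberField K) (h : k ≤ K) (Q : ℙ K (Fin (m + 1) → K)),
    fieldOf k P = K ∧ Module.finrank ℚ K = r * Module.finrank ℚ k ∧ toC Q = P ∧
    (∀ i, value (liftTo h a i) Q ≠ 0) ∧ height Q ≤ Real.log B}

/-- The points `P` of `ℙ^m` whose field of definition has degree `r` over `k`, of height at most
`log B`, outside the hyperplanes `a i`, with
`N_S^{(1)}(D, P) + ∑_{v ∈ S} log N_v / [k(P) : ℚ] + d(P) ≤ θ h(P) + c` for some finite set `S` of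
finite places of `k(P)`. -/
def Exceptions (k : IntermediateField ℚ ℂ) {m q : ℕ} (a : Fin q → Fin (m + 1) → k) (r : ℕ)
    (θ c B : ℝ) : Set (ℙ ℂ (Fin (m + 1) → ℂ)) :=
  {P | ∃ (K : IntermediateField ℚ ℂ) (_ : NumberField K) (h : k ≤ K) (Q : ℙ K (Fin (m + 1) → K)),
    fieldOf k P = K ∧ Module.finrank ℚ K = r * Module.finrank ℚ k ∧ toC Q = P ∧
    (∀ i, value (liftTo h a i) Q ≠ 0) ∧ height Q ≤ Real.log B ∧
    ∃ S : Finset (FinitePlace K), truncated S (liftTo h a) Q +
      (∑ v ∈ S, logNorm v) / Module.finrank ℚ K + logDisc K ≤ θ * height Q + c}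

/-- There are `O(Δ ^ (alpha n c η))` number fields of degree `n` and discriminant at most `Δ`; here
`alpha n c η` is the smaller of `(n - 1) (n + 2) / (4 ⌈n / 2⌉)` and `c n ^ η`. -/
noncomputable def alpha (n : ℕ) (c η : ℝ) : ℝ :=
  min (((n : ℝ) - 1) * (n + 2) / (4 * ((n + 1) / 2 : ℕ))) (c * (n : ℝ) ^ η)

/-! ### The exceptions over one field -/

section

variable {m q : ℕ}

lemma n_pos (K : Type) [Field K] [NumberField K] : (0 : ℝ) < (Module.finrank ℚ K : ℝ) := by
  exact_mod_cast Module.finrank_pos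

lemma logNorm_nonneg {K : Type} [Field K] [NumberField K] (v : FinitePlace K) : 0 ≤ logNorm v :=
  Real.log_natCast_nonneg _

lemma truncated_nonneg {K : Type} [Field K] [NumberField K] (S : Finset (FinitePlace K))
    (a : Fin q → Fin (m + 1) → K) (Q : ℙ K (Fin (m + 1) → K)) : 0 ≤ truncated S a Q := by
  unfold truncated
  refine div_nonneg (finsum_nonneg fun v => ?_) (n_pos K).le
  split_ifs
  · exact logNorm_nonneg v
  · exact le_refl _

lemma one_le_disc (K : Type) [Field K] [NumberField K] : (1 : ℝ) ≤ |(NumberField.discr K : ℝ)| := by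
  have h : NumberField.discr K ≠ 0 := NumberField.discr_ne_zero K
  have : 1 ≤ |NumberField.discr K| := Int.one_le_abs h
  exact_mod_cast this

lemma logDisc_nonneg (K : Type) [Field K] [NumberField K] : 0 ≤ logDisc K :=
  div_nonneg (Real.log_nonneg (one_le_disc K)) (n_pos K).le

/-- the exceptions over the field `K` -/
def ExcK (k : IntermediateField ℚ ℂ) (a : Fin q → Fin (m + 1) → k) (θ c B : ℝ)
    (K : IntermediateField ℚ ℂ) : Set (ℙ ℂ (Fin (m + 1) → ℂ)) :=
  {P | ∃ (_ : NumberField K) (h : k ≤ K) (Q : ℙ K (Fin (m + 1) → K)), toC Q = P ∧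
    (∀ i, value (liftTo h a i) Q ≠ 0) ∧ height Q ≤ Real.log B ∧
    ∃ S : Finset (FinitePlace K), truncated S (liftTo h a) Q +
      (∑ v ∈ S, logNorm v) / Module.finrank ℚ K ≤ θ * height Q + c}

open Pool.Agent.Results.MP_9ec3f0_nt in
lemma excK_count (k : IntermediateField ℚ ℂ) [NumberField k] (hm : 1 ≤ m) (hq : m + 1 ≤ q)
    (a : Fin q → Fin (m + 1) → k)
    (ha : ∀ I : Finset (Fin q), I.card = m + 1 → LinearIndependent k (fun i : I => a i))
    (θ c δ : ℝ) (hθ : 0 ≤ θ) (hθq : θ < q) (hδ : 0 < δ) :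
    ∃ C : ℝ, 1 ≤ C ∧ ∀ (K : IntermediateField ℚ ℂ) (_ : NumberField K) (B : ℝ), 1 ≤ B →
      (ExcK k a θ c B K).Finite ∧
        ((ExcK k a θ c B K).ncard : ℝ) ≤ (C * B ^ (θ + δ)) ^ Module.finrank ℚ K := by
  obtain ⟨h1, -⟩ := AllFieldsAllDegrees.result k m q hm hq a ha
  obtain ⟨-, C, hC, h2⟩ := h1 θ c δ hθ hθq hδ
  refine ⟨max C 1, le_max_right _ _, fun K hK B hB => ?_⟩
  by_cases h : k ≤ K
  · let _ : Algebra k K := (IntermediateField.inclusion h).toRingHom.toAlgebra
    obtain ⟨h3, h4⟩ := h2 K B hB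
    have hsub : ExcK k a θ c B K ⊆ toC '' (AllFieldsAllDegrees.Exc K a θ c B) := by
      rintro P ⟨_, h', Q, hQ, hv, hh, S, hS⟩
      exact ⟨Q, ⟨⟨hv, hh⟩, S, hS⟩, hQ⟩
    have hfin : (AllFieldsAllDegrees.Exc K a θ c B).Finite := h3.subset fun Q hQ => hQ.1
    refine ⟨(hfin.image _).subset hsub, ?_⟩
    have h5 : ((ExcK k a θ c B K).ncard : ℝ) ≤ ((AllFieldsAllDegrees.Exc K a θ c B).ncard : ℝ) := by
      exact_mod_cast (Set.ncard_le_ncard hsub (hfin.image _)).trans (Set.ncard_image_le hfin)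
    refine (h5.trans h4).trans ?_
    have hB0 : 0 < B := by linarith
    refine pow_le_pow_left₀ (by positivity) ?_ _
    refine mul_le_mul (le_max_left _ _) (Real.rpow_le_rpow_of_exponent_le hB ?_) (by positivity)
      (by positivity)
    have h6 : AllFieldsAllDegrees.expo m q θ ≤ θ := by
      refine (min_le_left _ _).trans ?_
      have : 0 ≤ ((q - m).choose (m + 1) : ℝ) / (q.choose (m + 1) : ℝ) := by positivity
      nlinarith
    linarith
  · have hempty : ExcK k a θ c B K = ∅ := by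
      ext P
      simp only [Set.mem_empty_iff_false, iff_false]
      rintro ⟨_, h', -⟩
      exact h h'
    rw [hempty]
    refine ⟨Set.finite_empty, ?_⟩
    rw [Set.ncard_empty, Nat.cast_zero]
    have hB0 : 0 < B := by linarith
    positivity

open Pool.Agent.W223.VD (Flds FieldExp) in
theorem upper (k : IntermediateField ℚ ℂ) [NumberField k] (hm : 1 ≤ m) (hq : m + 1 ≤ q)
    (a : Fin q → Fin (m + 1) → k)
    (ha : ∀ I : Finset (Fin q), I.card = m + 1 → LinearIndependent k (fun i : I => a i))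
    (r n : ℕ) (hn : n = r * Module.finrank ℚ k) (hn2 : 2 ≤ n) {α : ℝ} (hα1 : 1 ≤ α)
    (hF : FieldExp n α) (θ c δ : ℝ) (hθ : 0 ≤ θ) (hθq : θ < q) (hδ : 0 < δ) :
    ∃ C : ℝ, ∀ B : ℝ, 1 ≤ B → (Exceptions k a r θ c B).Finite ∧
      ((Exceptions k a r θ c B).ncard : ℝ) ≤ C * B ^ ((n : ℝ) * (α * θ) + δ) := by
  classical
  obtain ⟨CF, hCF, hF⟩ := hF
  have hn0 : (0 : ℝ) < n := by exact_mod_cast (show 0 < n by omega)
  obtain ⟨J, hJ⟩ : ∃ J : ℕ, 2 * n * θ / δ + 1 ≤ J := exists_nat_ge _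
  have hJ0 : (0 : ℝ) < J := by
    have : 0 ≤ 2 * n * θ / δ := by positivity
    linarith
  have hJpos : 0 < J := by exact_mod_cast hJ0
  have hJδ : n * (θ / J) ≤ δ / 2 := by
    have h1 : 2 * n * θ / δ ≤ J := by linarith
    rw [div_le_iff₀ hδ] at h1
    rw [mul_div_assoc', div_le_iff₀ hJ0]
    linarith
  have hfr : ∀ j : Fin J, 0 ≤ (j : ℝ) / J ∧ (j : ℝ) / J ≤ 1 ∧ ((j : ℝ) + 1) / J ≤ 1 := by
    intro j
    have h1 : (j : ℝ) + 1 ≤ J := by exact_mod_cast j.2
    refine ⟨by positivity, ?_, ?_⟩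
    · rw [div_le_one hJ0]; linarith
    · rw [div_le_one hJ0]; exact h1
  have key : ∀ j : Fin J, ∃ C : ℝ, 1 ≤ C ∧ ∀ (K : IntermediateField ℚ ℂ) (_ : NumberField K)
      (B : ℝ), 1 ≤ B → (ExcK k a (θ * (1 - (j : ℝ) / J)) |c| B K).Finite ∧
        ((ExcK k a (θ * (1 - (j : ℝ) / J)) |c| B K).ncard : ℝ) ≤
          (C * B ^ (θ * (1 - (j : ℝ) / J) + δ / (2 * n))) ^ Module.finrank ℚ K := by
    intro j
    obtain ⟨h1, h2, -⟩ := hfr j
    refine excK_count k hm hq a ha _ |c| (δ / (2 * n)) (mul_nonneg hθ (by linarith)) ?_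
      (by positivity)
    have : θ * (1 - (j : ℝ) / J) ≤ θ := by nlinarith
    linarith
  choose Cj hCj1 hCj using key
  refine ⟨∑ j : Fin J, CF * Real.exp (n * |c|) ^ α * Cj j ^ n, fun B hB => ?_⟩
  have hB0 : 0 < B := by linarith
  set L := Real.log B with hL
  have hL0 : 0 ≤ L := Real.log_nonneg hB
  let T : Fin J → ℝ := fun j => Real.exp (n * |c|) * B ^ ((n : ℝ) * (((j : ℝ) + 1) / J * θ))
  have hT1 : ∀ j, 1 ≤ T j := by
    intro j
    refine one_le_mul_of_one_le_of_one_le (Real.one_le_exp (by positivity))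
      (Real.one_le_rpow hB (by positivity))
  have hsub : Exceptions k a r θ c B ⊆ ⋃ j : Fin J, ⋃ K ∈ (hF (T j) (hT1 j)).1.toFinset,
      ExcK k a (θ * (1 - (j : ℝ) / J)) |c| B K := by
    rintro P ⟨K, hK, h, Q, -, hdeg, hQ, hv, hh, S, hS⟩
    set t := logDisc K with ht
    have ht0 : 0 ≤ t := logDisc_nonneg K
    have hKn : Module.finrank ℚ K = n := by rw [hdeg, hn]
    have htr := truncated_nonneg S (liftTo h a) Q
    have hSn : 0 ≤ (∑ v ∈ S, logNorm v) / (Module.finrank ℚ K : ℝ) :=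
      div_nonneg (Finset.sum_nonneg fun v _ => logNorm_nonneg v) (n_pos K).le
    have hc := le_abs_self c
    have htL : t ≤ θ * L + |c| := by
      have := mul_le_mul_of_nonneg_left hh hθ
      linarith
    -- the index
    have hne : ((Finset.univ : Finset (Fin J)).filter fun j : Fin J =>
        (j : ℝ) / J * θ * L ≤ t).Nonempty := by
      refine ⟨⟨0, hJpos⟩, ?_⟩
      rw [Finset.mem_filter]
      refine ⟨Finset.mem_univ _, ?_⟩
      simpa using ht0
    set j := ((Finset.univ : Finset (Fin J)).filter fun j : Fin J =>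
        (j : ℝ) / J * θ * L ≤ t).max' hne with hj
    have hj1 : (j : ℝ) / J * θ * L ≤ t := (Finset.mem_filter.1 (Finset.max'_mem _ hne)).2
    have hj2 : t ≤ ((j : ℝ) + 1) / J * θ * L + |c| := by
      rcases Nat.lt_or_ge ((j : ℕ) + 1) J with h1 | h1
      · have h2 : ¬ (((j : ℕ) + 1 : ℕ) : ℝ) / J * θ * L ≤ t := by
          intro h3
          have h4 : (⟨(j : ℕ) + 1, h1⟩ : Fin J) ∈ ((Finset.univ : Finset (Fin J)).filter
              fun j : Fin J => (j : ℝ) / J * θ * L ≤ t) :=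
            Finset.mem_filter.2 ⟨Finset.mem_univ _, h3⟩
          have h5 := Finset.le_max' _ _ h4
          rw [← hj] at h5
          have h6 : (j : ℕ) + 1 ≤ (j : ℕ) := h5
          omega
        push Not at h2
        push_cast at h2
        have := abs_nonneg c
        linarith
      · have h2 : (j : ℕ) + 1 = J := le_antisymm j.2 h1
        have h3 : ((j : ℝ) + 1) / J = 1 := by
          rw [div_eq_one_iff_eq hJ0.ne']
          exact_mod_cast h2
        rw [h3, one_mul]
        exact htL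
    rw [Set.mem_iUnion]
    refine ⟨j, ?_⟩
    rw [Set.mem_iUnion₂]
    refine ⟨K, ?_, hK, h, Q, hQ, hv, hh, S, ?_⟩
    · rw [Set.Finite.mem_toFinset]
      refine ⟨hK, hKn, ?_⟩
      have h1 : |(NumberField.discr K : ℝ)| = Real.exp (n * t) := by
        rw [ht]
        unfold logDisc
        rw [hKn, mul_div_cancel₀ _ hn0.ne', Real.exp_log]
        have := one_le_disc K
        linarith
      rw [h1]
      show _ ≤ Real.exp (n * |c|) * B ^ ((n : ℝ) * (((j : ℝ) + 1) / J * θ))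
      rw [Real.rpow_def_of_pos hB0, ← Real.exp_add]
      refine Real.exp_le_exp.2 ?_
      have := mul_le_mul_of_nonneg_left hj2 hn0.le
      rw [← hL]
      linarith
    · have h2 : (j : ℝ) / J * θ * height Q ≤ (j : ℝ) / J * θ * L :=
        mul_le_mul_of_nonneg_left hh (mul_nonneg (hfr j).1 hθ)
      have h3 : θ * (1 - (j : ℝ) / J) * height Q = θ * height Q - (j : ℝ) / J * θ * height Q := by
        ring
      rw [h3]
      linarith
  have hfinK : ∀ j : Fin J, ∀ K ∈ (hF (T j) (hT1 j)).1.toFinset,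
      (ExcK k a (θ * (1 - (j : ℝ) / J)) |c| B K).Finite ∧
        ((ExcK k a (θ * (1 - (j : ℝ) / J)) |c| B K).ncard : ℝ) ≤
          (Cj j * B ^ (θ * (1 - (j : ℝ) / J) + δ / (2 * n))) ^ n := by
    intro j K hK
    rw [Set.Finite.mem_toFinset] at hK
    obtain ⟨hK1, hK2, -⟩ := hK
    have := hCj j K hK1 B hB
    rw [hK2] at this
    exact this
  have hfin : (⋃ j : Fin J, ⋃ K ∈ (hF (T j) (hT1 j)).1.toFinset,
      ExcK k a (θ * (1 - (j : ℝ) / J)) |c| B K).Finite :=
    Set.finite_iUnion fun j => Set.Finite.biUnion (Finset.finite_toSet _)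
      fun K hK => (hfinK j K hK).1
  refine ⟨hfin.subset hsub, ?_⟩
  have h1 : ((Exceptions k a r θ c B).ncard : ℝ) ≤
      ∑ j : Fin J, ∑ K ∈ (hF (T j) (hT1 j)).1.toFinset,
        ((ExcK k a (θ * (1 - (j : ℝ) / J)) |c| B K).ncard : ℝ) := by
    have h2 := (Set.ncard_le_ncard hsub hfin).trans (Set.ncard_iUnion_le_of_fintype _)
    refine (Nat.cast_le.2 h2).trans ?_
    push_cast
    refine Finset.sum_le_sum fun j _ => ?_
    have := Finset.set_ncard_biUnion_le (hF (T j) (hT1 j)).1.toFinset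
      fun K => ExcK k a (θ * (1 - (j : ℝ) / J)) |c| B K
    exact_mod_cast this
  refine h1.trans ?_
  rw [Finset.sum_mul]
  refine Finset.sum_le_sum fun j _ => ?_
  obtain ⟨hj0, hj1, hj2⟩ := hfr j
  calc ∑ K ∈ (hF (T j) (hT1 j)).1.toFinset,
        ((ExcK k a (θ * (1 - (j : ℝ) / J)) |c| B K).ncard : ℝ)
      ≤ ∑ _K ∈ (hF (T j) (hT1 j)).1.toFinset,
          (Cj j * B ^ (θ * (1 - (j : ℝ) / J) + δ / (2 * n))) ^ n :=
        Finset.sum_le_sum fun K hK => (hfinK j K hK).2
    _ = ((Flds n (T j)).ncard : ℝ) * (Cj j * B ^ (θ * (1 - (j : ℝ) / J) + δ / (2 * n))) ^ n := by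
        have e := Set.ncard_eq_toFinset_card (Flds n (T j)) (hF (T j) (hT1 j)).1
        rw [Finset.sum_const, nsmul_eq_mul, ← e]
    _ ≤ (CF * T j ^ α) * (Cj j * B ^ (θ * (1 - (j : ℝ) / J) + δ / (2 * n))) ^ n := by
        refine mul_le_mul_of_nonneg_right (hF (T j) (hT1 j)).2 ?_
        have := hCj1 j
        positivity
    _ = CF * Real.exp (n * |c|) ^ α * Cj j ^ n *
          (B ^ ((n : ℝ) * (((j : ℝ) + 1) / J * θ) * α) *
            B ^ ((θ * (1 - (j : ℝ) / J) + δ / (2 * n)) * n)) := by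
        show (CF * (Real.exp (n * |c|) * B ^ ((n : ℝ) * (((j : ℝ) + 1) / J * θ))) ^ α) * _ = _
        rw [Real.mul_rpow (Real.exp_pos _).le (by positivity), mul_pow,
          ← Real.rpow_mul hB0.le, ← Real.rpow_natCast (B ^ (θ * (1 - (j : ℝ) / J) + δ / (2 * n))),
          ← Real.rpow_mul hB0.le]
        ring
    _ ≤ CF * Real.exp (n * |c|) ^ α * Cj j ^ n * B ^ ((n : ℝ) * (α * θ) + δ) := by
        have hpos : 0 ≤ CF * Real.exp (n * |c|) ^ α * Cj j ^ n := by
          have := hCj1 j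
          positivity
        refine mul_le_mul_of_nonneg_left ?_ hpos
        rw [← Real.rpow_add hB0]
        refine Real.rpow_le_rpow_of_exponent_le hB ?_
        have e1 : (θ * (1 - (j : ℝ) / J) + δ / (2 * n)) * n =
            n * θ * (1 - (j : ℝ) / J) + δ / 2 := by
          field_simp
        rw [e1]
        have e2 : ((j : ℝ) + 1) / J = (j : ℝ) / J + 1 / J := by ring
        have e3 : (n : ℝ) * (((j : ℝ) + 1) / J * θ) * α + (n * θ * (1 - (j : ℝ) / J)) =
            n * θ * ((((j : ℝ) + 1) / J) * (α - 1)) + n * θ + n * (θ / J) := by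
          rw [e2]; ring
        have e4 : n * θ * ((((j : ℝ) + 1) / J) * (α - 1)) ≤ n * θ * (1 * (α - 1)) := by
          refine mul_le_mul_of_nonneg_left ?_ (by positivity)
          exact mul_le_mul_of_nonneg_right hj2 (by linarith)
        nlinarith

/-! ### The number of points of degree `r` -/

lemma rep_toC {K : IntermediateField ℚ ℂ} (Q : ℙ K (Fin (m + 1) → K)) :
    ∃ b : ℂ, b ≠ 0 ∧ ∀ i, (toC Q).rep i = b * ((Q.rep i : K) : ℂ) := by
  obtain ⟨a, ha⟩ := Projectivization.exists_smul_eq_mk_rep ℂ (fun i => ((Q.rep i : K) : ℂ))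
    (coe_rep_ne Q)
  refine ⟨(a : ℂ), a.ne_zero, fun i => ?_⟩
  have := congrFun ha i
  exact this.symm

lemma toC_inj {K : IntermediateField ℚ ℂ} {Q Q' : ℙ K (Fin (m + 1) → K)} (h : toC Q = toC Q') :
    Q = Q' := by
  unfold toC at h
  rw [Projectivization.mk_eq_mk_iff'] at h
  obtain ⟨b, hb⟩ := h
  obtain ⟨j, hj⟩ := Function.ne_iff.mp Q'.rep_nonzero
  have hj' : Q'.rep j ≠ 0 := hj
  have hjC : ((Q'.rep j : K) : ℂ) ≠ 0 := by
    intro h0
    exact hj' (by exact_mod_cast h0)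
  have hbi : ∀ i, b * ((Q'.rep i : K) : ℂ) = ((Q.rep i : K) : ℂ) := fun i => congrFun hb i
  have hbv : b = ((Q.rep j / Q'.rep j : K) : ℂ) := by
    push_cast
    rw [eq_div_iff hjC]
    exact hbi j
  refine Pool.Agent.N752.RD.eq_of_rep (s := Q.rep j / Q'.rep j) fun i => ?_
  have h1 := hbi i
  rw [hbv] at h1
  exact_mod_cast h1.symm

lemma ratio_mem (k : IntermediateField ℚ ℂ) {K : IntermediateField ℚ ℂ}
    (Q : ℙ K (Fin (m + 1) → K)) {i j : Fin (m + 1)} (hj : Q.rep j ≠ 0) :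
    ((Q.rep i : K) : ℂ) / ((Q.rep j : K) : ℂ) ∈ fieldOf k (toC Q) := by
  obtain ⟨b, hb, hr⟩ := rep_toC Q
  have hjC : ((Q.rep j : K) : ℂ) ≠ 0 := by
    intro h0
    exact hj (by exact_mod_cast h0)
  refine (le_sup_right : _ ≤ fieldOf k (toC Q)) (IntermediateField.subset_adjoin ℚ _ ⟨i, j, ?_, ?_⟩)
  · rw [hr]
    exact mul_ne_zero hb hjC
  · rw [hr, hr, mul_div_mul_left _ _ hb]

lemma fieldOf_le {k K : IntermediateField ℚ ℂ} (h : k ≤ K) (Q : ℙ K (Fin (m + 1) → K)) :
    fieldOf k (toC Q) ≤ K := by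
  refine sup_le h (IntermediateField.adjoin_le_iff.2 ?_)
  rintro z ⟨i, j, hj, rfl⟩
  obtain ⟨b, hb, hr⟩ := rep_toC Q
  rw [hr, hr, mul_div_mul_left _ _ hb]
  exact (Q.rep i / Q.rep j : K).2

open Pool.Agent.N752.RD in
lemma bad_count {k K : IntermediateField ℚ ℂ} (hK : NumberField K)
    (K' : IntermediateField ℚ ℂ) (hK' : K' ≤ K) : ∃ C : ℝ, 0 ≤ C ∧ ∀ B : ℝ, 1 ≤ B →
      {Q : ℙ K (Fin (m + 1) → K) | height Q ≤ Real.log B ∧ fieldOf k (toC Q) = K'}.Finite ∧
      ({Q : ℙ K (Fin (m + 1) → K) | height Q ≤ Real.log B ∧ fieldOf k (toC Q) = K'}.ncard : ℝ) ≤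
        C * B ^ (Module.finrank ℚ K' * (m + 1)) := by
  classical
  have hnf : NumberField K' := nf_of_le hK hK'
  obtain ⟨C, hC0, hC⟩ := pts_upper K' m
  refine ⟨C, hC0, fun B hB => ?_⟩
  have hB0 : 0 < B := by linarith
  obtain ⟨hfin', hcard'⟩ := hC B hB
  let ι := IntermediateField.inclusion hK'
  let _ : Algebra K' K := ι.toRingHom.toAlgebra
  have hst : IsScalarTower ℚ K' K := IsScalarTower.of_algebraMap_eq fun x => by
    apply Subtype.ext
    show ((algebraMap ℚ K x : K) : ℂ) = ((algebraMap ℚ K' x : K') : ℂ)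
    simp
  have hfd : FiniteDimensional ℚ K := hK.to_finiteDimensional
  have hfr : Module.finrank ℚ K' * Module.finrank K' K = Module.finrank ℚ K :=
    Module.finrank_mul_finrank ℚ K' K
  have hex : ∀ Q : ℙ K (Fin (m + 1) → K), ∃ Q' : ℙ K' (Fin (m + 1) → K'),
      fieldOf k (toC Q) = K' → ∃ s : K, s ≠ 0 ∧ ∀ i, Q.rep i = s * ι (Q'.rep i) := by
    intro Q
    by_cases h : fieldOf k (toC Q) = K'
    · obtain ⟨j, hj⟩ := Function.ne_iff.mp Q.rep_nonzero
      have hj' : Q.rep j ≠ 0 := hj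
      let x : Fin (m + 1) → K' := fun i =>
        ⟨((Q.rep i : K) : ℂ) / ((Q.rep j : K) : ℂ), by rw [← h]; exact ratio_mem k Q hj'⟩
      have hx : ∀ i, ι (x i) = Q.rep i / Q.rep j := by
        intro i
        apply Subtype.ext
        show ((Q.rep i : K) : ℂ) / ((Q.rep j : K) : ℂ) = ((Q.rep i / Q.rep j : K) : ℂ)
        push_cast
        rfl
      have hx0 : x ≠ 0 := by
        intro h0
        have h1 := hx j
        rw [h0] at h1
        simp only [Pi.zero_apply, map_zero] at h1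
        rw [div_self hj'] at h1
        exact zero_ne_one h1
      obtain ⟨b, hb⟩ := Projectivization.exists_smul_eq_mk_rep K' x hx0
      refine ⟨Projectivization.mk K' x hx0, fun _ => ⟨Q.rep j * (ι (b : K'))⁻¹, ?_, fun i => ?_⟩⟩
      · refine mul_ne_zero hj' (inv_ne_zero ?_)
        rw [Ne, map_eq_zero]
        exact b.ne_zero
      · have h1 := congrFun hb i
        have h2 : (Projectivization.mk K' x hx0).rep i = (b : K') * x i := h1.symm
        rw [h2, map_mul, hx i]
        have h3 : ι (b : K') ≠ 0 := by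
          rw [Ne, map_eq_zero]; exact b.ne_zero
        field_simp
    · exact ⟨Projectivization.mk K' (fun _ => 1) (by
        intro h0
        have := congrFun h0 0
        simp at this), fun h' => absurd h' h⟩
  choose ψ hψ using hex
  have hmaps : ∀ Q ∈ {Q : ℙ K (Fin (m + 1) → K) | height Q ≤ Real.log B ∧ fieldOf k (toC Q) = K'},
      ψ Q ∈ {Q' : ℙ K' (Fin (m + 1) → K') | Q'.mulHeight ≤ B ^ Module.finrank ℚ K'} := by
    rintro Q ⟨h1, h2⟩
    obtain ⟨s, hs, hr⟩ := hψ Q h2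
    show (ψ Q).mulHeight ≤ _
    rw [mulHeight_rep]
    have h3 : Q.mulHeight = Height.mulHeight (ψ Q).rep ^ Module.finrank K' K := by
      rw [mulHeight_rep, ← Pool.Agent.Helper259.HtExt.mulHeight_ext (K := K') (L := K) (ψ Q).rep]
      have h4 : Q.rep = s • (fun i => algebraMap K' K ((ψ Q).rep i)) := by
        funext i
        rw [hr i]
        rfl
      rw [h4, Height.mulHeight_smul_eq_mulHeight _ hs]
    have hpos : 0 < Height.mulHeight (ψ Q).rep := Height.mulHeight_pos _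
    unfold height at h1
    rw [h3, Real.log_pow, div_le_iff₀ (n_pos K), ← hfr] at h1
    have hfp : (0 : ℝ) < Module.finrank K' K := by
      have : 0 < Module.finrank ℚ K' * Module.finrank K' K := by rw [hfr]; exact Module.finrank_pos
      exact_mod_cast Nat.pos_of_mul_pos_left this
    have h5 : Real.log (Height.mulHeight (ψ Q).rep) ≤ Module.finrank ℚ K' * Real.log B := by
      have h6 : (Module.finrank K' K : ℝ) * Real.log (Height.mulHeight (ψ Q).rep) ≤
          (Module.finrank K' K : ℝ) * (Module.finrank ℚ K' * Real.log B) := by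
        refine h1.trans (le_of_eq ?_)
        push_cast
        ring
      exact le_of_mul_le_mul_left h6 hfp
    rw [← Real.log_pow] at h5
    exact (Real.log_le_log_iff hpos (by positivity)).1 h5
  have hinj : Set.InjOn ψ {Q : ℙ K (Fin (m + 1) → K) | height Q ≤ Real.log B ∧
      fieldOf k (toC Q) = K'} := by
    rintro Q1 ⟨-, h1⟩ Q2 ⟨-, h2⟩ h
    obtain ⟨s1, hs1, hr1⟩ := hψ Q1 h1
    obtain ⟨s2, hs2, hr2⟩ := hψ Q2 h2
    refine eq_of_rep (s := s1 / s2) fun i => ?_
    rw [hr1 i, hr2 i, h]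
    field_simp
  have hfin : {Q : ℙ K (Fin (m + 1) → K) | height Q ≤ Real.log B ∧
      fieldOf k (toC Q) = K'}.Finite :=
    Set.Finite.of_finite_image (hfin'.subset (by
      rintro _ ⟨Q, hQ, rfl⟩; exact hmaps Q hQ)) hinj
  refine ⟨hfin, le_trans ?_ hcard'⟩
  exact_mod_cast Set.ncard_le_ncard_of_injOn ψ hmaps hinj hfin'

open Pool.Agent.N752.RD Pool.Agent.Results.MP_9ec3f0_nt in
theorem lower (k : IntermediateField ℚ ℂ) [NumberField k] (hm : 1 ≤ m) (hq : m + 1 ≤ q)
    (a : Fin q → Fin (m + 1) → k)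
    (ha : ∀ I : Finset (Fin q), I.card = m + 1 → LinearIndependent k (fun i : I => a i))
    (r n : ℕ) (hn : n = r * Module.finrank ℚ k) (hr : 1 ≤ r) (δ : ℝ) (hδ : 0 < δ) :
    ∃ c B₀ : ℝ, 0 < c ∧ ∀ B : ℝ, B₀ ≤ B → ∃ F : Finset (ℙ ℂ (Fin (m + 1) → ℂ)),
      (F : Set (ℙ ℂ (Fin (m + 1) → ℂ))) ⊆ Points k a r B ∧
      c * B ^ ((n : ℝ) * (m + 1) - δ) ≤ (F.card : ℝ) := by
  classical
  obtain ⟨K, hK, hkK, hdeg⟩ := exists_ext k r hr
  have hfrK : Module.finrank ℚ K = n := by rw [hdeg, hn]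
  have hn0 : 0 < n := by rw [← hfrK]; exact Module.finrank_pos
  have hn0' : (0 : ℝ) < n := by exact_mod_cast hn0
  have hm1 : (1 : ℝ) ≤ m := by exact_mod_cast hm
  let _ : Algebra k K := (IntermediateField.inclusion hkK).toRingHom.toAlgebra
  set δ1 : ℝ := min δ (1 / 2) with hδ1
  have hδ1p : 0 < δ1 := lt_min hδ (by norm_num)
  have hδ1δ : δ1 ≤ δ := min_le_left _ _
  have hδ1h : δ1 ≤ 1 / 2 := min_le_right _ _
  obtain ⟨-, h2⟩ := AllFieldsAllDegrees.result k m q hm hq a ha
  obtain ⟨C, hC, hlow⟩ := h2 (δ1 / n) (by positivity)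
  obtain ⟨h1, -⟩ := AllFieldsAllDegrees.result k m q hm hq a ha
  have hq0 : (0 : ℝ) < q := by
    have : 0 < q := by omega
    exact_mod_cast this
  obtain ⟨-, C', -, h1'⟩ := h1 0 0 1 (le_refl _) hq0 one_pos
  -- subfields
  set sub : Finset (IntermediateField ℚ ℂ) := (finite_sub hK).toFinset.erase K with hsub
  have hsubm : ∀ K' ∈ sub, K' ≤ K ∧ K' ≠ K := by
    intro K' h
    rw [hsub, Finset.mem_erase, Set.Finite.mem_toFinset] at h
    exact ⟨h.2, h.1⟩
  have hbad : ∀ K' : IntermediateField ℚ ℂ, ∃ C : ℝ, 0 ≤ C ∧ (K' ∈ sub → ∀ B : ℝ, 1 ≤ B →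
      {Q : ℙ K (Fin (m + 1) → K) | height Q ≤ Real.log B ∧ fieldOf k (toC Q) = K'}.Finite ∧
      ({Q : ℙ K (Fin (m + 1) → K) | height Q ≤ Real.log B ∧ fieldOf k (toC Q) = K'}.ncard : ℝ) ≤
        C * B ^ (Module.finrank ℚ K' * (m + 1))) := by
    intro K'
    by_cases h : K' ∈ sub
    · obtain ⟨C, hC, h'⟩ := bad_count (k := k) (m := m) hK K' (hsubm K' h).1
      exact ⟨C, hC, fun _ => h'⟩
    · exact ⟨0, le_refl _, fun h' => absurd h' h⟩
  choose Cb hCb0 hCb using hbad
  set C2 : ℝ := ∑ K' ∈ sub, Cb K' with hC2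
  have hC20 : 0 ≤ C2 := Finset.sum_nonneg fun K' _ => hCb0 K'
  set e : ℝ := (m : ℝ) + 1 - δ1 / n with he
  set R : ℝ := AllFieldsAllDegrees.rootDisc K ^ (-(((m : ℝ) + 3) / 2 + δ1 / n)) with hR
  have hrd : 0 < AllFieldsAllDegrees.rootDisc K := by
    unfold AllFieldsAllDegrees.rootDisc
    have := one_le_disc K
    positivity
  set c1 : ℝ := (C⁻¹ * R) ^ n with hc1
  have hR0 : 0 < R := by positivity
  have hc10 : 0 < c1 := by positivity
  refine ⟨c1 / 2, max (max 1 (C * AllFieldsAllDegrees.rootDisc K ^ 2)) ((2 * C2 / c1) ^ 2),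
    by positivity, fun B hB => ?_⟩
  have hB1 : 1 ≤ B := (le_max_left _ _).trans ((le_max_left _ _).trans hB)
  have hBd : C * AllFieldsAllDegrees.rootDisc K ^ 2 ≤ B :=
    (le_max_right _ _).trans ((le_max_left _ _).trans hB)
  have hBc : (2 * C2 / c1) ^ 2 ≤ B := (le_max_right _ _).trans hB
  have hB0 : 0 < B := by linarith
  obtain ⟨hPfin, -⟩ := h1' K B hB1
  have hlow' := hlow K B hBd
  set Pt := AllFieldsAllDegrees.Pts K a B with hPt
  have hlow2 : c1 * B ^ ((n : ℝ) * (m + 1) - δ1) ≤ (Pt.ncard : ℝ) := by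
    refine le_trans (le_of_eq ?_) hlow'
    rw [hfrK, hc1, mul_right_comm, mul_pow (C⁻¹ * R), ← Real.rpow_natCast (B ^ e),
      ← Real.rpow_mul hB0.le]
    congr 2
    rw [he]
    field_simp
  set good : Set (ℙ K (Fin (m + 1) → K)) := {Q | Q ∈ Pt ∧ fieldOf k (toC Q) = K} with hgood
  have hgfin : good.Finite := hPfin.subset fun Q hQ => hQ.1
  have hcover : Pt ⊆ good ∪ ⋃ K' ∈ sub,
      {Q : ℙ K (Fin (m + 1) → K) | height Q ≤ Real.log B ∧ fieldOf k (toC Q) = K'} := by
    intro Q hQ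
    by_cases h : fieldOf k (toC Q) = K
    · exact Or.inl ⟨hQ, h⟩
    · right
      rw [Set.mem_iUnion₂]
      refine ⟨fieldOf k (toC Q), ?_, hQ.2, rfl⟩
      rw [hsub, Finset.mem_erase, Set.Finite.mem_toFinset]
      exact ⟨h, fieldOf_le hkK Q⟩
  have hcount : (Pt.ncard : ℝ) ≤ good.ncard + C2 * B ^ ((n : ℝ) * (m + 1) - 1) := by
    have hbfin : (⋃ K' ∈ sub, {Q : ℙ K (Fin (m + 1) → K) | height Q ≤ Real.log B ∧
        fieldOf k (toC Q) = K'}).Finite :=
      Set.Finite.biUnion (Finset.finite_toSet _) fun K' h => (hCb K' h B hB1).1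
    have e1 : Pt.ncard ≤ good.ncard + ∑ K' ∈ sub,
        ({Q : ℙ K (Fin (m + 1) → K) | height Q ≤ Real.log B ∧ fieldOf k (toC Q) = K'}).ncard :=
      (Set.ncard_le_ncard hcover (hgfin.union hbfin)).trans ((Set.ncard_union_le _ _).trans
        (Nat.add_le_add_left (Finset.set_ncard_biUnion_le _ _) _))
    have e2 : (Pt.ncard : ℝ) ≤ good.ncard + ∑ K' ∈ sub,
        (({Q : ℙ K (Fin (m + 1) → K) | height Q ≤ Real.log B ∧
          fieldOf k (toC Q) = K'}).ncard : ℝ) := by exact_mod_cast e1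
    refine e2.trans (add_le_add_right ?_ _)
    rw [hC2, Finset.sum_mul]
    refine Finset.sum_le_sum fun K' h => ((hCb K' h B hB1).2).trans ?_
    refine mul_le_mul_of_nonneg_left ?_ (hCb0 K')
    rw [← Real.rpow_natCast]
    refine Real.rpow_le_rpow_of_exponent_le hB1 ?_
    have h3 : Module.finrank ℚ K' + 1 ≤ n := by
      rw [← hfrK]
      exact finrank_lt hK (hsubm K' h).1 (hsubm K' h).2
    have h4 : (Module.finrank ℚ K' : ℝ) + 1 ≤ n := by exact_mod_cast h3
    push_cast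
    nlinarith
  have hhalf : C2 * B ^ ((n : ℝ) * (m + 1) - 1) ≤ c1 / 2 * B ^ ((n : ℝ) * (m + 1) - δ1) := by
    have e1 : B ^ ((n : ℝ) * (m + 1) - δ1) = B ^ ((n : ℝ) * (m + 1) - 1) * B ^ (1 - δ1) := by
      rw [← Real.rpow_add hB0]
      congr 1
      ring
    have e2 : 2 * C2 / c1 ≤ B ^ (1 - δ1) := by
      have e3 : 2 * C2 / c1 ≤ B ^ ((1 : ℝ) / 2) := by
        have h0 : 0 ≤ 2 * C2 / c1 := by positivity
        calc 2 * C2 / c1 = ((2 * C2 / c1) ^ 2) ^ ((1 : ℝ) / 2) := by
              rw [← Real.rpow_natCast, ← Real.rpow_mul h0]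
              norm_num
          _ ≤ _ := Real.rpow_le_rpow (by positivity) hBc (by norm_num)
      refine e3.trans (Real.rpow_le_rpow_of_exponent_le hB1 (by linarith))
    rw [div_le_iff₀ hc10] at e2
    rw [e1]
    have e4 : 0 ≤ B ^ ((n : ℝ) * (m + 1) - 1) := by positivity
    nlinarith
  have hgood2 : c1 / 2 * B ^ ((n : ℝ) * (m + 1) - δ) ≤ (good.ncard : ℝ) := by
    have e1 : c1 / 2 * B ^ ((n : ℝ) * (m + 1) - δ) ≤ c1 / 2 * B ^ ((n : ℝ) * (m + 1) - δ1) :=
      mul_le_mul_of_nonneg_left (Real.rpow_le_rpow_of_exponent_le hB1 (by linarith))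
        (by positivity)
    linarith
  refine ⟨hgfin.toFinset.image toC, ?_, ?_⟩
  · intro P hP
    rw [Finset.coe_image] at hP
    obtain ⟨Q, hQ, rfl⟩ := hP
    rw [Finset.mem_coe, Set.Finite.mem_toFinset] at hQ
    obtain ⟨⟨hv, hh⟩, hfK⟩ := hQ
    have hv' : ∀ i, value (liftTo hkK a i) Q ≠ 0 := hv
    have hh' : height Q ≤ Real.log B := hh
    exact ⟨K, hK, hkK, Q, hfK, hdeg, rfl, hv', hh'⟩
  · rw [Finset.card_image_of_injective _ fun _ _ h => toC_inj h,
      ← Set.ncard_eq_toFinset_card _ hgfin]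
    exact hgood2

end

/-- **The truncated inequality with discriminant term for almost all points of degree `r`.** Let
`η > 0`. There is `c₀ ≥ 1` such that the following holds for all number fields `k ⊆ ℂ`, all
`m ≥ 1`, all `q ≥ m + 1` hyperplanes in general position in `ℙ^m` over `k`, all `r ≥ 2`; let
`n = r [k : ℚ]`. For all `0 ≤ θ < q`, `c` and `δ > 0` there is `C` such that for all `B ≥ 1` all but
`C B ^ (n α θ + δ)`, `α = alpha n c₀ η`, of the points `P` whose field of definition `k(P)` has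
degree `r` over `k`, of height at most `log B`, off the hyperplanes, satisfy
`θ h(P) + c < N_S^{(1)}(D, P) + ∑_{v ∈ S} log N_v / n + d(P)` for all finite sets `S` of finite places
of `k(P)`. And for every `δ > 0` there are `c₁ > 0` and `B₀` such that for `B ≥ B₀` there are at least
`c₁ B ^ (n (m + 1) - δ)` such points of height at most `log B`. -/
theorem result : ∀ η : ℝ, 0 < η → ∃ c₀ : ℝ, 1 ≤ c₀ ∧
    ∀ (k : IntermediateField ℚ ℂ) [NumberField k] (m q r n : ℕ), 1 ≤ m → m + 1 ≤ q → 2 ≤ r →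
      n = r * Module.finrank ℚ k → ∀ a : Fin q → Fin (m + 1) → k,
      (∀ I : Finset (Fin q), I.card = m + 1 → LinearIndependent k (fun i : I => a i)) →
      (∀ θ c δ : ℝ, 0 ≤ θ → θ < q → 0 < δ → ∃ C : ℝ, ∀ B : ℝ, 1 ≤ B →
        (Exceptions k a r θ c B).Finite ∧ ((Exceptions k a r θ c B).ncard : ℝ) ≤
          C * B ^ ((n : ℝ) * (alpha n c₀ η * θ) + δ)) ∧
      (∀ δ : ℝ, 0 < δ → ∃ c₁ B₀ : ℝ, 0 < c₁ ∧ ∀ B : ℝ, B₀ ≤ B →
        ∃ F : Finset (ℙ ℂ (Fin (m + 1) → ℂ)), (F : Set (ℙ ℂ (Fin (m + 1) → ℂ))) ⊆ Points k a r B ∧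
          c₁ * B ^ ((n : ℝ) * (m + 1) - δ) ≤ (F.card : ℝ)) := by
  intro η hη
  obtain ⟨c₀, hc₀, hα⟩ := Pool.Agent.W223.VD.Points.alpha_admissible hη
  refine ⟨c₀, hc₀, ?_⟩
  intro k _ m q r n hm hq hr hn a ha
  have hk : 0 < Module.finrank ℚ k := Module.finrank_pos
  have hn2 : 2 ≤ n := by
    rw [hn]
    nlinarith
  obtain ⟨h1, h2⟩ := hα n hn2
  refine ⟨fun θ c δ hθ hθq hδ => ?_, fun δ hδ => ?_⟩
  · exact upper k hm hq a ha r n hn hn2 h1 h2 θ c δ hθ hθq hδ
  · exact lower k hm hq a ha r n hn (by omega) δ hδ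

end Pool.Agent.Results.MP_44a246_nt.BoundedDegreeHyperplanes
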