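import Mathlib
import Pool.Agent.N752.FD.Fermat
import Pool.Agent.N752.FD.SliceE
import Pool.Agent.N752.FD.Disc
import Pool.Agent.N752.SU.Universal
import Pool.Agent.TH905.VF.Abs

/-!
# Vojta's conjecture for points of bounded degree: Fermat intersections of every dimension

Let `k` be a number field (for example `ℚ`), `a_0, …, a_{q-1}` linear forms in `m + 1` variables over
`k`, any `m + 1` of them linearly independent, `q ≥ m + 1`, and `e ≥ 1`. The points
`(y_0 : … : y_{q-1})` such that `(y_0 ^ e : … : y_{q-1} ^ e) = (a_0(x) : … : a_{q-1}(x))` for some `x`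
in `ℙ^m` form a smooth complete intersection `X_e` of dimension `m` of `q - m - 1` hypersurfaces of
degree `e` in `ℙ^(q-1)`; let `D` be the divisor `y_0 ⋯ y_{q-1} = 0` on `X_e`: it has normal
crossings. We have `h_K(P) = (e (q - m - 1) - q) h(P)` and `e h(P) = h(x) + O(1)`.

Fix `r ≥ 2` and let `n = r [k : ℚ]`. We consider all points `P` of all `X_e` above the points `x` of
`ℙ^m` whose field of definition `k(x)` has degree `r` over `k`. We prove: for all but
`C B ^ (n E + δ)` of the `x` of height at most `log B`, ALL points `P` above `x`, for ALL `e ≥ 1`, over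
any number field `L ⊇ k(x)`, and ALL finite sets `S` of primes satisfy the inequality
`(θ e - q) h(P) + ∑_{v ∈ S ∪ {∞}} λ_D(P, v) ≤ d(L) + ∑_{p ∈ S} log p + c`,
which is Vojta's inequality with the error term `ε e h(P)` if `θ = q - m - 1 - ε` (one can also take
`ε = 0` or `ε < 0`, since all `θ < q` are allowed), where with
`T = min (θ, 2 r - 2)` and with the number `α` such that there are `O(Δ ^ α)` number fields of degree
`n` and discriminant at most `Δ`
`E = α T + min ((θ - T) (1 - binom(q - m, m + 1) / binom(q, m + 1)),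
  (m + 1) (1 - m (q - θ + T) / (q (q - 1))))`.
There are at least `c B ^ (n (m + 1) - δ)` points `x`. So the inequality of the conjecture holds for
all points above almost all `x` of degree `r` over `k` as soon as `E < m + 1`, in particular if
`α (2 r - 2) q (q - 1) < m (m + 1) (q - θ + 2 r - 2)`, which for fixed `r` and `k` and `θ = q - m - 1`
is true for all `q ≤ c m ^ (3/2)`, for a positive constant `c`. Always `E ≤ α θ`. So for diagonal
hypersurfaces, `q = m + 2`, over `k = ℚ` the inequality holds above almost all `x` of degree `r` if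
`α < m + 1`: for all `r ≤ 2 m + 1`, and for all `r < ((m + 1) / c₀) ^ (1 / η)`.

If `m ≥ n + 1`, then the discriminant term of the conjecture can be replaced by the difference
`d(L) - d(k(x))`, `q` and `θ < q` are arbitrary, and there is ONE exceptional set `E₀` of points `x`, of
density zero among the points whose field of definition has degree `r` over `k` and whose coordinates
span a vector space of dimension `r` over `k`, which works for ALL arrangements `a_0, …, a_{q-1}`, ALL
`q` and ALL `θ < q`: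
`(θ e - q) h(P) + ∑_{v ∈ S ∪ {∞}} λ_D(P, v) ≤ d(L) - d(k(x)) + ∑_{p ∈ S} log p + O(1)` for ALL points `P`
above `x`, for ALL `e ≥ 1`.

Proof. Over the field `K = k(x)` the truncated counting function of the arrangement, without the
primes in `S`, is at most the relative discriminant of `P` plus the truncated counting function over
`L`, and this is at most `q h(P)` minus the proximity function, by the product formula; the constants
do not depend on `K ⊇ k`. If the inequality fails, then `x` violates the truncated inequality with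
discriminant term for hyperplanes. A combination of the coordinates of `x` with small coefficients
generates `k(x)`, and so `d(k(x)) ≤ (2 r - 2) h(x) + C`. We count the `x` for each of the fields
`k(x)` with the discriminant in a given interval by `AllFieldsAllDegrees` (MP_9ec3f0_nt). For
`m ≥ n + 1` we use that there are few points `x` for which the discriminant of `k(x)` is large
(`SpanningPointsAllFields`, MP_9ec3f0_nt).
-/

set_option autoImplicit false

namespace Pool.Agent.Results.MP_651af7_nt.FermatPointsOfDegreeR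

open NumberField IsDedekindDomain
open scoped LinearAlgebra.Projectivization
open Pool.Agent.Results.MP_44a246_nt.BoundedDegreeHyperplanes
  (height value logDisc liftTo toC fieldOf Points Exceptions alpha)
open Pool.Agent.N752.SU (spanDim)

/-- The points of `ℙ^m` whose field of definition has degree `r` over `k` and whose coordinates span
a vector space of dimension `r` over `k`, of absolute logarithmic height at most `T`. -/
def Full (k : IntermediateField ℚ ℂ) (m r : ℕ) (T : ℝ) : Set (ℙ ℂ (Fin (m + 1) → ℂ)) :=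
  {P | spanDim k P = r ∧ ∃ (K : IntermediateField ℚ ℂ) (_ : NumberField K) (_ : k ≤ K)
    (Q : ℙ K (Fin (m + 1) → K)), fieldOf k P = K ∧
    Module.finrank ℚ K = r * Module.finrank ℚ k ∧ toC Q = P ∧ height Q ≤ T}

/-- The set `E` contains almost none of the elements of the sets `F B` as `B → ∞`. -/
def DensityZero {X : Type*} (F : ℝ → Set X) (E : Set X) : Prop :=
  ∀ ε : ℝ, 0 < ε → ∃ B₀ : ℝ, ∀ B : ℝ, B₀ ≤ B → ((E ∩ F B).ncard : ℝ) ≤ ε * ((F B).ncard : ℝ)

/-- The exponent `E = α T + min ((θ - T) (1 - binom(q - m, m + 1) / binom(q, m + 1)),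
(m + 1) (1 - m (q - θ + T) / (q (q - 1))))` with `T = min (θ, 2 r - 2)`. -/
noncomputable def exponent (m q r : ℕ) (α θ : ℝ) : ℝ :=
  α * min θ (2 * r - 2) +
    min ((θ - min θ (2 * r - 2)) *
        (1 - ((q - m).choose (m + 1) : ℝ) / (q.choose (m + 1) : ℝ)))
      (((m : ℝ) + 1) * (1 - (m : ℝ) * ((q : ℝ) - (θ - min θ (2 * r - 2))) /
        ((q : ℝ) * ((q : ℝ) - 1))))

/-- The absolute logarithmic height of the point `(y_0 : … : y_{q-1})`. -/
noncomputable def heightOf {L : Type} [Field L] [NumberField L] {q : ℕ} (y : Fin q → L) : ℝ :=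
  Height.logHeight y / Module.finrank ℚ L

/-- The local height `∑_i log (max_j |y_j| / |y_i|)` of `D`. -/
noncomputable def weil {L : Type} [Field L] {q : ℕ} (f : AbsoluteValue L ℝ) (y : Fin q → L) : ℝ :=
  ∑ i, Real.log ((⨆ j, f (y j)) / f (y i))

/-- The proximity function `∑_{v ∈ S ∪ {∞}} λ_D(P, v)` for the finite set `S` of primes: the sum over
the places of `L` above `S` and infinity, divided by `[L : ℚ]`. The absolute values are normalised
so that the product formula holds: `|b|_w = N(w) ^ (- w(b))`. -/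
noncomputable def proximity (S : Finset ℕ) {L : Type} [Field L] [NumberField L] {q : ℕ}
    (y : Fin q → L) : ℝ :=
  (∑ w : InfinitePlace L, (w.mult : ℝ) * weil w.1 y +
    ∑ᶠ w ∈ {w : HeightOneSpectrum (𝓞 L) | ∃ p ∈ S, (p : 𝓞 L) ∈ w.asIdeal},
      weil (FinitePlace.mk w).1 y) / Module.finrank ℚ L

/-- The exceptional points `x` of `ℙ^m`, with a field of definition `K = k(x)` of degree `r` over `k`,
of height at most `log B` and off the hyperplanes: for some `e ≥ 1`, some number field `L ⊇ K`, some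
point `P = (y_0 : … : y_{q-1})` of `X_e` over `L` above `x` and some finite set `S` of primes the
inequality `(θ e - q) h(P) + ∑_{v ∈ S ∪ {∞}} λ_D(P, v) ≤ d(L) + ∑_{p ∈ S} log p + c` fails. -/
def exceptional (k : IntermediateField ℚ ℂ) {m q : ℕ} (a : Fin q → Fin (m + 1) → k) (r : ℕ)
    (θ c B : ℝ) : Set (ℙ ℂ (Fin (m + 1) → ℂ)) :=
  {x | ∃ (K : IntermediateField ℚ ℂ) (_ : NumberField K) (h : k ≤ K) (Q : ℙ K (Fin (m + 1) → K)),
    fieldOf k x = K ∧ Module.finrank ℚ K = r * Module.finrank ℚ k ∧ toC Q = x ∧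
    (∀ i, value (liftTo h a i) Q ≠ 0) ∧ height Q ≤ Real.log B ∧
    ∃ (e : ℕ) (L : Type) (_ : Field L) (_ : NumberField L) (_ : Algebra K L) (y : Fin q → L) (t : L)
      (S : Finset ℕ), 1 ≤ e ∧ t ≠ 0 ∧
        (∀ i, y i ^ e = t * algebraMap K L (value (liftTo h a i) Q)) ∧ (∀ p ∈ S, p.Prime) ∧
        logDisc L + ∑ p ∈ S, Real.log p + c < (θ * e - q) * heightOf y + proximity S y}

lemma exceptional_sub (k : IntermediateField ℚ ℂ) [NumberField k] {m q : ℕ} (hq : m + 1 ≤ q)
    (a : Fin q → Fin (m + 1) → k)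
    (ha : ∀ I : Finset (Fin q), I.card = m + 1 → LinearIndependent k (fun i : I => a i))
    (θ c : ℝ) (hθ : 0 ≤ θ) (r n : ℕ) (hr : 2 ≤ r) (hn : n = r * Module.finrank ℚ k) :
    ∃ c' : ℝ, ∀ (B : ℝ), 1 ≤ B →
      exceptional k a r θ c B ⊆ Pool.Agent.N752.FD.ExcT k a n θ (min θ (2 * r - 2)) c' B := by
  have hr1 : (2 : ℝ) ≤ r := by exact_mod_cast hr
  obtain ⟨A, hA, h⟩ := Pool.Agent.N752.FD.ineq_unif hq ha
  obtain ⟨CD, hCD, hdisc⟩ := Pool.Agent.N752.FD.disc_bound k m r (by omega)
  refine ⟨|θ * A + A - c| + CD, fun B hB => ?_⟩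
  rintro x ⟨K, hK, hk, Q, hf, hdeg, hQ, hv, hh, e, L, i1, i2, i3, y, t, S, he, ht, hy, hS, hviol⟩
  have hL0 : 0 ≤ Real.log B := Real.log_nonneg hB
  have hdc := hdisc K hK hk Q (by rw [hQ, hf]) hdeg
  suffices hmain : ∃ S : Finset (FinitePlace K),
      Pool.Agent.Results.MP_44a246_nt.BoundedDegreeHyperplanes.truncated S (liftTo hk a) Q +
      (∑ v ∈ S, Pool.Agent.Results.MP_44a246_nt.BoundedDegreeHyperplanes.logNorm v) /
        Module.finrank ℚ K + logDisc K ≤ θ * height Q + (θ * A + A - c) by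
    obtain ⟨S', hS'⟩ := hmain
    have hcc := le_abs_self (θ * A + A - c)
    refine ⟨K, hK, hk, Q, by rw [hdeg, hn], hQ, hv, hh, ?_, S', by linarith⟩
    have h1 : logDisc K ≤ θ * Real.log B + (|θ * A + A - c| + CD) := by
      have h2 := Pool.Agent.Results.MP_44a246_nt.BoundedDegreeHyperplanes.truncated_nonneg S'
        (liftTo hk a) Q
      have h3 : 0 ≤ (∑ v ∈ S',
          Pool.Agent.Results.MP_44a246_nt.BoundedDegreeHyperplanes.logNorm v) /
            (Module.finrank ℚ K : ℝ) :=
        div_nonneg (Finset.sum_nonneg fun v _ =>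
          Pool.Agent.Results.MP_44a246_nt.BoundedDegreeHyperplanes.logNorm_nonneg v)
          (Pool.Agent.Results.MP_44a246_nt.BoundedDegreeHyperplanes.n_pos K).le
      have h4 := mul_le_mul_of_nonneg_left hh hθ
      linarith
    have h5 : logDisc K ≤ (2 * (r : ℝ) - 2) * Real.log B + (|θ * A + A - c| + CD) := by
      have h6 := mul_le_mul_of_nonneg_left hh (show (0 : ℝ) ≤ 2 * (r : ℝ) - 2 by linarith)
      have h7 := abs_nonneg (θ * A + A - c)
      linarith
    rcases min_choice θ (2 * (r : ℝ) - 2) with h8 | h8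
    · rw [h8]; exact h1
    · rw [h8]; exact h5
  let _ : Algebra k K := (IntermediateField.inclusion hk).toRingHom.toAlgebra
  have hd : (0 : ℝ) < Module.finrank ℚ K := by exact_mod_cast Module.finrank_pos
  set d : ℝ := (Module.finrank ℚ K : ℝ) with hdd
  obtain ⟨S', h1, h2⟩ := h K Q.rep Q.rep_nonzero hv e (by omega) L y t ht hy
    (Pool.Agent.TH905.VF.above_finite K S hS).toFinset
  refine ⟨S', ?_⟩
  have hL : (0 : ℝ) < Module.finrank K L := Pool.Agent.TH905.VF.finrank_pos'
  have htow : (Module.finrank ℚ L : ℝ) = d * Module.finrank K L := by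
    rw [hdd]
    exact_mod_cast (Module.finrank_mul_finrank ℚ K L).symm
  have h3 := Pool.Agent.TH905.VF.sum_above K S hS
    (Pool.Agent.TH905.VF.above_finite K S hS).toFinset
    fun v hv => (Set.Finite.mem_toFinset (Pool.Agent.TH905.VF.above_finite K S hS)).1 hv
  have h5 : Pool.Agent.TH905.VF.prox
      (Pool.Agent.TH905.VF.above_finite K S hS).toFinset y = d * proximity S y := by
    unfold Pool.Agent.TH905.VF.prox proximity
    rw [Pool.Agent.TH905.VF.above_eq S hS, htow]
    have e1 : ∀ w : HeightOneSpectrum (𝓞 L),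
        Pool.Agent.TH905.VF.loc (Pool.Agent.H691R3.fv w) y = weil (FinitePlace.mk w).1 y :=
      fun w => rfl
    have e2 : ∀ w : InfinitePlace L, Pool.Agent.TH905.VF.loc w.1 y = weil w.1 y := fun w => rfl
    simp only [e1, e2]
    rw [mul_div_assoc', mul_div_mul_left _ _ hd.ne']
  have h6 : Pool.Agent.TH905.VF.ld K L = d * logDisc L - Real.log |(discr K : ℝ)| := by
    unfold Pool.Agent.TH905.VF.ld logDisc
    rw [htow]
    field_simp
  have h7 : Pool.Agent.TH905.VF.ht K y = d * heightOf y := by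
    unfold Pool.Agent.TH905.VF.ht heightOf
    rw [htow]
    field_simp
  have h8 : Real.log |(discr K : ℝ)| = d * logDisc K := by
    unfold logDisc
    rw [mul_div_cancel₀ _ hd.ne']
  have h9 : Height.logHeight Q.rep = d * height Q := by
    unfold height
    rw [mul_div_cancel₀ _ hd.ne', Pool.Agent.TH905.VF.rep_height,
      Height.logHeight_eq_log_mulHeight]
  have h10 := mul_lt_mul_of_pos_left hviol hd
  rw [← hdd] at h1 h2 h3
  rw [h5, h6, h7, h8] at h1
  rw [h7, h9] at h2
  have h11 := mul_le_mul_of_nonneg_left h2 hθ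
  have h12 : Pool.Agent.Results.MP_44a246_nt.BoundedDegreeHyperplanes.truncated S' (liftTo hk a) Q =
      Pool.Agent.H57R3.VJ.N1 S' (Pool.Agent.R366.UC.up K a) Q.rep / d := rfl
  have h13 : (∑ v ∈ S', Pool.Agent.Results.MP_44a246_nt.BoundedDegreeHyperplanes.logNorm v) =
      ∑ v ∈ S', Real.log (Pool.Agent.H57R3.VJ.NN v) := rfl
  rw [h12, h13, ← add_div, div_add' _ _ _ hd.ne', div_le_iff₀ hd]
  linarith

/-- all points above a point `x` which satisfies the truncated inequality -/
lemma above (k : IntermediateField ℚ ℂ) [NumberField k] {m q : ℕ} (hq : m + 1 ≤ q)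
    (a : Fin q → Fin (m + 1) → k)
    (ha : ∀ I : Finset (Fin q), I.card = m + 1 → LinearIndependent k (fun i : I => a i))
    (θ : ℝ) (hθ : 0 ≤ θ) :
    ∃ A : ℝ, ∀ (K : IntermediateField ℚ ℂ) (_ : NumberField K) (hk : k ≤ K)
      (Q : ℙ K (Fin (m + 1) → K)) (C : ℝ), (∀ i, value (liftTo hk a i) Q ≠ 0) →
      (∀ S : Finset (FinitePlace K), θ * height Q - C ≤
        Pool.Agent.Results.MP_44a246_nt.BoundedDegreeHyperplanes.truncated S (liftTo hk a) Q +
        (∑ v ∈ S, Pool.Agent.Results.MP_44a246_nt.BoundedDegreeHyperplanes.logNorm v) /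
          Module.finrank ℚ K) →
      ∀ (e : ℕ) (L : Type) (_ : Field L) (_ : NumberField L) (_ : Algebra K L) (y : Fin q → L)
        (t : L) (S : Finset ℕ), 1 ≤ e → t ≠ 0 →
        (∀ i, y i ^ e = t * algebraMap K L (value (liftTo hk a i) Q)) → (∀ p ∈ S, p.Prime) →
        (θ * e - q) * heightOf y + proximity S y ≤
          logDisc L - logDisc K + ∑ p ∈ S, Real.log p + (C + A) := by
  obtain ⟨A, hA, h⟩ := Pool.Agent.N752.FD.ineq_unif hq ha
  refine ⟨θ * A + A, fun K hK hk Q C hv hmain e L i1 i2 i3 y t S he ht hy hS => ?_⟩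
  let _ : Algebra k K := (IntermediateField.inclusion hk).toRingHom.toAlgebra
  have hd : (0 : ℝ) < Module.finrank ℚ K := by exact_mod_cast Module.finrank_pos
  set d : ℝ := (Module.finrank ℚ K : ℝ) with hdd
  obtain ⟨S', h1, h2⟩ := h K Q.rep Q.rep_nonzero hv e (by omega) L y t ht hy
    (Pool.Agent.TH905.VF.above_finite K S hS).toFinset
  have hmain' := hmain S'
  have hL : (0 : ℝ) < Module.finrank K L := Pool.Agent.TH905.VF.finrank_pos'
  have htow : (Module.finrank ℚ L : ℝ) = d * Module.finrank K L := by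
    rw [hdd]
    exact_mod_cast (Module.finrank_mul_finrank ℚ K L).symm
  have h3 := Pool.Agent.TH905.VF.sum_above K S hS
    (Pool.Agent.TH905.VF.above_finite K S hS).toFinset
    fun v hv => (Set.Finite.mem_toFinset (Pool.Agent.TH905.VF.above_finite K S hS)).1 hv
  have h5 : Pool.Agent.TH905.VF.prox
      (Pool.Agent.TH905.VF.above_finite K S hS).toFinset y = d * proximity S y := by
    unfold Pool.Agent.TH905.VF.prox proximity
    rw [Pool.Agent.TH905.VF.above_eq S hS, htow]
    have e1 : ∀ w : HeightOneSpectrum (𝓞 L),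
        Pool.Agent.TH905.VF.loc (Pool.Agent.H691R3.fv w) y = weil (FinitePlace.mk w).1 y :=
      fun w => rfl
    have e2 : ∀ w : InfinitePlace L, Pool.Agent.TH905.VF.loc w.1 y = weil w.1 y := fun w => rfl
    simp only [e1, e2]
    rw [mul_div_assoc', mul_div_mul_left _ _ hd.ne']
  have h6 : Pool.Agent.TH905.VF.ld K L = d * logDisc L - Real.log |(discr K : ℝ)| := by
    unfold Pool.Agent.TH905.VF.ld logDisc
    rw [htow]
    field_simp
  have h7 : Pool.Agent.TH905.VF.ht K y = d * heightOf y := by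
    unfold Pool.Agent.TH905.VF.ht heightOf
    rw [htow]
    field_simp
  have h8 : Real.log |(discr K : ℝ)| = d * logDisc K := by
    unfold logDisc
    rw [mul_div_cancel₀ _ hd.ne']
  have h9 : Height.logHeight Q.rep = d * height Q := by
    unfold height
    rw [mul_div_cancel₀ _ hd.ne', Pool.Agent.TH905.VF.rep_height,
      Height.logHeight_eq_log_mulHeight]
  rw [← hdd] at h1 h2 h3
  rw [h5, h6, h7, h8] at h1
  rw [h7, h9] at h2
  have h11 := mul_le_mul_of_nonneg_left h2 hθ
  have h12 : Pool.Agent.Results.MP_44a246_nt.BoundedDegreeHyperplanes.truncated S' (liftTo hk a) Q =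
      Pool.Agent.H57R3.VJ.N1 S' (Pool.Agent.R366.UC.up K a) Q.rep / d := rfl
  have h13 : (∑ v ∈ S', Pool.Agent.Results.MP_44a246_nt.BoundedDegreeHyperplanes.logNorm v) =
      ∑ v ∈ S', Real.log (Pool.Agent.H57R3.VJ.NN v) := rfl
  rw [h12, h13, ← add_div, le_div_iff₀ hd] at hmain'
  refine le_of_mul_le_mul_left ?_ hd
  linarith

/-- **Vojta's inequality for the points of Fermat intersections above points of degree `r`.** Let
`η > 0`. There is `c₀ ≥ 1` with the following properties.

I. Let `k ⊆ ℂ` be a number field, `m ≥ 1`, `r ≥ 2`, `n = r [k : ℚ]` and `α = alpha n c₀ η`, and suppose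
that `2 α < m` and `r ≤ m + 1`; this is the case if `m ≥ n + 1`. There is ONE set `E₀` of points of
`ℙ^m`, of density zero among the points whose field of definition has degree `r` over `k` and whose
coordinates span a space of dimension `r` over `k`, such that for ALL `q ≥ m + 1`, ALL families of `q`
linear forms `a_i` over `k`, any `m + 1` of them linearly independent, and ALL `0 ≤ θ < q` there is a
constant `C` with the following property: for ALL these points `x` outside of `E₀` and off the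
hyperplanes, ALL `e ≥ 1`, ALL points `P` of `X_e` above `x`, over any number field `L ⊇ k(x)`, and ALL
finite sets `S` of primes
`(θ e - q) h(P) + ∑_{v ∈ S ∪ {∞}} λ_D(P, v) ≤ d(L) - d(k(x)) + ∑_{p ∈ S} log p + C`.

II. For all number fields `k ⊆ ℂ`, all `m ≥ 1`, all `q ≥ m + 1` linear forms `a_i` in `m + 1` variables
over `k`, any `m + 1` of them linearly independent, and all `r ≥ 2`, let `n = r [k : ℚ]` and
`α = alpha n c₀ η`. Let `0 ≤ θ < q`, let `c` be real and `δ > 0`. Then all but `C B ^ (n E + δ)`,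
`E = exponent m q r α θ`, of the points `x` of `ℙ^m`, off the hyperplanes `a_i = 0`, whose field of
definition has degree `r` over `k` and whose height is at most `log B` have the following property:
for ALL `e ≥ 1`, ALL points `P` of `X_e` above `x`, over any number field `L ⊇ k(x)`, and ALL finite sets
`S` of primes `(θ e - q) h(P) + ∑_{v ∈ S ∪ {∞}} λ_D(P, v) ≤ d(L) + ∑_{p ∈ S} log p + c`. And for every
`δ > 0` there are `c₁ > 0` and `B₀` such that for `B ≥ B₀` there are at least `c₁ B ^ (n (m + 1) - δ)` such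
points `x` of height at most `log B`. Finally `E < m + 1` if `θ ≤ 2 r - 2` and `α θ < m + 1`, and if
`2 r - 2 ≤ θ` and `α (2 r - 2) q (q - 1) < m (m + 1) (q - θ + 2 r - 2)`; always `E ≤ α θ`, and
`2 α < m` if `m ≥ n + 1`. -/
theorem result : ∀ η : ℝ, 0 < η → ∃ c₀ : ℝ, 1 ≤ c₀ ∧
    (∀ (k : IntermediateField ℚ ℂ) [NumberField k] (m r n : ℕ), 1 ≤ m → 2 ≤ r →
      n = r * Module.finrank ℚ k → 2 * alpha n c₀ η < m → r ≤ m + 1 →
      ∃ E₀ : Set (ℙ ℂ (Fin (m + 1) → ℂ)), DensityZero (Full k m r) E₀ ∧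
        ∀ (q : ℕ), m + 1 ≤ q → ∀ a : Fin q → Fin (m + 1) → k,
        (∀ I : Finset (Fin q), I.card = m + 1 → LinearIndependent k (fun i : I => a i)) →
        ∀ θ : ℝ, 0 ≤ θ → θ < q → ∃ C : ℝ, ∀ (K : IntermediateField ℚ ℂ) (_ : NumberField K)
          (h : k ≤ K) (Q : ℙ K (Fin (m + 1) → K)), fieldOf k (toC Q) = K →
          Module.finrank ℚ K = r * Module.finrank ℚ k → spanDim k (toC Q) = r → toC Q ∉ E₀ →
          (∀ i, value (liftTo h a i) Q ≠ 0) →
          ∀ (e : ℕ) (L : Type) (_ : Field L) (_ : NumberField L) (_ : Algebra K L) (y : Fin q → L)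
            (t : L) (S : Finset ℕ), 1 ≤ e → t ≠ 0 →
            (∀ i, y i ^ e = t * algebraMap K L (value (liftTo h a i) Q)) → (∀ p ∈ S, p.Prime) →
            (θ * e - q) * heightOf y + proximity S y ≤
              logDisc L - logDisc K + ∑ p ∈ S, Real.log p + C) ∧
    ∀ (k : IntermediateField ℚ ℂ) [NumberField k] (m q r n : ℕ), 1 ≤ m → m + 1 ≤ q → 2 ≤ r →
      n = r * Module.finrank ℚ k → ∀ a : Fin q → Fin (m + 1) → k,
      (∀ I : Finset (Fin q), I.card = m + 1 → LinearIndependent k (fun i : I => a i)) →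
      (∀ θ c δ : ℝ, 0 ≤ θ → θ < q → 0 < δ → ∃ C : ℝ, ∀ B : ℝ, 1 ≤ B →
        (exceptional k a r θ c B).Finite ∧ ((exceptional k a r θ c B).ncard : ℝ) ≤
          C * B ^ ((n : ℝ) * exponent m q r (alpha n c₀ η) θ + δ)) ∧
      (∀ δ : ℝ, 0 < δ → ∃ c₁ B₀ : ℝ, 0 < c₁ ∧ ∀ B : ℝ, B₀ ≤ B →
        ∃ F : Finset (ℙ ℂ (Fin (m + 1) → ℂ)), (F : Set (ℙ ℂ (Fin (m + 1) → ℂ))) ⊆ Points k a r B ∧
          c₁ * B ^ ((n : ℝ) * (m + 1) - δ) ≤ (F.card : ℝ)) ∧
      (∀ θ : ℝ, θ ≤ 2 * r - 2 → alpha n c₀ η * θ < m + 1 →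
        exponent m q r (alpha n c₀ η) θ < m + 1) ∧
      (∀ θ : ℝ, 2 * r - 2 ≤ θ →
        alpha n c₀ η * (2 * r - 2) * (q * (q - 1)) < m * (m + 1) * (q - θ + (2 * r - 2)) →
        exponent m q r (alpha n c₀ η) θ < m + 1) ∧
      (∀ θ : ℝ, θ < q → exponent m q r (alpha n c₀ η) θ ≤ alpha n c₀ η * θ) ∧
      (n + 1 ≤ m → 2 * alpha n c₀ η < m) := by
  intro η hη
  obtain ⟨c₀, hc₀, hα⟩ := Pool.Agent.W223.VD.Points.alpha_admissible hη
  refine ⟨c₀, hc₀, ?_, ?_⟩
  · intro k _ m r n hm hr hn hmα hrm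
    have hk : 0 < Module.finrank ℚ k := Module.finrank_pos
    have hn2 : 2 ≤ n := by
      rw [hn]
      nlinarith
    obtain ⟨h1, h2⟩ := hα n hn2
    obtain ⟨E₀, hE₀, hall⟩ :=
      Pool.Agent.N752.SU.universal k hm r n hn hn2 (by omega) hrm h1 h2 hmα
    refine ⟨E₀, hE₀, fun q hq a ha θ hθ hθq => ?_⟩
    obtain ⟨C, hC⟩ := hall q hq a ha θ hθq
    obtain ⟨A, hA⟩ := above k hq a ha θ hθ
    refine ⟨C + A, fun K hK h Q hf hdeg hsp hQE hv => ?_⟩
    exact hA K hK h Q C hv (hC K hK h Q hf hdeg hsp hQE hv)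
  intro k _ m q r n hm hq hr hn a ha
  have hk : 0 < Module.finrank ℚ k := Module.finrank_pos
  have hn2 : 2 ≤ n := by
    rw [hn]
    nlinarith
  obtain ⟨h1, h2⟩ := hα n hn2
  have hr1 : (2 : ℝ) ≤ r := by exact_mod_cast hr
  have hm1 : (1 : ℝ) ≤ m := by exact_mod_cast hm
  have hq1 : (m : ℝ) + 1 ≤ q := by exact_mod_cast hq
  refine ⟨fun θ c δ hθ hθq hδ => ?_, fun δ hδ => ?_, fun θ h3 h4 => ?_, fun θ h3 h4 => ?_,
    fun θ _ => ?_, fun hmn => Pool.Agent.N752.SU.alpha_lt hn2 hmn _ _⟩
  · obtain ⟨c', hc'⟩ := exceptional_sub k hq a ha θ c hθ r n hr hn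
    have hT : 0 ≤ min θ (2 * (r : ℝ) - 2) := le_min hθ (by linarith)
    obtain ⟨C, hC⟩ := Pool.Agent.N752.FD.upperE k hm hq a ha n (by omega) h1 h2 θ
      (min θ (2 * (r : ℝ) - 2)) c' δ hT (min_le_left _ _) hθq hδ
    refine ⟨C, fun B hB => ?_⟩
    obtain ⟨h3, h4⟩ := hC B hB
    refine ⟨h3.subset (hc' B hB), le_trans ?_ h4⟩
    exact_mod_cast Set.ncard_le_ncard (hc' B hB) h3
  · exact Pool.Agent.Results.MP_44a246_nt.BoundedDegreeHyperplanes.lower k hm hq a ha r n hn
      (by omega) δ hδ
  · unfold exponent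
    rw [min_eq_left h3]
    refine lt_of_le_of_lt (add_le_add_right (min_le_left _ _) _) ?_
    rw [sub_self, zero_mul, add_zero]
    exact h4
  · unfold exponent
    rw [min_eq_right h3]
    refine lt_of_le_of_lt (add_le_add_right (min_le_right _ _) _) ?_
    have hqq : (0 : ℝ) < (q : ℝ) * ((q : ℝ) - 1) := by nlinarith
    have h5 : alpha n c₀ η * (2 * r - 2) <
        m * (m + 1) * (q - θ + (2 * r - 2)) / (q * (q - 1)) := by
      rw [lt_div_iff₀ hqq]
      exact h4
    have h6 : ((m : ℝ) + 1) * (1 - (m : ℝ) * ((q : ℝ) - (θ - (2 * r - 2))) /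
        ((q : ℝ) * ((q : ℝ) - 1))) = m + 1 -
          m * (m + 1) * (q - θ + (2 * r - 2)) / (q * (q - 1)) := by
      field_simp
      ring
    rw [h6]
    linarith
  · unfold exponent
    have hc : (0 : ℝ) < (q.choose (m + 1) : ℝ) := by exact_mod_cast Nat.choose_pos hq
    have h3 : 0 ≤ ((q - m).choose (m + 1) : ℝ) / (q.choose (m + 1) : ℝ) :=
      div_nonneg (Nat.cast_nonneg _) hc.le
    have h4 : min θ (2 * (r : ℝ) - 2) ≤ θ := min_le_left _ _
    refine (add_le_add_right (min_le_left _ _) _).trans ?_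
    have h5 : 0 ≤ θ - min θ (2 * (r : ℝ) - 2) := by linarith
    have h7 : 1 ≤ alpha n c₀ η := h1
    have h6 : (θ - min θ (2 * (r : ℝ) - 2)) *
        (1 - ((q - m).choose (m + 1) : ℝ) / (q.choose (m + 1) : ℝ)) ≤
        (θ - min θ (2 * (r : ℝ) - 2)) * alpha n c₀ η :=
      mul_le_mul_of_nonneg_left (by linarith) h5
    linarith

end Pool.Agent.Results.MP_651af7_nt.FermatPointsOfDegreeR
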