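import Mathlib
import Pool.Agent.N752.LE.Third

/-!
# The points of the line whose height is a large multiple of the truncated counting function

Let `D = a_1 + … + a_q` be a sum of `q ≥ 3` different rational points of the projective line over
`ℚ`, so that `K + D` has degree `q - 2`, and `S` a finite set of primes. The conjecture says that
`h(P) ≤ (1 / (q - 2) + ε) N_S^{(1)}(D, P) + C`. There are `X ^ (2 / q + o(1))` points `P` with
`N_S^{(1)}(D, P) ≤ log X` (and height at most `k log X`). We prove that at most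
`C X ^ (1 / q + ε)` of them violate `h(P) < M N_S^{(1)}(D, P)`, where `M` depends only on `ε`.

Proof. The three points `a_i, a_j, a_l` of `D` at which the radicals of the linear forms are smallest
have a truncated counting function of at most `(3 / q) (log X + O(1))`; the linear relation between
the three forms gives an abc-triple, and the exponent `1 / 3` of helper745 for abc-triples with a
large exponent is applied.
-/

set_option autoImplicit false

namespace Pool.Agent.Results.MP_9ec3f0_nt.LargeMultiples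

open Finset Pool.Agent.N752.LE

/-- The linear form in `x` which vanishes at the point `a = (a.1 : a.2)` of the projective line. -/
def form (a x : ℤ × ℤ) : ℤ := a.1 * x.2 - a.2 * x.1

/-- The height `log max (|x|, |y|)` of the point `(x : y)` (`x`, `y` coprime integers). -/
noncomputable def height (x : ℤ × ℤ) : ℝ := Real.log (max x.1.natAbs x.2.natAbs : ℕ)

/-- The truncated counting function `N_S^{(1)}(D, x)` of `D = a_1 + … + a_q` at the point `x`: the
sum of `log p` over the primes `p` not in `S` which divide one of the numbers `form (a i) x`. -/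
noncomputable def counting {q : ℕ} (S : Finset ℕ) (a : Fin q → ℤ × ℤ) (x : ℤ × ℤ) : ℝ :=
  ∑ p ∈ (∏ i, form (a i) x).natAbs.primeFactors \ S, Real.log p

/-- The points (with coprime coordinates) outside `D` whose height is at least `M` times the
truncated counting function, with height at most `log H`. -/
def Violating {q : ℕ} (S : Finset ℕ) (a : Fin q → ℤ × ℤ) (M H : ℝ) : Set (ℤ × ℤ) :=
  {x | IsCoprime x.1 x.2 ∧ (∀ i, form (a i) x ≠ 0) ∧ height x ≤ Real.log H ∧
    M * counting S a x ≤ height x}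

/-- The points (with coprime coordinates) outside `D` with truncated counting function at most
`log X` and height at most `k log X`, and whose height is at least `M` times the truncated counting
function. -/
def Exceptions {q : ℕ} (S : Finset ℕ) (a : Fin q → ℤ × ℤ) (M k X : ℝ) : Set (ℤ × ℤ) :=
  {x | IsCoprime x.1 x.2 ∧ (∀ i, form (a i) x ≠ 0) ∧ counting S a x ≤ Real.log X ∧
    height x ≤ k * Real.log X ∧ M * counting S a x ≤ height x}

/-! ### Radicals -/

theorem radical_pos (n : ℕ) : 0 < radical n :=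
  Finset.prod_pos fun _ hp => (Nat.prime_of_mem_primeFactors hp).pos

theorem radical_mono {m n : ℕ} (h : m ∣ n) (hn : n ≠ 0) : radical m ≤ radical n := by
  unfold radical
  refine Finset.prod_le_prod_of_subset_of_one_le' (Nat.primeFactors_mono h hn) ?_
  intro p hp _
  exact (Nat.prime_of_mem_primeFactors hp).one_le

theorem radical_le {n : ℕ} (hn : n ≠ 0) : radical n ≤ n :=
  Nat.le_of_dvd (Nat.pos_of_ne_zero hn) (Nat.prod_primeFactors_dvd n)

theorem radical_mul {m n : ℕ} (hm : m ≠ 0) (hn : n ≠ 0) :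
    radical (m * n) ≤ radical m * radical n := by
  classical
  unfold radical
  rw [Nat.primeFactors_mul hm hn]
  have h1 := Finset.prod_union_inter (s₁ := m.primeFactors) (s₂ := n.primeFactors) (f := fun p : ℕ => p)
  rw [← h1]
  refine Nat.le_mul_of_pos_right _ ?_
  exact Finset.prod_pos fun p hp =>
    (Nat.prime_of_mem_primeFactors (Finset.mem_inter.1 hp).1).pos

theorem log_radical (n : ℕ) : Real.log (radical n) = ∑ p ∈ n.primeFactors, Real.log p := by
  unfold radical
  rw [Nat.cast_prod, Real.log_prod]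
  intro p hp
  have := (Nat.prime_of_mem_primeFactors hp).pos
  positivity

/-! ### The linear forms -/

theorem form_rel (a b c x : ℤ × ℤ) :
    form b c * form a x + form c a * form b x + form a b * form c x = 0 := by
  unfold form; ring

theorem form_one (a b x : ℤ × ℤ) : form a b * x.1 = b.1 * form a x - a.1 * form b x := by
  unfold form; ring

theorem form_two (a b x : ℤ × ℤ) : form a b * x.2 = b.2 * form a x - a.2 * form b x := by
  unfold form; ring

theorem dvd_form {a b x : ℤ × ℤ} (hx : IsCoprime x.1 x.2) {d : ℤ} (h1 : d ∣ form a x)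
    (h2 : d ∣ form b x) : d ∣ form a b := by
  obtain ⟨u, v, huv⟩ := hx
  have e1 : d ∣ form a b * x.1 := by
    rw [form_one]
    exact dvd_sub (Dvd.dvd.mul_left h1 _) (Dvd.dvd.mul_left h2 _)
  have e2 : d ∣ form a b * x.2 := by
    rw [form_two]
    exact dvd_sub (Dvd.dvd.mul_left h1 _) (Dvd.dvd.mul_left h2 _)
  have e3 : form a b = u * (form a b * x.1) + v * (form a b * x.2) := by
    linear_combination (-form a b) * huv
  rw [e3]
  exact dvd_add (Dvd.dvd.mul_left e1 _) (Dvd.dvd.mul_left e2 _)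

/-- a bound for the coordinates of all the points -/
def size {q : ℕ} (a : Fin q → ℤ × ℤ) : ℕ := 1 + ∑ i, ((a i).1.natAbs + (a i).2.natAbs)

theorem le_size {q : ℕ} (a : Fin q → ℤ × ℤ) (i : Fin q) :
    (a i).1.natAbs + (a i).2.natAbs ≤ size a := by
  unfold size
  have := Finset.single_le_sum (f := fun i => (a i).1.natAbs + (a i).2.natAbs)
    (fun _ _ => Nat.zero_le _) (Finset.mem_univ i)
  omega

theorem form_le {q : ℕ} (a : Fin q → ℤ × ℤ) (i : Fin q) (x : ℤ × ℤ) :
    (form (a i) x).natAbs ≤ size a * max x.1.natAbs x.2.natAbs := by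
  have h1 := le_size a i
  have h2 : (form (a i) x).natAbs ≤ ((a i).1 * x.2).natAbs + ((a i).2 * x.1).natAbs := by
    unfold form
    exact Int.natAbs_sub_le _ _
  rw [Int.natAbs_mul, Int.natAbs_mul] at h2
  calc (form (a i) x).natAbs ≤ _ := h2
    _ ≤ (a i).1.natAbs * max x.1.natAbs x.2.natAbs + (a i).2.natAbs * max x.1.natAbs x.2.natAbs :=
        Nat.add_le_add (Nat.mul_le_mul_left _ (le_max_right _ _))
          (Nat.mul_le_mul_left _ (le_max_left _ _))
    _ = ((a i).1.natAbs + (a i).2.natAbs) * max x.1.natAbs x.2.natAbs := by ring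
    _ ≤ _ := Nat.mul_le_mul_right _ h1

theorem form_pair_le {q : ℕ} (a : Fin q → ℤ × ℤ) (i j : Fin q) :
    (form (a i) (a j)).natAbs ≤ size a ^ 2 := by
  refine (form_le a i (a j)).trans ?_
  rw [pow_two]
  refine Nat.mul_le_mul_left _ ?_
  have := le_size a j
  omega

theorem one_le_size {q : ℕ} (a : Fin q → ℤ × ℤ) : 1 ≤ size a := by
  unfold size; omega

/-! ### The sum of the radicals -/

/-- the product of the determinants -/
def disc {q : ℕ} (a : Fin q → ℤ × ℤ) : ℕ :=
  ∏ i, ∏ j, if i = j then 1 else (form (a i) (a j)).natAbs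

theorem disc_ne {q : ℕ} {a : Fin q → ℤ × ℤ} (ha : ∀ i j, i ≠ j → form (a i) (a j) ≠ 0) :
    disc a ≠ 0 := by
  unfold disc
  refine Finset.prod_ne_zero_iff.2 fun i _ => Finset.prod_ne_zero_iff.2 fun j _ => ?_
  split_ifs with h
  · exact one_ne_zero
  · exact Int.natAbs_ne_zero.2 (ha i j h)

theorem dvd_disc {q : ℕ} (a : Fin q → ℤ × ℤ) {i j : Fin q} (h : i ≠ j) :
    (form (a i) (a j)).natAbs ∣ disc a := by
  unfold disc
  refine dvd_trans ?_ (Finset.dvd_prod_of_mem _ (Finset.mem_univ i))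
  refine dvd_trans ?_ (Finset.dvd_prod_of_mem _ (Finset.mem_univ j))
  rw [if_neg h]

/-- the bound for the contribution of the bad primes -/
noncomputable def badSum {q : ℕ} (S : Finset ℕ) (a : Fin q → ℤ × ℤ) : ℝ :=
  ∑ p ∈ S ∪ (disc a).primeFactors, (q : ℝ) * Real.log p

theorem badSum_nonneg {q : ℕ} (S : Finset ℕ) (a : Fin q → ℤ × ℤ) : 0 ≤ badSum S a := by
  unfold badSum
  exact Finset.sum_nonneg fun p _ => mul_nonneg (Nat.cast_nonneg _) (Real.log_natCast_nonneg p)

theorem counting_nonneg {q : ℕ} (S : Finset ℕ) (a : Fin q → ℤ × ℤ) (x : ℤ × ℤ) :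
    0 ≤ counting S a x :=
  Finset.sum_nonneg fun p _ => Real.log_natCast_nonneg p

theorem sum_log_radical {q : ℕ} (S : Finset ℕ) (a : Fin q → ℤ × ℤ)
    (ha : ∀ i j, i ≠ j → form (a i) (a j) ≠ 0) {x : ℤ × ℤ} (hx : IsCoprime x.1 x.2)
    (hne : ∀ i, form (a i) x ≠ 0) :
    ∑ i, Real.log (radical (form (a i) x).natAbs) ≤ counting S a x + badSum S a := by
  classical
  set W : Finset ℕ := (∏ i, form (a i) x).natAbs.primeFactors with hW
  have hprod : (∏ i, form (a i) x).natAbs ≠ 0 :=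
    Int.natAbs_ne_zero.2 (Finset.prod_ne_zero_iff.2 fun i _ => hne i)
  have h1 : ∀ i, Real.log (radical (form (a i) x).natAbs) =
      ∑ p ∈ W, if p ∣ (form (a i) x).natAbs then Real.log p else 0 := by
    intro i
    rw [log_radical, ← Finset.sum_filter]
    congr 1
    ext p
    simp only [hW, Finset.mem_filter, Nat.mem_primeFactors]
    constructor
    · rintro ⟨h1, h2, h3⟩
      refine ⟨⟨h1, h2.trans ?_, hprod⟩, h2⟩
      exact Int.natAbs_dvd_natAbs.2 (Finset.dvd_prod_of_mem _ (Finset.mem_univ i))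
    · rintro ⟨⟨h1, -, -⟩, h2⟩
      exact ⟨h1, h2, Int.natAbs_ne_zero.2 (hne i)⟩
  rw [Finset.sum_congr rfl fun i _ => h1 i, Finset.sum_comm]
  have h2 : ∀ p ∈ W, (∑ i, if p ∣ (form (a i) x).natAbs then Real.log p else 0) ≤
      (if p ∉ S then Real.log p else 0) +
        (if p ∈ S ∪ (disc a).primeFactors then (q : ℝ) * Real.log p else 0) := by
    intro p hp
    have hpp : p.Prime := Nat.prime_of_mem_primeFactors hp
    have hlog : 0 ≤ Real.log p := Real.log_natCast_nonneg p
    by_cases hb : p ∈ S ∪ (disc a).primeFactors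
    · rw [if_pos hb]
      have e1 : (∑ i, if p ∣ (form (a i) x).natAbs then Real.log p else 0) ≤
          ∑ _i : Fin q, Real.log p := by
        refine Finset.sum_le_sum fun i _ => ?_
        split_ifs
        · exact le_refl _
        · exact hlog
      rw [Finset.sum_const, Finset.card_univ, Fintype.card_fin, nsmul_eq_mul] at e1
      have e2 : 0 ≤ (if p ∉ S then Real.log p else 0) := by
        by_cases hpS : p ∉ S
        · rw [if_pos hpS]; exact hlog
        · rw [if_neg hpS]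
      linarith
    · rw [if_neg hb, add_zero]
      rw [Finset.mem_union, not_or] at hb
      rw [if_pos hb.1]
      rw [← Finset.sum_filter, Finset.sum_const, nsmul_eq_mul]
      have e1 : (Finset.univ.filter fun i => p ∣ (form (a i) x).natAbs).card ≤ 1 := by
        rw [Finset.card_le_one]
        intro i hi j hj
        by_contra hij
        simp only [Finset.mem_filter, Finset.mem_univ, true_and] at hi hj
        apply hb.2
        rw [Nat.mem_primeFactors]
        refine ⟨hpp, ?_, disc_ne ha⟩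
        refine dvd_trans ?_ (dvd_disc a hij)
        have e2 := dvd_form (d := (p : ℤ)) hx (Int.natCast_dvd.2 hi) (Int.natCast_dvd.2 hj)
        exact Int.natCast_dvd.1 e2
      have e2 : ((Finset.univ.filter fun i => p ∣ (form (a i) x).natAbs).card : ℝ) ≤ 1 := by
        exact_mod_cast e1
      nlinarith
  refine (Finset.sum_le_sum h2).trans ?_
  rw [Finset.sum_add_distrib]
  refine add_le_add ?_ ?_
  · rw [← Finset.sum_filter, Finset.filter_notMem_eq_sdiff]
    exact le_refl _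
  · rw [← Finset.sum_filter]
    unfold badSum
    refine Finset.sum_le_sum_of_subset_of_nonneg ?_ ?_
    · intro p hp
      exact (Finset.mem_filter.1 hp).2
    · intro p _ _
      exact mul_nonneg (Nat.cast_nonneg _) (Real.log_natCast_nonneg p)

/-- three different indices with a small sum -/
theorem three_indices {q : ℕ} (hq : 3 ≤ q) (R : Fin q → ℝ) :
    ∃ i j l : Fin q, i ≠ j ∧ j ≠ l ∧ l ≠ i ∧ R i + R j + R l ≤ 3 / q * ∑ t, R t := by
  have : NeZero q := ⟨by omega⟩
  have hq0 : (0 : ℝ) < q := by exact_mod_cast (show 0 < q by omega)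
  have hne : (Finset.univ : Finset (Fin q)).Nonempty := ⟨0, Finset.mem_univ _⟩
  have hsum : ∑ i : Fin q, (R i + R (i + 1) + R (i + 1 + 1)) ≤
      ∑ _i : Fin q, (3 / q * ∑ t, R t) := by
    rw [Finset.sum_add_distrib, Finset.sum_add_distrib, Finset.sum_const, Finset.card_univ,
      Fintype.card_fin, nsmul_eq_mul]
    have e1 : ∑ i : Fin q, R (i + 1) = ∑ i, R i := Equiv.sum_comp (Equiv.addRight (1 : Fin q)) R
    have e2 : ∑ i : Fin q, R (i + 1 + 1) = ∑ i, R i := by
      rw [← e1]; exact Equiv.sum_comp (Equiv.addRight (1 : Fin q)) (fun i => R (i + 1))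
    rw [e1, e2]
    have e3 : (q : ℝ) * (3 / q * ∑ t, R t) = 3 * ∑ t, R t := by
      field_simp
    rw [e3]
    linarith
  obtain ⟨i, -, hi⟩ := Finset.exists_le_of_sum_le hne hsum
  have h1 : (1 : Fin q) ≠ 0 := by
    intro h
    have := congrArg Fin.val h
    simp only [Fin.val_zero] at this
    rw [Fin.val_one'] at this
    rw [Nat.mod_eq_of_lt (by omega)] at this
    omega
  have h2 : (1 : Fin q) + 1 ≠ 0 := by
    intro h
    have := congrArg Fin.val h
    simp only [Fin.val_zero] at this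
    rw [Fin.val_add, Fin.val_one', Nat.mod_eq_of_lt (show 1 < q by omega)] at this
    rw [Nat.mod_eq_of_lt (by omega)] at this
    omega
  refine ⟨i, i + 1, i + 1 + 1, ?_, ?_, ?_, hi⟩
  · intro h
    apply h1
    have : i + 0 = i + 1 := by rw [add_zero]; exact h
    exact (add_left_cancel this).symm
  · intro h
    apply h1
    have : i + 1 + 0 = i + 1 + 1 := by rw [add_zero]; exact h
    exact (add_left_cancel this).symm
  · intro h
    apply h2
    have : i + ((1 : Fin q) + 1) = i + 0 := by rw [add_zero, ← add_assoc]; exact h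
    exact add_left_cancel this

/-! ### The abc-triple -/

/-- the three numbers, the sum of the first two being the third, and the order -/
def code (u v w : ℕ) : (ℕ × ℕ × ℕ) × Fin 3 :=
  if w = u + v then ((u, v, w), 0) else if u = v + w then ((v, w, u), 1) else ((u, w, v), 2)

theorem code_inj {u v w u' v' w' : ℕ} (h : code u v w = code u' v' w') :
    u = u' ∧ v = v' ∧ w = w' := by
  unfold code at h
  split_ifs at h <;> simp_all

theorem code_spec {A B C : ℤ} (hA : A ≠ 0) (hB : B ≠ 0) (hC : C ≠ 0) (h : A + B + C = 0)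
    {g : ℕ} (hg : g = Nat.gcd A.natAbs B.natAbs) {t : ℕ × ℕ × ℕ}
    (ht : t = (code (A.natAbs / g) (B.natAbs / g) (C.natAbs / g)).1) :
    0 < g ∧ g ∣ A.natAbs ∧ g ∣ B.natAbs ∧ IsTriple t ∧ A.natAbs / g ≤ t.2.2 ∧
      B.natAbs / g ≤ t.2.2 ∧ t.2.2 ≤ max (max A.natAbs B.natAbs) C.natAbs ∧
      t.1 * t.2.1 * t.2.2 ∣ A.natAbs * B.natAbs * C.natAbs := by
  have hA' : 0 < A.natAbs := Int.natAbs_pos.2 hA
  have hB' : 0 < B.natAbs := Int.natAbs_pos.2 hB
  have hC' : 0 < C.natAbs := Int.natAbs_pos.2 hC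
  have hg0 : 0 < g := by rw [hg]; exact Nat.gcd_pos_of_pos_left _ hA'
  have hgA : g ∣ A.natAbs := by rw [hg]; exact Nat.gcd_dvd_left _ _
  have hgB : g ∣ B.natAbs := by rw [hg]; exact Nat.gcd_dvd_right _ _
  have hgC : g ∣ C.natAbs := by
    have e1 : (g : ℤ) ∣ A := Int.natCast_dvd.2 hgA
    have e2 : (g : ℤ) ∣ B := Int.natCast_dvd.2 hgB
    have e3 : (g : ℤ) ∣ C := by
      have : C = -(A + B) := by linarith
      rw [this]
      exact (dvd_neg).2 (dvd_add e1 e2)
    exact Int.natCast_dvd.1 e3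
  obtain ⟨u, hu⟩ := hgA
  obtain ⟨v, hv⟩ := hgB
  obtain ⟨w, hw⟩ := hgC
  have hcop : Nat.Coprime u v := by
    have := Nat.coprime_div_gcd_div_gcd (m := A.natAbs) (n := B.natAbs) (by rw [← hg]; exact hg0)
    rw [← hg, hu, hv, Nat.mul_div_cancel_left _ hg0, Nat.mul_div_cancel_left _ hg0] at this
    exact this
  have hu0 : 0 < u := Nat.pos_of_mul_pos_left (by rw [← hu]; exact hA')
  have hv0 : 0 < v := Nat.pos_of_mul_pos_left (by rw [← hv]; exact hB')
  have hw0 : 0 < w := Nat.pos_of_mul_pos_left (by rw [← hw]; exact hC')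
  have ht' : t = (code u v w).1 := by
    rw [ht, hu, hv, hw, Nat.mul_div_cancel_left _ hg0, Nat.mul_div_cancel_left _ hg0,
      Nat.mul_div_cancel_left _ hg0]
  have hcase : C.natAbs = A.natAbs + B.natAbs ∨ A.natAbs = B.natAbs + C.natAbs ∨
      B.natAbs = A.natAbs + C.natAbs := by omega
  have hu1 : u ≤ A.natAbs := by rw [hu]; exact Nat.le_mul_of_pos_left _ hg0
  have hv1 : v ≤ B.natAbs := by rw [hv]; exact Nat.le_mul_of_pos_left _ hg0
  have hw1 : w ≤ C.natAbs := by rw [hw]; exact Nat.le_mul_of_pos_left _ hg0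
  have hdvd : u * v * w ∣ A.natAbs * B.natAbs * C.natAbs := by
    rw [hu, hv, hw]
    exact mul_dvd_mul (mul_dvd_mul (Dvd.intro_left _ rfl) (Dvd.intro_left _ rfl))
      (Dvd.intro_left _ rfl)
  refine ⟨hg0, ⟨u, hu⟩, ⟨v, hv⟩, ?_⟩
  rw [hu, hv, hw] at hcase
  have hdu : g * u / g = u := Nat.mul_div_cancel_left _ hg0
  have hdv : g * v / g = v := Nat.mul_div_cancel_left _ hg0
  rw [show A.natAbs / g = u by rw [hu, hdu], show B.natAbs / g = v by rw [hv, hdv], ht']
  have hcase' : w = u + v ∨ u = v + w ∨ v = u + w := by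
    rcases hcase with h1 | h1 | h1
    · left
      rw [← mul_add] at h1
      exact Nat.eq_of_mul_eq_mul_left hg0 h1
    · right; left
      rw [← mul_add] at h1
      exact Nat.eq_of_mul_eq_mul_left hg0 h1
    · right; right
      rw [← mul_add] at h1
      exact Nat.eq_of_mul_eq_mul_left hg0 h1
  rcases hcase' with h1 | h1 | h1
  · have hc : (code u v w).1 = (u, v, w) := by unfold code; rw [if_pos h1]
    rw [hc]
    refine ⟨⟨hu0, hv0, hcop, h1.symm⟩, by simp only; omega, by simp only; omega, ?_, hdvd⟩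
    simp only
    exact hw1.trans (le_max_right _ _)
  · have hn : ¬ w = u + v := by omega
    have hc : (code u v w).1 = (v, w, u) := by unfold code; rw [if_neg hn, if_pos h1]
    rw [hc]
    refine ⟨⟨hv0, hw0, ?_, h1.symm⟩, by simp only; omega, by simp only; omega, ?_, ?_⟩
    · show Nat.Coprime v w
      rw [h1] at hcop
      have : Nat.Coprime (w + v) v := by rw [add_comm]; exact hcop
      exact (Nat.coprime_add_self_left.1 this).symm
    · simp only
      exact hu1.trans ((le_max_left _ _).trans (le_max_left _ _))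
    · simp only
      rw [show v * w * u = u * v * w by ring]
      exact hdvd
  · have hn : ¬ w = u + v := by omega
    have hn2 : ¬ u = v + w := by omega
    have hc : (code u v w).1 = (u, w, v) := by unfold code; rw [if_neg hn, if_neg hn2]
    rw [hc]
    refine ⟨⟨hu0, hw0, ?_, h1.symm⟩, by simp only; omega, by simp only; omega, ?_, ?_⟩
    · show Nat.Coprime u w
      rw [h1] at hcop
      have : Nat.Coprime (w + u) u := by rw [add_comm]; exact hcop.symm
      exact (Nat.coprime_add_self_left.1 this).symm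
    · simp only
      exact hv1.trans ((le_max_right _ _).trans (le_max_left _ _))
    · simp only
      rw [show u * w * v = u * v * w by ring]
      exact hdvd

/-- the numbers in the relation between three forms -/
def cA {q : ℕ} (a : Fin q → ℤ × ℤ) (s : Fin q × Fin q × Fin q) (x : ℤ × ℤ) : ℤ :=
  form (a s.2.1) (a s.2.2) * form (a s.1) x

/-- the numbers in the relation between three forms -/
def cB {q : ℕ} (a : Fin q → ℤ × ℤ) (s : Fin q × Fin q × Fin q) (x : ℤ × ℤ) : ℤ :=
  form (a s.2.2) (a s.1) * form (a s.2.1) x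

/-- the numbers in the relation between three forms -/
def cC {q : ℕ} (a : Fin q → ℤ × ℤ) (s : Fin q × Fin q × Fin q) (x : ℤ × ℤ) : ℤ :=
  form (a s.1) (a s.2.1) * form (a s.2.2) x

/-- the greatest common divisor -/
def cg {q : ℕ} (a : Fin q → ℤ × ℤ) (s : Fin q × Fin q × Fin q) (x : ℤ × ℤ) : ℕ :=
  Nat.gcd (cA a s x).natAbs (cB a s x).natAbs

/-- the triple and the order -/
def ct {q : ℕ} (a : Fin q → ℤ × ℤ) (s : Fin q × Fin q × Fin q) (x : ℤ × ℤ) :
    (ℕ × ℕ × ℕ) × Fin 3 :=
  code ((cA a s x).natAbs / cg a s x) ((cB a s x).natAbs / cg a s x)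
    ((cC a s x).natAbs / cg a s x)

theorem dvd_form' {a b x : ℤ × ℤ} (hx : IsCoprime x.1 x.2) {d e : ℤ} (h1 : d ∣ e * form a x)
    (h2 : d ∣ e * form b x) : d ∣ e * form a b := by
  obtain ⟨u, v, huv⟩ := hx
  have e1 : d ∣ e * (form a b * x.1) := by
    rw [form_one, show e * (b.1 * form a x - a.1 * form b x) =
      b.1 * (e * form a x) - a.1 * (e * form b x) by ring]
    exact dvd_sub (Dvd.dvd.mul_left h1 _) (Dvd.dvd.mul_left h2 _)
  have e2 : d ∣ e * (form a b * x.2) := by
    rw [form_two, show e * (b.2 * form a x - a.2 * form b x) =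
      b.2 * (e * form a x) - a.2 * (e * form b x) by ring]
    exact dvd_sub (Dvd.dvd.mul_left h1 _) (Dvd.dvd.mul_left h2 _)
  have e3 : e * form a b = u * (e * (form a b * x.1)) + v * (e * (form a b * x.2)) := by
    linear_combination (-(e * form a b)) * huv
  rw [e3]
  exact dvd_add (Dvd.dvd.mul_left e1 _) (Dvd.dvd.mul_left e2 _)

theorem bounds {q : ℕ} {a : Fin q → ℤ × ℤ} (ha : ∀ i j, i ≠ j → form (a i) (a j) ≠ 0)
    {s : Fin q × Fin q × Fin q} (h1 : s.1 ≠ s.2.1) (h2 : s.2.1 ≠ s.2.2) (h3 : s.2.2 ≠ s.1)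
    {x : ℤ × ℤ} (hx : IsCoprime x.1 x.2) (hne : ∀ i, form (a i) x ≠ 0) :
    0 < cg a s x ∧ cg a s x ∣ (cA a s x).natAbs ∧ cg a s x ∣ (cB a s x).natAbs ∧
      IsTriple (ct a s x).1 ∧
      (ct a s x).1.2.2 ≤ size a ^ 3 * max x.1.natAbs x.2.natAbs ∧
      max x.1.natAbs x.2.natAbs ≤ 2 * size a ^ 7 * (ct a s x).1.2.2 ∧
      rad3 (ct a s x).1 ≤ size a ^ 6 * (radical (form (a s.1) x).natAbs *
        radical (form (a s.2.1) x).natAbs * radical (form (a s.2.2) x).natAbs) := by
  have hA : cA a s x ≠ 0 := mul_ne_zero (ha _ _ h2) (hne _)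
  have hB : cB a s x ≠ 0 := mul_ne_zero (ha _ _ h3) (hne _)
  have hC : cC a s x ≠ 0 := mul_ne_zero (ha _ _ h1) (hne _)
  have hrel : cA a s x + cB a s x + cC a s x = 0 := form_rel _ _ _ _
  obtain ⟨hg0, hgA, hgB, ht, hu, hv, hmax, hdvd⟩ := code_spec hA hB hC hrel
    (g := cg a s x) rfl (t := (ct a s x).1) rfl
  have hQ := one_le_size a
  set Q := size a with hQd
  set H := max x.1.natAbs x.2.natAbs with hH
  have d1 : (form (a s.2.1) (a s.2.2)).natAbs ≤ Q ^ 2 := form_pair_le a _ _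
  have d2 : (form (a s.2.2) (a s.1)).natAbs ≤ Q ^ 2 := form_pair_le a _ _
  have d3 : (form (a s.1) (a s.2.1)).natAbs ≤ Q ^ 2 := form_pair_le a _ _
  have l1 : ∀ i, (form (a i) x).natAbs ≤ Q * H := fun i => form_le a i x
  refine ⟨hg0, hgA, hgB, ht, ?_, ?_, ?_⟩
  · refine hmax.trans (max_le (max_le ?_ ?_) ?_)
    · unfold cA
      rw [Int.natAbs_mul]
      calc _ ≤ Q ^ 2 * (Q * H) := Nat.mul_le_mul d1 (l1 _)
        _ = Q ^ 3 * H := by ring
    · unfold cB
      rw [Int.natAbs_mul]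
      calc _ ≤ Q ^ 2 * (Q * H) := Nat.mul_le_mul d2 (l1 _)
        _ = Q ^ 3 * H := by ring
    · unfold cC
      rw [Int.natAbs_mul]
      calc _ ≤ Q ^ 2 * (Q * H) := Nat.mul_le_mul d3 (l1 _)
        _ = Q ^ 3 * H := by ring
  · -- the greatest common divisor is bounded
    have hgle : cg a s x ≤ Q ^ 6 := by
      have e1 : (cg a s x : ℤ) ∣ (form (a s.2.1) (a s.2.2) * form (a s.2.2) (a s.1)) *
          form (a s.1) x := by
        have : (cg a s x : ℤ) ∣ cA a s x := Int.natCast_dvd.2 hgA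
        rw [show (form (a s.2.1) (a s.2.2) * form (a s.2.2) (a s.1)) * form (a s.1) x =
          form (a s.2.2) (a s.1) * cA a s x by unfold cA; ring]
        exact Dvd.dvd.mul_left this _
      have e2 : (cg a s x : ℤ) ∣ (form (a s.2.1) (a s.2.2) * form (a s.2.2) (a s.1)) *
          form (a s.2.1) x := by
        have : (cg a s x : ℤ) ∣ cB a s x := Int.natCast_dvd.2 hgB
        rw [show (form (a s.2.1) (a s.2.2) * form (a s.2.2) (a s.1)) * form (a s.2.1) x =
          form (a s.2.1) (a s.2.2) * cB a s x by unfold cB; ring]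
        exact Dvd.dvd.mul_left this _
      have e3 := dvd_form' hx e1 e2
      have e4 := Int.natCast_dvd.1 e3
      have e5 : 0 < (form (a s.2.1) (a s.2.2) * form (a s.2.2) (a s.1) *
          form (a s.1) (a s.2.1)).natAbs :=
        Int.natAbs_pos.2 (mul_ne_zero (mul_ne_zero (ha _ _ h2) (ha _ _ h3)) (ha _ _ h1))
      refine (Nat.le_of_dvd e5 e4).trans ?_
      rw [Int.natAbs_mul, Int.natAbs_mul]
      calc _ ≤ Q ^ 2 * Q ^ 2 * Q ^ 2 := Nat.mul_le_mul (Nat.mul_le_mul d1 d2) d3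
        _ = Q ^ 6 := by ring
    have hAle : (form (a s.1) x).natAbs ≤ cg a s x * (ct a s x).1.2.2 := by
      have e1 : (form (a s.1) x).natAbs ≤ (cA a s x).natAbs := by
        unfold cA
        rw [Int.natAbs_mul]
        exact Nat.le_mul_of_pos_left _ (Int.natAbs_pos.2 (ha _ _ h2))
      refine e1.trans ?_
      calc (cA a s x).natAbs = cg a s x * ((cA a s x).natAbs / cg a s x) :=
            (Nat.mul_div_cancel' hgA).symm
        _ ≤ _ := Nat.mul_le_mul_left _ hu
    have hBle : (form (a s.2.1) x).natAbs ≤ cg a s x * (ct a s x).1.2.2 := by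
      have e1 : (form (a s.2.1) x).natAbs ≤ (cB a s x).natAbs := by
        unfold cB
        rw [Int.natAbs_mul]
        exact Nat.le_mul_of_pos_left _ (Int.natAbs_pos.2 (ha _ _ h3))
      refine e1.trans ?_
      calc (cB a s x).natAbs = cg a s x * ((cB a s x).natAbs / cg a s x) :=
            (Nat.mul_div_cancel' hgB).symm
        _ ≤ _ := Nat.mul_le_mul_left _ hv
    have hd : 0 < (form (a s.1) (a s.2.1)).natAbs := Int.natAbs_pos.2 (ha _ _ h1)
    have s1 := le_size a s.1
    have s2 := le_size a s.2.1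
    have key : ∀ y c1 c2 : ℤ, form (a s.1) (a s.2.1) * y =
        c1 * form (a s.1) x - c2 * form (a s.2.1) x → c1.natAbs ≤ Q → c2.natAbs ≤ Q →
        y.natAbs ≤ 2 * Q ^ 7 * (ct a s x).1.2.2 := by
      intro y c1 c2 hy hc1 hc2
      have e1 : y.natAbs ≤ (form (a s.1) (a s.2.1) * y).natAbs := by
        rw [Int.natAbs_mul]
        exact Nat.le_mul_of_pos_left _ hd
      rw [hy] at e1
      refine e1.trans ((Int.natAbs_sub_le _ _).trans ?_)
      rw [Int.natAbs_mul, Int.natAbs_mul]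
      calc c1.natAbs * (form (a s.1) x).natAbs + c2.natAbs * (form (a s.2.1) x).natAbs
          ≤ Q * (Q ^ 6 * (ct a s x).1.2.2) + Q * (Q ^ 6 * (ct a s x).1.2.2) :=
            Nat.add_le_add (Nat.mul_le_mul hc1 (hAle.trans (Nat.mul_le_mul_right _ hgle)))
              (Nat.mul_le_mul hc2 (hBle.trans (Nat.mul_le_mul_right _ hgle)))
        _ = 2 * Q ^ 7 * (ct a s x).1.2.2 := by ring
    refine max_le ?_ ?_
    · exact key x.1 _ _ (form_one _ _ _) (by omega) (by omega)
    · exact key x.2 _ _ (form_two _ _ _) (by omega) (by omega)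
  · unfold rad3
    have e0 : (cA a s x).natAbs * (cB a s x).natAbs * (cC a s x).natAbs =
        ((form (a s.2.1) (a s.2.2)).natAbs * (form (a s.2.2) (a s.1)).natAbs *
          (form (a s.1) (a s.2.1)).natAbs) * ((form (a s.1) x).natAbs *
          (form (a s.2.1) x).natAbs * (form (a s.2.2) x).natAbs) := by
      unfold cA cB cC
      rw [Int.natAbs_mul, Int.natAbs_mul, Int.natAbs_mul]
      ring
    have n1 : ∀ i, (form (a i) x).natAbs ≠ 0 := fun i => Int.natAbs_ne_zero.2 (hne i)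
    have n2 : (form (a s.2.1) (a s.2.2)).natAbs * (form (a s.2.2) (a s.1)).natAbs *
          (form (a s.1) (a s.2.1)).natAbs ≠ 0 :=
      mul_ne_zero (mul_ne_zero (Int.natAbs_ne_zero.2 (ha _ _ h2))
        (Int.natAbs_ne_zero.2 (ha _ _ h3))) (Int.natAbs_ne_zero.2 (ha _ _ h1))
    have n3 : (form (a s.1) x).natAbs * (form (a s.2.1) x).natAbs *
        (form (a s.2.2) x).natAbs ≠ 0 := mul_ne_zero (mul_ne_zero (n1 _) (n1 _)) (n1 _)
    rw [e0] at hdvd
    refine (radical_mono hdvd (mul_ne_zero n2 n3)).trans ?_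
    refine (radical_mul n2 n3).trans (Nat.mul_le_mul ?_ ?_)
    · refine (radical_le n2).trans ?_
      calc _ ≤ Q ^ 2 * Q ^ 2 * Q ^ 2 := Nat.mul_le_mul (Nat.mul_le_mul d1 d2) d3
        _ = Q ^ 6 := by ring
    · refine (radical_mul (mul_ne_zero (n1 _) (n1 _)) (n1 _)).trans (Nat.mul_le_mul_right _ ?_)
      exact radical_mul (n1 _) (n1 _)

theorem ct_inj {q : ℕ} {a : Fin q → ℤ × ℤ} (ha : ∀ i j, i ≠ j → form (a i) (a j) ≠ 0)
    {s : Fin q × Fin q × Fin q} (h1 : s.1 ≠ s.2.1) (h2 : s.2.1 ≠ s.2.2) (h3 : s.2.2 ≠ s.1)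
    {x y : ℤ × ℤ} (hx : IsCoprime x.1 x.2) (hnx : ∀ i, form (a i) x ≠ 0)
    (hy : IsCoprime y.1 y.2) (hny : ∀ i, form (a i) y ≠ 0)
    (hct : ct a s x = ct a s y) (hsA : 0 < cA a s x ↔ 0 < cA a s y)
    (hsB : 0 < cB a s x ↔ 0 < cB a s y) : x = y := by
  obtain ⟨hgx, hAx, hBx, -⟩ := bounds ha h1 h2 h3 hx hnx
  obtain ⟨hgy, hAy, hBy, -⟩ := bounds ha h1 h2 h3 hy hny
  obtain ⟨e1, e2, -⟩ := code_inj hct
  obtain ⟨gx, hgxd⟩ : ∃ g, g = cg a s x := ⟨_, rfl⟩
  obtain ⟨gy, hgyd⟩ : ∃ g, g = cg a s y := ⟨_, rfl⟩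
  rw [← hgxd] at hgx hAx hBx e1 e2
  rw [← hgyd] at hgy hAy hBy e1 e2
  have hAx0 : cA a s x ≠ 0 := mul_ne_zero (ha _ _ h2) (hnx _)
  have hAy0 : cA a s y ≠ 0 := mul_ne_zero (ha _ _ h2) (hny _)
  have hBx0 : cB a s x ≠ 0 := mul_ne_zero (ha _ _ h3) (hnx _)
  have hBy0 : cB a s y ≠ 0 := mul_ne_zero (ha _ _ h3) (hny _)
  have key : ∀ A B : ℤ, A ≠ 0 → B ≠ 0 → gx ∣ A.natAbs → gy ∣ B.natAbs →
      A.natAbs / gx = B.natAbs / gy → (0 < A ↔ 0 < B) → (gy : ℤ) * A = gx * B := by
    intro A B hA hB hdA hdB he hs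
    obtain ⟨u, hu⟩ := hdA
    obtain ⟨v, hv⟩ := hdB
    rw [hu, hv, Nat.mul_div_cancel_left _ hgx, Nat.mul_div_cancel_left _ hgy] at he
    subst he
    rcases lt_or_gt_of_ne hA with h | h
    · have hB' : B < 0 := by
        rcases lt_or_gt_of_ne hB with h' | h'
        · exact h'
        · exact absurd (hs.2 h') (not_lt.2 h.le)
      have e3 : A = -((gx * u : ℕ) : ℤ) := by rw [← hu]; omega
      have e4 : B = -((gy * u : ℕ) : ℤ) := by rw [← hv]; omega
      rw [e3, e4]; push_cast; ring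
    · have hB' : 0 < B := hs.1 h
      have e3 : A = ((gx * u : ℕ) : ℤ) := by rw [← hu]; omega
      have e4 : B = ((gy * u : ℕ) : ℤ) := by rw [← hv]; omega
      rw [e3, e4]; push_cast; ring
  have kA := key _ _ hAx0 hAy0 hAx hAy e1 hsA
  have kB := key _ _ hBx0 hBy0 hBx hBy e2 hsB
  have lA : (gy : ℤ) * form (a s.1) x = gx * form (a s.1) y := by
    unfold cA at kA
    apply mul_left_cancel₀ (ha _ _ h2)
    linear_combination kA
  have lB : (gy : ℤ) * form (a s.2.1) x = gx * form (a s.2.1) y := by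
    unfold cB at kB
    apply mul_left_cancel₀ (ha _ _ h3)
    linear_combination kB
  have m1 : (gy : ℤ) * x.1 = gx * y.1 := by
    apply mul_left_cancel₀ (ha _ _ h1)
    have e3 := form_one (a s.1) (a s.2.1) x
    have e4 := form_one (a s.1) (a s.2.1) y
    linear_combination (gy : ℤ) * e3 - (gx : ℤ) * e4 + (a s.2.1).1 * lA - (a s.1).1 * lB
  have m2 : (gy : ℤ) * x.2 = gx * y.2 := by
    apply mul_left_cancel₀ (ha _ _ h1)
    have e3 := form_two (a s.1) (a s.2.1) x
    have e4 := form_two (a s.1) (a s.2.1) y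
    linear_combination (gy : ℤ) * e3 - (gx : ℤ) * e4 + (a s.2.1).2 * lA - (a s.1).2 * lB
  have hg : gx = gy := by
    have g1 : Int.gcd ((gy : ℤ) * x.1) ((gy : ℤ) * x.2) = gy := by
      rw [Int.gcd_mul_left, Int.isCoprime_iff_gcd_eq_one.1 hx, Int.natAbs_natCast, mul_one]
    have g2 : Int.gcd ((gx : ℤ) * y.1) ((gx : ℤ) * y.2) = gx := by
      rw [Int.gcd_mul_left, Int.isCoprime_iff_gcd_eq_one.1 hy, Int.natAbs_natCast, mul_one]
    rw [m1, m2, g2] at g1
    exact g1
  have hgne : (gy : ℤ) ≠ 0 := by exact_mod_cast hgy.ne'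
  rw [hg] at m1 m2
  exact Prod.ext (mul_left_cancel₀ hgne m1) (mul_left_cancel₀ hgne m2)

/-! ### The count -/

theorem one_le_max {x : ℤ × ℤ} (hx : IsCoprime x.1 x.2) : 1 ≤ max x.1.natAbs x.2.natAbs := by
  by_contra h
  push Not at h
  have h1 : x.1 = 0 := by omega
  have h2 : x.2 = 0 := by omega
  rw [h1, h2] at hx
  have := Int.isCoprime_iff_gcd_eq_one.1 hx
  simp at this

theorem exp_height {x : ℤ × ℤ} (hx : IsCoprime x.1 x.2) :
    Real.exp (height x) = ((max x.1.natAbs x.2.natAbs : ℕ) : ℝ) := by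
  unfold height
  rw [Real.exp_log]
  have := one_le_max hx
  exact_mod_cast this

theorem max_fin (N : ℕ) : {x : ℤ × ℤ | max x.1.natAbs x.2.natAbs ≤ N}.Finite := by
  refine Set.Finite.subset (Finset.finite_toSet
    ((Finset.Icc (-(N : ℤ)) N) ×ˢ (Finset.Icc (-(N : ℤ)) N))) ?_
  rintro ⟨x, y⟩ h
  change max x.natAbs y.natAbs ≤ N at h
  simp only [Finset.coe_product, Set.mem_prod, Finset.coe_Icc, Set.mem_Icc]
  omega

theorem height_fin (T : ℝ) : {x : ℤ × ℤ | IsCoprime x.1 x.2 ∧ height x ≤ T}.Finite := by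
  refine (max_fin ⌊Real.exp T⌋₊).subset ?_
  rintro x ⟨hx, h⟩
  refine Nat.le_floor ?_
  rw [← exp_height hx]
  exact Real.exp_le_exp.2 h

theorem exceptions_fin {q : ℕ} (S : Finset ℕ) (a : Fin q → ℤ × ℤ) (M k X : ℝ) :
    (Exceptions S a M k X).Finite :=
  (height_fin (k * Real.log X)).subset fun _ hx => ⟨hx.1, hx.2.2.2.1⟩

theorem violating_fin {q : ℕ} (S : Finset ℕ) (a : Fin q → ℤ × ℤ) (M H : ℝ) :
    (Violating S a M H).Finite :=
  (height_fin (Real.log H)).subset fun _ hx => ⟨hx.1, hx.2.2.1⟩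

theorem main_count (ε : ℝ) (hε : 0 < ε) : ∃ M : ℝ, 0 < M ∧ ∀ q : ℕ, 3 ≤ q →
    ∀ a : Fin q → ℤ × ℤ, (∀ i j, i ≠ j → form (a i) (a j) ≠ 0) → ∀ (S : Finset ℕ) (k : ℝ),
    ∃ C : ℝ, 0 ≤ C ∧ ∀ X : ℝ, 1 ≤ X →
      ((Exceptions S a M k X).ncard : ℝ) ≤ C * X ^ (1 / (q : ℝ) + ε) := by
  classical
  obtain ⟨M0, hM0, hpart⟩ := part_one ε hε
  have hM0r : (1 : ℝ) ≤ M0 := by exact_mod_cast hM0
  refine ⟨2 * M0, by linarith, fun q hq a ha S k => ?_⟩
  have hq3 : (3 : ℝ) ≤ q := by exact_mod_cast hq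
  have hq0 : (0 : ℝ) < q := by linarith
  set k0 : ℕ := ⌈|k| * q / 3⌉₊ + 1 with hk0
  obtain ⟨C1, hC1, hcount⟩ := hpart k0
  set Q : ℝ := (size a : ℝ) with hQ
  have hQ1 : 1 ≤ Q := by
    have := one_le_size a
    rw [hQ]
    exact_mod_cast this
  set E0 : ℝ := badSum S a with hE0
  have hE0' : 0 ≤ E0 := badSum_nonneg S a
  set K : ℝ := Q ^ 6 * Real.exp E0 with hK
  have hKQ : Q ^ 6 ≤ K := by
    rw [hK]
    exact le_mul_of_one_le_right (by positivity) (Real.one_le_exp hE0')
  have hK1 : 1 ≤ K := le_trans (one_le_pow₀ hQ1) hKQ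
  set H0 : ℝ := (2 * Q ^ 7 * K ^ M0) ^ 2 with hH0
  have hsel : ∀ x : ℤ × ℤ, ∃ s : Fin q × Fin q × Fin q, s.1 ≠ s.2.1 ∧ s.2.1 ≠ s.2.2 ∧
      s.2.2 ≠ s.1 ∧ Real.log (radical (form (a s.1) x).natAbs) +
        Real.log (radical (form (a s.2.1) x).natAbs) +
        Real.log (radical (form (a s.2.2) x).natAbs) ≤
        3 / q * ∑ t, Real.log (radical (form (a t) x).natAbs) := by
    intro x
    obtain ⟨i, j, l, h1, h2, h3, h4⟩ := three_indices hq
      (fun t => Real.log (radical (form (a t) x).natAbs))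
    exact ⟨(i, j, l), h1, h2, h3, h4⟩
  choose σ hσ1 hσ2 hσ3 hσ using hsel
  set small : Set (ℤ × ℤ) := {x | max x.1.natAbs x.2.natAbs ≤ ⌊H0⌋₊} with hsmall
  refine ⟨small.ncard + (q : ℝ) ^ 3 * 12 * (C1 * (2 * K) ^ (1 / 3 + ε)), by positivity,
    fun X hX => ?_⟩
  have hX0 : 0 < X := by linarith
  set X0 : ℕ := ⌈K * X ^ (3 / (q : ℝ))⌉₊ with hX0d
  have hXq : 1 ≤ X ^ (3 / (q : ℝ)) := Real.one_le_rpow hX (by positivity)
  have hKX : 1 ≤ K * X ^ (3 / (q : ℝ)) := one_le_mul_of_one_le_of_one_le hK1 hXq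
  have hX0le : K * X ^ (3 / (q : ℝ)) ≤ X0 := Nat.le_ceil _
  have hX01 : 1 ≤ X0 := by
    have : (1 : ℝ) ≤ X0 := hKX.trans hX0le
    exact_mod_cast this
  have hX0ge : (X0 : ℝ) ≤ 2 * K * X ^ (3 / (q : ℝ)) := by
    have : (X0 : ℝ) < K * X ^ (3 / (q : ℝ)) + 1 := Nat.ceil_lt_add_one (by positivity)
    linarith
  -- the large points
  set big : Set (ℤ × ℤ) := {x | x ∈ Exceptions S a (2 * M0) k X ∧ ⌊H0⌋₊ < max x.1.natAbs x.2.natAbs}
    with hbig
  have hbf : big.Finite := (exceptions_fin S a (2 * M0) k X).subset fun x hx => hx.1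
  have hsub : Exceptions S a (2 * M0) k X ⊆ small ∪ big := by
    intro x hx
    rcases le_or_gt (max x.1.natAbs x.2.natAbs) ⌊H0⌋₊ with h | h
    · exact Or.inl h
    · exact Or.inr ⟨hx, h⟩
  let T : Set ((Fin q × Fin q × Fin q) × (Bool × Bool) × ((ℕ × ℕ × ℕ) × Fin 3)) :=
    Set.univ ×ˢ (Set.univ ×ˢ (Large M0 k0 X0 ×ˢ Set.univ))
  let f : ℤ × ℤ → (Fin q × Fin q × Fin q) × (Bool × Bool) × ((ℕ × ℕ × ℕ) × Fin 3) := fun x =>
    (σ x, (decide (0 < cA a (σ x) x), decide (0 < cB a (σ x) x)), ct a (σ x) x)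
  have hTf : T.Finite := Set.finite_univ.prod (Set.finite_univ.prod
    ((large_fin M0 k0 X0).prod Set.finite_univ))
  have hTc : (T.ncard : ℝ) = (q : ℝ) ^ 3 * 12 * (Large M0 k0 X0).ncard := by
    have : T.ncard = (q * (q * q)) * ((2 * 2) * ((Large M0 k0 X0).ncard * 3)) := by
      simp only [T, Set.ncard_prod, Set.ncard_univ, Nat.card_eq_fintype_card, Fintype.card_prod,
        Fintype.card_fin, Fintype.card_bool]
    rw [this]
    push_cast
    ring
  have hmaps : ∀ x ∈ big, f x ∈ T := by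
    rintro x ⟨⟨hx, hne, hN, hh, hM⟩, hlarge⟩
    obtain ⟨-, -, -, htri, hc1, hc2, hrad⟩ := bounds ha (hσ1 x) (hσ2 x) (hσ3 x) hx hne
    have hH0lt : H0 < ((max x.1.natAbs x.2.natAbs : ℕ) : ℝ) := (Nat.floor_lt (by positivity)).1 hlarge
    set Hx : ℝ := ((max x.1.natAbs x.2.natAbs : ℕ) : ℝ) with hHx
    have hexp : Real.exp (height x) = Hx := exp_height hx
    set N : ℝ := counting S a x with hNd
    have hN0 : 0 ≤ N := counting_nonneg S a x
    have hsum := sum_log_radical S a ha hx hne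
    have hR : Real.log (radical (form (a (σ x).1) x).natAbs) +
        Real.log (radical (form (a (σ x).2.1) x).natAbs) +
        Real.log (radical (form (a (σ x).2.2) x).natAbs) ≤ 3 / q * N + E0 := by
      refine (hσ x).trans ?_
      have h3q : 3 / (q : ℝ) ≤ 1 := (div_le_one hq0).2 hq3
      have h3q0 : 0 ≤ 3 / (q : ℝ) := by positivity
      calc 3 / (q : ℝ) * ∑ t, Real.log (radical (form (a t) x).natAbs) ≤ 3 / q * (N + E0) :=
            mul_le_mul_of_nonneg_left hsum h3q0
        _ = 3 / q * N + 3 / q * E0 := by ring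
        _ ≤ 3 / q * N + 1 * E0 := by
            have := mul_le_mul_of_nonneg_right h3q hE0'
            linarith
        _ = _ := by ring
    have hradr : ((rad3 (ct a (σ x) x).1 : ℕ) : ℝ) ≤ K * Real.exp (3 / q * N) := by
      have e1 : ((rad3 (ct a (σ x) x).1 : ℕ) : ℝ) ≤
          Q ^ 6 * ((radical (form (a (σ x).1) x).natAbs : ℝ) *
            (radical (form (a (σ x).2.1) x).natAbs : ℝ) *
            (radical (form (a (σ x).2.2) x).natAbs : ℝ)) := by
        rw [hQ]
        exact_mod_cast hrad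
      have e2 : ∀ n : ℕ, (radical n : ℝ) = Real.exp (Real.log (radical n)) := by
        intro n
        rw [Real.exp_log]
        exact_mod_cast radical_pos n
      rw [e2 (form (a (σ x).1) x).natAbs, e2 (form (a (σ x).2.1) x).natAbs,
        e2 (form (a (σ x).2.2) x).natAbs, ← Real.exp_add, ← Real.exp_add] at e1
      refine e1.trans ?_
      rw [hK, mul_assoc, ← Real.exp_add]
      refine mul_le_mul_of_nonneg_left (Real.exp_le_exp.2 ?_) (by positivity)
      linarith
    refine ⟨Set.mem_univ _, Set.mem_univ _, ⟨htri, ?_, ?_, ?_⟩, Set.mem_univ _⟩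
    · -- the radical
      have e1 : Real.exp (3 / q * N) ≤ X ^ (3 / (q : ℝ)) := by
        rw [Real.rpow_def_of_pos hX0, mul_comm (Real.log X)]
        exact Real.exp_le_exp.2 (mul_le_mul_of_nonneg_left hN (by positivity))
      have e2 : ((rad3 (ct a (σ x) x).1 : ℕ) : ℝ) ≤ X0 :=
        hradr.trans ((mul_le_mul_of_nonneg_left e1 (by positivity)).trans hX0le)
      exact_mod_cast e2
    · have e1 : ((rad3 (ct a (σ x) x).1 : ℕ) : ℝ) ≤ K * Real.exp N := by
        refine hradr.trans (mul_le_mul_of_nonneg_left (Real.exp_le_exp.2 ?_) (by positivity))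
        have h3q : 3 / (q : ℝ) ≤ 1 := (div_le_one hq0).2 hq3
        nlinarith
      set z : ℝ := Real.exp (height x / 2) with hz
      have hz0 : 0 < z := Real.exp_pos _
      have hzz : z * z = Hx := by
        rw [hz, ← Real.exp_add, ← hexp]
        congr 1
        ring
      have hzle : 2 * Q ^ 7 * K ^ M0 ≤ z := by
        have : (2 * Q ^ 7 * K ^ M0) ^ 2 ≤ z ^ 2 := by
          rw [pow_two z, hzz]
          exact hH0lt.le
        exact (pow_le_pow_iff_left₀ (by positivity) hz0.le two_ne_zero).1 this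
      have e2 : ((rad3 (ct a (σ x) x).1 : ℕ) : ℝ) ^ M0 ≤ K ^ M0 * z := by
        calc ((rad3 (ct a (σ x) x).1 : ℕ) : ℝ) ^ M0 ≤ (K * Real.exp N) ^ M0 :=
              pow_le_pow_left₀ (Nat.cast_nonneg _) e1 _
          _ = K ^ M0 * Real.exp (M0 * N) := by rw [mul_pow, Real.exp_nat_mul]
          _ ≤ K ^ M0 * z := by
              refine mul_le_mul_of_nonneg_left ?_ (by positivity)
              rw [hz]
              exact Real.exp_le_exp.2 (by linarith)
      have e3 : Hx ≤ 2 * Q ^ 7 * ((ct a (σ x) x).1.2.2 : ℝ) := by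
        rw [hHx, hQ]
        exact_mod_cast hc2
      have e4 : 2 * Q ^ 7 * ((rad3 (ct a (σ x) x).1 : ℕ) : ℝ) ^ M0 ≤
          2 * Q ^ 7 * ((ct a (σ x) x).1.2.2 : ℝ) := by
        calc 2 * Q ^ 7 * ((rad3 (ct a (σ x) x).1 : ℕ) : ℝ) ^ M0 ≤ 2 * Q ^ 7 * (K ^ M0 * z) :=
              mul_le_mul_of_nonneg_left e2 (by positivity)
          _ = (2 * Q ^ 7 * K ^ M0) * z := by ring
          _ ≤ z * z := mul_le_mul_of_nonneg_right hzle hz0.le
          _ = Hx := hzz
          _ ≤ _ := e3
      have e5 : ((rad3 (ct a (σ x) x).1 : ℕ) : ℝ) ^ M0 ≤ ((ct a (σ x) x).1.2.2 : ℝ) :=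
        le_of_mul_le_mul_left e4 (by positivity)
      exact_mod_cast e5
    · have e1 : ((ct a (σ x) x).1.2.2 : ℝ) ≤ Q ^ 3 * Hx := by
        rw [hHx, hQ]
        exact_mod_cast hc1
      have e2 : Hx ≤ X ^ |k| := by
        rw [← hexp, Real.rpow_def_of_pos hX0]
        refine Real.exp_le_exp.2 (hh.trans ?_)
        rw [mul_comm]
        exact mul_le_mul_of_nonneg_left (le_abs_self k) (Real.log_nonneg hX)
      have hk0r : |k| ≤ 3 / q * k0 := by
        have e3 : |k| * q / 3 ≤ (k0 : ℝ) := by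
          rw [hk0]
          push_cast
          have := Nat.le_ceil (|k| * q / 3)
          linarith
        have e4 : |k| = 3 / q * (|k| * q / 3) := by
          have : (q : ℝ) ≠ 0 := hq0.ne'
          generalize |k| = κ
          field_simp
        rw [e4]
        exact mul_le_mul_of_nonneg_left e3 (by positivity)
      have e3 : Q ^ 3 * X ^ |k| ≤ (X0 : ℝ) ^ k0 := by
        calc Q ^ 3 * X ^ |k| ≤ K ^ k0 * X ^ (3 / (q : ℝ) * k0) := by
              refine mul_le_mul ?_ (Real.rpow_le_rpow_of_exponent_le hX hk0r) (by positivity)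
                (by positivity)
              calc Q ^ 3 ≤ Q ^ 6 := pow_le_pow_right₀ hQ1 (by norm_num)
                _ ≤ K := hKQ
                _ = K ^ 1 := (pow_one K).symm
                _ ≤ K ^ k0 := pow_le_pow_right₀ hK1 (by rw [hk0]; omega)
          _ = (K * X ^ (3 / (q : ℝ))) ^ k0 := by
              rw [Real.rpow_mul hX0.le, Real.rpow_natCast, ← mul_pow]
          _ ≤ (X0 : ℝ) ^ k0 := pow_le_pow_left₀ (by positivity) hX0le _
      have e4 : ((ct a (σ x) x).1.2.2 : ℝ) ≤ (X0 : ℝ) ^ k0 :=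
        e1.trans ((mul_le_mul_of_nonneg_left e2 (by positivity)).trans e3)
      exact_mod_cast e4
  have hinj : Set.InjOn f big := by
    rintro x ⟨⟨hx, hnx, -⟩, -⟩ y ⟨⟨hy, hny, -⟩, -⟩ hxy
    simp only [f, Prod.mk.injEq] at hxy
    obtain ⟨h1, ⟨h2, h3⟩, h4⟩ := hxy
    rw [← h1] at h2 h3 h4
    exact ct_inj ha (hσ1 x) (hσ2 x) (hσ3 x) hx hnx hy hny h4
      (by simpa using h2) (by simpa using h3)
  have hbc : (big.ncard : ℝ) ≤ (q : ℝ) ^ 3 * 12 * (Large M0 k0 X0).ncard := by
    rw [← hTc]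
    exact_mod_cast Set.ncard_le_ncard_of_injOn f hmaps hinj hTf
  have hLc := hcount X0 hX01
  have h13 : 0 < 1 / 3 + ε := by positivity
  have hpow : (X0 : ℝ) ^ (1 / 3 + ε) ≤ (2 * K) ^ (1 / 3 + ε) * X ^ (1 / (q : ℝ) + ε) := by
    calc (X0 : ℝ) ^ (1 / 3 + ε) ≤ (2 * K * X ^ (3 / (q : ℝ))) ^ (1 / 3 + ε) :=
          Real.rpow_le_rpow (by positivity) hX0ge h13.le
      _ = (2 * K) ^ (1 / 3 + ε) * X ^ (3 / (q : ℝ) * (1 / 3 + ε)) := by
          rw [Real.mul_rpow (by positivity) (by positivity), ← Real.rpow_mul hX0.le]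
      _ ≤ _ := by
          refine mul_le_mul_of_nonneg_left (Real.rpow_le_rpow_of_exponent_le hX ?_) (by positivity)
          have e1 : 3 / (q : ℝ) * (1 / 3 + ε) = 1 / q + 3 / q * ε := by
            field_simp
          rw [e1]
          have h3q : 3 / (q : ℝ) ≤ 1 := (div_le_one hq0).2 hq3
          nlinarith
  have hone : 1 ≤ X ^ (1 / (q : ℝ) + ε) := Real.one_le_rpow hX (by positivity)
  have htot : ((Exceptions S a (2 * M0) k X).ncard : ℝ) ≤ small.ncard + big.ncard := by
    have := (Set.ncard_le_ncard hsub ((max_fin _).union hbf)).trans (Set.ncard_union_le _ _)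
    exact_mod_cast this
  calc ((Exceptions S a (2 * M0) k X).ncard : ℝ) ≤ small.ncard + big.ncard := htot
    _ ≤ small.ncard * X ^ (1 / (q : ℝ) + ε) + (q : ℝ) ^ 3 * 12 * (C1 * ((2 * K) ^ (1 / 3 + ε) *
          X ^ (1 / (q : ℝ) + ε))) := by
        refine add_le_add (le_mul_of_one_le_right (Nat.cast_nonneg _) hone) (hbc.trans ?_)
        refine mul_le_mul_of_nonneg_left (hLc.trans ?_) (by positivity)
        exact mul_le_mul_of_nonneg_left hpow hC1
    _ = _ := by ring

/-- **Height form.** For every `ε > 0` there is `M` such that for all `q ≥ 3`, all `q` different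
rational points of the projective line, all finite sets `S` of primes and every real `m ≥ M` there
is `C` such that for all `H ≥ 1` at most `C H ^ ((1 / q + ε) / m)` points `P` of height at most
`log H` satisfy `h(P) ≥ m N_S^{(1)}(D, P)`. -/
theorem height_form (ε : ℝ) (hε : 0 < ε) : ∃ M : ℝ, 0 < M ∧ ∀ q : ℕ, 3 ≤ q →
    ∀ a : Fin q → ℤ × ℤ, (∀ i j, i ≠ j → form (a i) (a j) ≠ 0) → ∀ S : Finset ℕ,
    ∀ m : ℝ, M ≤ m → ∃ C : ℝ, ∀ H : ℝ, 1 ≤ H → (Violating S a m H).Finite ∧
      ((Violating S a m H).ncard : ℝ) ≤ C * H ^ ((1 / (q : ℝ) + ε) / m) := by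
  obtain ⟨M, hM, hmain⟩ := main_count ε hε
  refine ⟨M, hM, fun q hq a ha S m hm => ?_⟩
  obtain ⟨C, -, hC⟩ := hmain q hq a ha S m
  have hm0 : 0 < m := by linarith
  refine ⟨C, fun H hH => ⟨violating_fin S a m H, ?_⟩⟩
  have hH0 : 0 < H := by linarith
  have hX : 1 ≤ H ^ (1 / m) := Real.one_le_rpow hH (by positivity)
  have hlog : Real.log (H ^ (1 / m)) = Real.log H / m := by
    rw [Real.log_rpow hH0]; ring
  have hsub : Violating S a m H ⊆ Exceptions S a M m (H ^ (1 / m)) := by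
    rintro x ⟨hx, hne, hh, hv⟩
    have hN0 : 0 ≤ counting S a x := counting_nonneg S a x
    refine ⟨hx, hne, ?_, ?_, ?_⟩
    · rw [hlog, le_div_iff₀ hm0]
      linarith
    · rw [hlog, mul_div_cancel₀ _ hm0.ne']
      exact hh
    · refine le_trans ?_ hv
      exact mul_le_mul_of_nonneg_right hm hN0
  have h1 : ((Violating S a m H).ncard : ℝ) ≤ ((Exceptions S a M m (H ^ (1 / m))).ncard : ℝ) := by
    exact_mod_cast Set.ncard_le_ncard hsub (exceptions_fin S a M m _)
  refine (h1.trans (hC _ hX)).trans (le_of_eq ?_)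
  rw [← Real.rpow_mul hH0.le]
  congr 2
  field_simp

/-- **The points whose height is a large multiple of the truncated counting function.** For every
`ε > 0` there is `M` such that for all `q ≥ 3`, all `q` different rational points `a_1, …, a_q` of
the projective line, all finite sets `S` of primes and all `k` there is `C` such that for all
`X ≥ 1` at most `C X ^ (1 / q + ε)` points `P` with `N_S^{(1)}(D, P) ≤ log X` and
`h(P) ≤ k log X` satisfy `h(P) ≥ M N_S^{(1)}(D, P)`. -/
theorem result (ε : ℝ) (hε : 0 < ε) : ∃ M : ℝ, 0 < M ∧ ∀ q : ℕ, 3 ≤ q →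
    ∀ a : Fin q → ℤ × ℤ, (∀ i j, i ≠ j → form (a i) (a j) ≠ 0) →
    ∀ (S : Finset ℕ) (k : ℝ), ∃ C : ℝ, ∀ X : ℝ, 1 ≤ X → (Exceptions S a M k X).Finite ∧
      ((Exceptions S a M k X).ncard : ℝ) ≤ C * X ^ (1 / (q : ℝ) + ε) := by
  obtain ⟨M, hM, hmain⟩ := main_count ε hε
  refine ⟨M, hM, fun q hq a ha S k => ?_⟩
  obtain ⟨C, -, hC⟩ := hmain q hq a ha S k
  exact ⟨C, fun X hX => ⟨exceptions_fin S a M k X, hC X hX⟩⟩

end Pool.Agent.Results.MP_9ec3f0_nt.LargeMultiples
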