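import Mathlib
import Pool.Agent.N752.FD.Fermat
import Pool.Agent.TH905.VF.Abs
import Pool.Agent.N752.Shelf.BoundedDegreeHyperplanes

/-!
# Vojta's conjecture with multiplier ideals: monomial ideals on Fermat intersections, points above
# points of degree `r`

Let `k` be a number field (for example `ℚ`), `a_0, …, a_{q-1}` linear forms in `m + 1` variables over
`k`, any `m + 1` of them linearly independent, `q ≥ m + 1`, and `e ≥ 1`. The points
`(y_0 : … : y_{q-1})` such that `(y_0 ^ e : … : y_{q-1} ^ e) = (a_0(x) : … : a_{q-1}(x))` for some `x`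
in `ℙ^m` form a smooth complete intersection `X_e` of dimension `m` of `q - m - 1` hypersurfaces of
degree `e` in `ℙ^(q-1)` (a diagonal hypersurface for `q = m + 2`), with
`h_K(P) = (e (q - m - 1) - q) h(P)` and `e h(P) = h(x) + O(1)`. The divisors `D_i : y_i = 0` are
smooth and their sum has simple normal crossings.

A finite set `E ≠ ∅` of vectors `u ∈ ℕ^q` gives the ideal sheaf `I = ∑_{u ∈ E} O(- ∑_i u_i D_i)` on
`X_e`. By Howald's theorem the multiplier ideal `I_c` is generated by the `O(- ∑_i u_i D_i)` such that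
`u + (1, …, 1)` is in the interior of `c N`, where the Newton polyhedron `N` is the set of all vectors
which are at least some element of the convex hull of `E`. So `I⁻` is generated by those with
`u + (1, …, 1) ∈ N`. With the Weil functions `λ_i = log (max_j |y_j| / |y_i|)` of the `D_i` we have
`λ_I = min_{u ∈ E} ∑_i u_i λ_i` and `λ_{I⁻} = min ∑_i u_i λ_i`, over these `u`.

Fix `r ≥ 2` and let `n = r [k : ℚ]`. We consider all points `P` of all `X_e` above the points `x` of
`ℙ^m` whose field of definition `k(x)` has degree `r` over `k`; they are points of degree at most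
`n e ^ (q-1)`. There are at least `c B ^ (n (m + 1) - δ)` such `x` of height at most `log B`. We prove:
for all but `C B ^ (n α θ + δ)` of them, for ALL `e ≥ 1`, ALL points `P` of `X_e` above `x`, over any
number field `L ⊇ k(x)`, ALL such ideals `I` and ALL finite sets `S` of primes
`(θ e - q) h(P) + ∑_{v ∈ S ∪ {∞}} (λ_I - λ_{I⁻})(P, v) ≤ d(L) + ∑_{p ∈ S} log p + c`,
which is the inequality of the conjecture with the error term `ε e h(P)` if `θ = q - m - 1 - ε`; here
`0 ≤ θ < q`. The number `α = alpha n c₀ η = min ((n - 1) (n + 2) / (4 ⌈n / 2⌉), c₀ n ^ η)` is such that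
there are `O(Δ ^ α)` number fields of degree `n` and discriminant at most `Δ`. So the inequality
holds for all points above almost all `x` of degree `r` if `α (q - m - 1) < m + 1`: for diagonal
hypersurfaces, `q = m + 2`, over `k = ℚ` this is true for all `r ≤ 2 m + 1`. The starting file
`MonomialIdeals` is the case of rational points `x`.

Proof. `λ_I - λ_{I⁻} ≤ ∑_i λ_i`. Over the field `K = k(x)` the truncated counting function of the
arrangement, without the primes in `S`, is at most the relative discriminant of `P` plus `q h(P)`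
minus the proximity function of `∑ D_i`; the constants do not depend on `K ⊇ k`. If the inequality
fails, then `x` violates the truncated inequality with discriminant term for hyperplanes: such `x`
of degree `r` are counted in `BoundedDegreeHyperplanes` (MP_44a246_nt).
-/

set_option autoImplicit false

namespace Pool.Agent.Results.MP_8865d3_nt.MonomialIdealsDegreeR

open NumberField IsDedekindDomain
open scoped LinearAlgebra.Projectivization
open Pool.Agent.Results.MP_44a246_nt.BoundedDegreeHyperplanes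
  (height value logDisc liftTo toC fieldOf Points Exceptions alpha)

/-- The absolute logarithmic height of the point `(y_0 : … : y_{q-1})`. -/
noncomputable def heightOf {L : Type} [Field L] [NumberField L] {q : ℕ} (y : Fin q → L) : ℝ :=
  Height.logHeight y / Module.finrank ℚ L

/-- The Weil function `λ_i = log (max_j |y_j| / |y_i|)` of `D_i`, for an absolute value. -/
noncomputable def weil {L : Type} [Field L] {q : ℕ} (f : AbsoluteValue L ℝ) (y : Fin q → L)
    (i : Fin q) : ℝ := Real.log ((⨆ j, f (y j)) / f (y i))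

/-- The Newton polyhedron of the ideal with exponents `E`. -/
def newton {q : ℕ} (E : Finset (Fin q → ℕ)) : Set (Fin q → ℝ) :=
  {t | ∃ s ∈ convexHull ℝ ((fun (u : Fin q → ℕ) i => (u i : ℝ)) '' (E : Set (Fin q → ℕ))),
    ∀ i, s i ≤ t i}

/-- The local height `λ_I = min_{u ∈ E} ∑_i u_i λ_i`. -/
noncomputable def lamIdeal {L : Type} [Field L] {q : ℕ} (f : AbsoluteValue L ℝ) (y : Fin q → L)
    (E : Finset (Fin q → ℕ)) : ℝ := ⨅ u : E, ∑ i, (u.1 i : ℝ) * weil f y i

/-- The local height `λ_{I⁻} = min ∑_i u_i λ_i`, over all `u` with `u + (1, …, 1)` in the Newton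
polyhedron. -/
noncomputable def lamMinus {L : Type} [Field L] {q : ℕ} (f : AbsoluteValue L ℝ) (y : Fin q → L)
    (E : Finset (Fin q → ℕ)) : ℝ :=
  ⨅ u : {u : Fin q → ℕ | (fun i => (u i : ℝ) + 1) ∈ newton E}, ∑ i, (u.1 i : ℝ) * weil f y i

/-- The sum of `λ_I - λ_{I⁻}` over the places above `S` and infinity, divided by `[L : ℚ]`. The
absolute values are normalised so that the product formula holds: `|b|_w = N(w) ^ (- w(b))`. -/
noncomputable def proximity (S : Finset ℕ) {L : Type} [Field L] [NumberField L] {q : ℕ}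
    (y : Fin q → L) (E : Finset (Fin q → ℕ)) : ℝ :=
  (∑ w : InfinitePlace L, (w.mult : ℝ) * (lamIdeal w.1 y E - lamMinus w.1 y E) +
    ∑ᶠ w ∈ {w : HeightOneSpectrum (𝓞 L) | ∃ p ∈ S, (p : 𝓞 L) ∈ w.asIdeal},
      (lamIdeal (FinitePlace.mk w).1 y E - lamMinus (FinitePlace.mk w).1 y E)) /
    Module.finrank ℚ L

/-- The exceptional points `x` of `ℙ^m`, with a field of definition `K = k(x)` of degree `r` over `k`,
of height at most `log B` and off the hyperplanes: for some `e ≥ 1`, some number field `L ⊇ K`, some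
point `P = (y_0 : … : y_{q-1})` of `X_e` over `L` above `x`, some ideal and some finite set `S` of
primes the inequality
`(θ e - q) h(P) + ∑_{v ∈ S ∪ {∞}} (λ_I - λ_{I⁻})(P, v) ≤ d(L) + ∑_{p ∈ S} log p + c` fails. -/
def exceptional (k : IntermediateField ℚ ℂ) {m q : ℕ} (a : Fin q → Fin (m + 1) → k) (r : ℕ)
    (θ c B : ℝ) : Set (ℙ ℂ (Fin (m + 1) → ℂ)) :=
  {x | ∃ (K : IntermediateField ℚ ℂ) (_ : NumberField K) (h : k ≤ K) (Q : ℙ K (Fin (m + 1) → K)),
    fieldOf k x = K ∧ Module.finrank ℚ K = r * Module.finrank ℚ k ∧ toC Q = x ∧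
    (∀ i, value (liftTo h a i) Q ≠ 0) ∧ height Q ≤ Real.log B ∧
    ∃ (e : ℕ) (L : Type) (_ : Field L) (_ : NumberField L) (_ : Algebra K L) (y : Fin q → L) (t : L)
      (E : Finset (Fin q → ℕ)) (S : Finset ℕ), 1 ≤ e ∧ t ≠ 0 ∧
        (∀ i, y i ^ e = t * algebraMap K L (value (liftTo h a i) Q)) ∧ E.Nonempty ∧
        (∀ p ∈ S, p.Prime) ∧
        logDisc L + ∑ p ∈ S, Real.log p + c < (θ * e - q) * heightOf y + proximity S y E}

lemma exceptional_sub (k : IntermediateField ℚ ℂ) [NumberField k] {m q : ℕ} (hq : m + 1 ≤ q)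
    (a : Fin q → Fin (m + 1) → k)
    (ha : ∀ I : Finset (Fin q), I.card = m + 1 → LinearIndependent k (fun i : I => a i))
    (θ c : ℝ) (hθ : 0 ≤ θ) : ∃ c' : ℝ, ∀ (r : ℕ) (B : ℝ),
      exceptional k a r θ c B ⊆ Exceptions k a r θ c' B := by
  classical
  obtain ⟨A, hA, h⟩ := Pool.Agent.N752.FD.ineq_unif hq ha
  refine ⟨θ * A + A - c, fun r B => ?_⟩
  rintro x ⟨K, hK, hk, Q, hf, hdeg, hQ, hv, hh, e, L, i1, i2, i3, y, t, E, S, he, ht, hy, hE, hS,
    hviol⟩
  refine ⟨K, hK, hk, Q, hf, hdeg, hQ, hv, hh, ?_⟩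
  let _ : Algebra k K := (IntermediateField.inclusion hk).toRingHom.toAlgebra
  have hd : (0 : ℝ) < Module.finrank ℚ K := by exact_mod_cast Module.finrank_pos
  set d : ℝ := (Module.finrank ℚ K : ℝ) with hdd
  have hyne : ∀ i, y i ≠ 0 := by
    intro i h0
    have h3 := hy i
    rw [h0, zero_pow (by omega)] at h3
    have h4 : algebraMap K L (value (liftTo hk a i) Q) ≠ 0 := by
      rw [Ne, map_eq_zero]
      exact hv i
    exact mul_ne_zero ht h4 h3.symm
  obtain ⟨S', h1, h2⟩ := h K Q.rep Q.rep_nonzero hv e (by omega) L y t ht hy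
    (Pool.Agent.TH905.VF.above_finite K S hS).toFinset
  have hprox := Pool.Agent.TH905.VF.proxI_le
    (Pool.Agent.TH905.VF.above_finite K S hS).toFinset y hyne E hE
  refine ⟨S', ?_⟩
  have hL : (0 : ℝ) < Module.finrank K L := Pool.Agent.TH905.VF.finrank_pos'
  have htow : (Module.finrank ℚ L : ℝ) = d * Module.finrank K L := by
    rw [hdd]
    exact_mod_cast (Module.finrank_mul_finrank ℚ K L).symm
  have h3 := Pool.Agent.TH905.VF.sum_above K S hS
    (Pool.Agent.TH905.VF.above_finite K S hS).toFinset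
    fun v hv => (Set.Finite.mem_toFinset (Pool.Agent.TH905.VF.above_finite K S hS)).1 hv
  have h5 : Pool.Agent.TH905.VF.proxI
      (Pool.Agent.TH905.VF.above_finite K S hS).toFinset y E = d * proximity S y E := by
    unfold Pool.Agent.TH905.VF.proxI proximity
    rw [Pool.Agent.TH905.VF.above_eq S hS, htow]
    have e1 : ∀ w : HeightOneSpectrum (𝓞 L),
        Pool.Agent.TH905.VF.lamI (Pool.Agent.H691R3.fv w) y E -
          Pool.Agent.TH905.VF.lamM (Pool.Agent.H691R3.fv w) y E =
        lamIdeal (FinitePlace.mk w).1 y E - lamMinus (FinitePlace.mk w).1 y E :=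
      fun w => rfl
    have e2 : ∀ w : InfinitePlace L, Pool.Agent.TH905.VF.lamI w.1 y E -
        Pool.Agent.TH905.VF.lamM w.1 y E = lamIdeal w.1 y E - lamMinus w.1 y E := fun w => rfl
    simp only [e1, e2]
    rw [mul_div_assoc', mul_div_mul_left _ _ hd.ne']
  have h6 : Pool.Agent.TH905.VF.ld K L = d * logDisc L - Real.log |(discr K : ℝ)| := by
    unfold Pool.Agent.TH905.VF.ld logDisc
    rw [htow]
    field_simp
  have h7 : Pool.Agent.TH905.VF.ht K y = d * heightOf y := by
    unfold Pool.Agent.TH905.VF.ht heightOf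
    rw [htow]
    field_simp
  have h8 : Real.log |(discr K : ℝ)| = d * logDisc K := by
    unfold logDisc
    rw [mul_div_cancel₀ _ hd.ne']
  have h9 : Height.logHeight Q.rep = d * height Q := by
    unfold height
    rw [mul_div_cancel₀ _ hd.ne', Pool.Agent.TH905.VF.rep_height,
      Height.logHeight_eq_log_mulHeight]
  have h10 := mul_lt_mul_of_pos_left hviol hd
  rw [← hdd] at h1 h2 h3
  rw [h6, h7, h8] at h1
  rw [h7, h9] at h2
  rw [h5] at hprox
  have h11 := mul_le_mul_of_nonneg_left h2 hθ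
  have h12 : Pool.Agent.Results.MP_44a246_nt.BoundedDegreeHyperplanes.truncated S' (liftTo hk a) Q =
      Pool.Agent.H57R3.VJ.N1 S' (Pool.Agent.R366.UC.up K a) Q.rep / d := rfl
  have h13 : (∑ v ∈ S', Pool.Agent.Results.MP_44a246_nt.BoundedDegreeHyperplanes.logNorm v) =
      ∑ v ∈ S', Real.log (Pool.Agent.H57R3.VJ.NN v) := rfl
  rw [h12, h13, ← add_div, div_add' _ _ _ hd.ne', div_le_iff₀ hd]
  linarith

/-- **Vojta's conjecture with multiplier ideals for monomial ideals on Fermat intersections, points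
above points of degree `r`.** Let `η > 0`. There is `c₀ ≥ 1` such that the following holds for all
number fields `k ⊆ ℂ`, all `m ≥ 1`, all `q ≥ m + 1` linear forms `a_i` in `m + 1` variables over `k`,
any `m + 1` of them linearly independent, and all `r ≥ 2`; let `n = r [k : ℚ]` and
`α = alpha n c₀ η`. Let `0 ≤ θ < q`, let `c` be real and `δ > 0`. Then all but `C B ^ (n α θ + δ)` of
the points `x` of `ℙ^m`, off the hyperplanes `a_i = 0`, whose field of definition has degree `r` over
`k` and whose height is at most `log B` have the following property: for ALL `e ≥ 1`, ALL points `P`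
of `X_e` above `x`, over any number field `L ⊇ k(x)`, ALL monomial ideals `I` and ALL finite sets `S`
of primes `(θ e - q) h(P) + ∑_{v ∈ S ∪ {∞}} (λ_I - λ_{I⁻})(P, v) ≤ d(L) + ∑_{p ∈ S} log p + c`. And
for every `δ > 0` there are `c₁ > 0` and `B₀` such that for `B ≥ B₀` there are at least
`c₁ B ^ (n (m + 1) - δ)` such points `x` of height at most `log B`. -/
theorem result : ∀ η : ℝ, 0 < η → ∃ c₀ : ℝ, 1 ≤ c₀ ∧
    ∀ (k : IntermediateField ℚ ℂ) [NumberField k] (m q r n : ℕ), 1 ≤ m → m + 1 ≤ q → 2 ≤ r →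
      n = r * Module.finrank ℚ k → ∀ a : Fin q → Fin (m + 1) → k,
      (∀ I : Finset (Fin q), I.card = m + 1 → LinearIndependent k (fun i : I => a i)) →
      (∀ θ c δ : ℝ, 0 ≤ θ → θ < q → 0 < δ → ∃ C : ℝ, ∀ B : ℝ, 1 ≤ B →
        (exceptional k a r θ c B).Finite ∧ ((exceptional k a r θ c B).ncard : ℝ) ≤
          C * B ^ ((n : ℝ) * (alpha n c₀ η * θ) + δ)) ∧
      (∀ δ : ℝ, 0 < δ → ∃ c₁ B₀ : ℝ, 0 < c₁ ∧ ∀ B : ℝ, B₀ ≤ B →
        ∃ F : Finset (ℙ ℂ (Fin (m + 1) → ℂ)), (F : Set (ℙ ℂ (Fin (m + 1) → ℂ))) ⊆ Points k a r B ∧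
          c₁ * B ^ ((n : ℝ) * (m + 1) - δ) ≤ (F.card : ℝ)) := by
  intro η hη
  obtain ⟨c₀, hc₀, H⟩ := Pool.Agent.Results.MP_44a246_nt.BoundedDegreeHyperplanes.result η hη
  refine ⟨c₀, hc₀, ?_⟩
  intro k _ m q r n hm hq hr hn a ha
  obtain ⟨H1, H2⟩ := H k m q r n hm hq hr hn a ha
  refine ⟨fun θ c δ hθ hθq hδ => ?_, H2⟩
  obtain ⟨c', hc'⟩ := exceptional_sub k hq a ha θ c hθ
  obtain ⟨C, hC⟩ := H1 θ c' δ hθ hθq hδ
  refine ⟨C, fun B hB => ?_⟩
  obtain ⟨h1, h2⟩ := hC B hB
  refine ⟨h1.subset (hc' r B), le_trans ?_ h2⟩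
  exact_mod_cast Set.ncard_le_ncard (hc' r B) h1

end Pool.Agent.Results.MP_8865d3_nt.MonomialIdealsDegreeR
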