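import Mathlib
import Pool.Agent.N752.FD.Fermat
import Pool.Agent.N752.FD.Slice
import Pool.Agent.N752.FD.Disc
import Pool.Agent.N752.Shelf.BoundedDegreeHyperplanes

/-!
# The discriminants of the points above points of degree `r`, on every variety

Let `k` be a number field, `m ≥ 1`, `r ≥ 1` and `n = r [k : ℚ] ≥ 2`. We consider the points `x` of `ℙ^m`
whose field of definition `k(x)` has degree `r` over `k`, without zero coordinates. There are at
least `c B ^ (n (m + 1) - δ)` of them of height at most `log B`. Let `φ_e : ℙ^m → ℙ^m` be the map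
`(y_0 : … : y_m) ↦ (y_0 ^ e : … : y_m ^ e)`. We prove: let `e₁ ≥ 2`, `0 ≤ κ < (m + 1) (1 - 1 / e₁)`; for
all but `C B ^ (n E + δ)` of the `x` of height at most `log B`, with
`E = (m + 1) / e₁ + κ + (α - 1) min (κ, 2 r - 2)`,
ALL points `y` of `ℙ^m` above `x`, with respect to the maps `φ_e` for ALL `e ≥ e₁`, over any number
field `L`, satisfy
`d(L) ≥ κ e h(y) + c`, where `e h(y) = h(x)`.
The number `α = alpha n c₀ η = min ((n - 1) (n + 2) / (4 ⌈n / 2⌉), c₀ n ^ η)` is such that there are
`O(Δ ^ α)` number fields of degree `n` and discriminant at most `Δ`; for `n = 2` one has `α = 1`. So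
the exceptional set is small if `κ + (α - 1) min (κ, 2 r - 2) < (m + 1) (1 - 1 / e₁)`: for all
`κ < (m + 1) (1 - 1 / e₁) / α`, and for all `κ < (m + 1) (1 - 1 / e₁) - (α - 1) (2 r - 2)`, which is
almost the whole range if the dimension `m` is large.

**All varieties.** Let `X` be any smooth projective variety over `k`, of dimension `m`, and
`g : X → ℙ^m` a finite map (there are such maps by Noether's normalisation theorem). As the pullback
of a hyperplane is ample, there is `λ ≥ 0` with `h_{K_X}(P) ≤ λ h(g(P)) + O(1)`. By the theorem (with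
`y = g(P)`, `L = k(P)`, `κ e = λ`) Vojta's inequality `h_{K_X}(P) ≤ d_k(P) + O(1)`, even without the
term `ε h_A(P)`, holds for ALL points `P` of `X` above almost all points `x` of degree `r` of `ℙ^m`,
with respect to the map `φ_e ∘ g : X → ℙ^m`, as soon as `e > 1 + α λ / (m + 1)`. The points `P` have
degree at most `r e ^ m deg(g)` over `k`.

**Fermat intersections.** Let `a_0, …, a_{q-1}` be linear forms in `m + 1` variables over `k`, any
`m + 1` of them linearly independent, `q ≥ m + 1`, and let `X_e` be the smooth complete intersection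
of dimension `m` of the points `(y_0 : … : y_{q-1})` with `(y_i ^ e) = (a_i(x))` for some `x` in
`ℙ^m`. We may assume `a_i(x) = x_i` for `i ≤ m`. As `h_K(P) = κ_X e h(P)` with
`κ_X = q (1 - 1 / e) - (m + 1)` and `e h(P) = h(x) + O(1)`, Vojta's inequality holds for all points `P`
of `X_e` above almost all `x` of degree `r` if `α κ_X < (m + 1) (1 - 1 / e)`, that is
`q < (m + 1) (e / (e - 1) + 1 / α)`. For `e = 2` these `X_e` are complete intersections of
`q - m - 1` quadrics, of general type for `q > 2 (m + 1)`; for quadratic points `x` over `ℚ` all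
`q < 3 (m + 1)` are allowed: for example surfaces which are intersections of `4` or `5` quadrics in
`ℙ^6` or `ℙ^7`.

Proof. Let `K = k(x)`. The product formula shows that the truncated counting function of the
coordinate hyperplanes at `x` over `K` is at most the relative discriminant `d(L) - d(K)` plus
`(m + 1) h(y) = (m + 1) h(x) / e`, with constants independent of `K` and `e`. If the inequality
fails, `x` has a truncated counting function of at most `(κ - τ + (m + 1) / e₁) h(x)`, if
`d(K) = τ h(x)`; here `τ ≤ κ`, and `τ ≤ 2 r - 2` up to a bounded term, because some combination of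
the coordinates with bounded coefficients generates `K` over `k`. There are `O(B ^ (n α τ))` such
fields, and for each of them the number of such `x` is bounded by the starting result
`AllFieldsAllDegrees` (MP_9ec3f0), uniformly in the field.
-/

set_option autoImplicit false

namespace Pool.Agent.Results.MP_9b9442_nt.PowerMapFibres

open NumberField IsDedekindDomain
open scoped LinearAlgebra.Projectivization
open Pool.Agent.Results.MP_44a246_nt.BoundedDegreeHyperplanes
  (height logDisc toC fieldOf alpha)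

/-- The absolute logarithmic height of the point `(y_0 : … : y_m)`. -/
noncomputable def heightOf {L : Type} [Field L] [NumberField L] {m : ℕ} (y : Fin (m + 1) → L) : ℝ :=
  Height.logHeight y / Module.finrank ℚ L

/-- The points of `ℙ^m` without zero coordinates whose field of definition has degree `r` over `k`,
of height at most `log B`. -/
def Points (k : IntermediateField ℚ ℂ) (m r : ℕ) (B : ℝ) : Set (ℙ ℂ (Fin (m + 1) → ℂ)) :=
  {x | ∃ (K : IntermediateField ℚ ℂ) (_ : NumberField K) (_ : k ≤ K) (Q : ℙ K (Fin (m + 1) → K)),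
    fieldOf k x = K ∧ Module.finrank ℚ K = r * Module.finrank ℚ k ∧ toC Q = x ∧
    (∀ i, Q.rep i ≠ 0) ∧ height Q ≤ Real.log B}

/-- The points `x` as in `Points` such that for some `e ≥ e₁` and some point
`y = (y_0 : … : y_m)` with `(y_0 ^ e : … : y_m ^ e) = x` over some number field `L` which contains
`K = k(x)` one has `d(L) + c < κ e h(y)`. -/
def exceptional (k : IntermediateField ℚ ℂ) (m r e₁ : ℕ) (κ c B : ℝ) :
    Set (ℙ ℂ (Fin (m + 1) → ℂ)) :=
  {x | ∃ (K : IntermediateField ℚ ℂ) (_ : NumberField K) (_ : k ≤ K) (Q : ℙ K (Fin (m + 1) → K)),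
    fieldOf k x = K ∧ Module.finrank ℚ K = r * Module.finrank ℚ k ∧ toC Q = x ∧
    (∀ i, Q.rep i ≠ 0) ∧ height Q ≤ Real.log B ∧
    ∃ (e : ℕ) (L : Type) (_ : Field L) (_ : NumberField L) (_ : Algebra K L)
      (y : Fin (m + 1) → L) (t : L), e₁ ≤ e ∧ t ≠ 0 ∧
        (∀ i, y i ^ e = t * algebraMap K L (Q.rep i)) ∧ logDisc L + c < κ * (e * heightOf y)}

/-- The exponent `(m + 1) / e₁ + κ + (α - 1) min (κ, 2 r - 2)`. -/
noncomputable def exponent (m r e₁ : ℕ) (α κ : ℝ) : ℝ :=
  ((m : ℝ) + 1) / e₁ + κ + (α - 1) * min κ (2 * (r : ℝ) - 2)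

/-- the coordinate forms -/
noncomputable def crd (k : IntermediateField ℚ ℂ) (m : ℕ) : Fin (m + 1) → Fin (m + 1) → k :=
  fun i => Pi.single i 1

lemma crd_indep (k : IntermediateField ℚ ℂ) (m : ℕ) : ∀ I : Finset (Fin (m + 1)), I.card = m + 1 →
    LinearIndependent k (fun i : I => crd k m i) := by
  intro I _
  have h : LinearIndependent k (crd k m) := by
    have := (Pi.basisFun k (Fin (m + 1))).linearIndependent
    convert this using 1
    funext i
    simp [crd, Pi.basisFun_apply]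
  exact h.comp (fun i : I => (i : Fin (m + 1))) Subtype.val_injective

lemma sum_crd {K : Type} [Field K] (m : ℕ) (f : Fin (m + 1) → K) (i : Fin (m + 1)) :
    ∑ j, (Pi.single i (1 : K) : Fin (m + 1) → K) j * f j = f i := by
  rw [Finset.sum_eq_single i]
  · simp
  · intro j _ hj
    rw [Pi.single_eq_of_ne hj, zero_mul]
  · intro h
    exact absurd (Finset.mem_univ _) h

lemma map_single {k K : Type} [Field k] [Field K] (f : k →+* K) (m : ℕ) (i : Fin (m + 1)) :
    (fun j => f ((Pi.single i (1 : k) : Fin (m + 1) → k) j)) =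
      (Pi.single i (1 : K) : Fin (m + 1) → K) := by
  funext j
  by_cases h : j = i
  · subst h; simp
  · rw [Pi.single_eq_of_ne h, Pi.single_eq_of_ne h, map_zero]

lemma discr_mono {K L : Type} [Field K] [NumberField K] [Field L] [NumberField L] [Algebra K L] :
    logDisc K ≤ logDisc L := by
  obtain ⟨W, h1, h2⟩ := Pool.Agent.TH905.VF.rel (k := K) (L := L) ∅
  have hW : W = ∅ := by
    rw [Finset.eq_empty_iff_forall_notMem]
    intro w hw
    obtain ⟨v, hv, -⟩ := h1 w hw
    exact absurd hv (Finset.notMem_empty v)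
  rw [hW] at h2
  simp only [Finset.sum_empty, add_zero] at h2
  have hd : (0 : ℝ) < Module.finrank ℚ K := by exact_mod_cast Module.finrank_pos
  have hL : (0 : ℝ) < Module.finrank K L := Pool.Agent.TH905.VF.finrank_pos'
  have htow : (Module.finrank ℚ L : ℝ) = Module.finrank ℚ K * Module.finrank K L := by
    exact_mod_cast (Module.finrank_mul_finrank ℚ K L).symm
  unfold logDisc
  rw [htow, div_le_div_iff₀ hd (mul_pos hd hL)]
  nlinarith

lemma exceptional_sub (k : IntermediateField ℚ ℂ) [NumberField k] (m r e₁ : ℕ) (hr : 1 ≤ r)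
    (he₁ : 1 ≤ e₁) (κ c : ℝ) (hκ : 0 ≤ κ) : ∃ c' : ℝ, ∀ B : ℝ, 1 ≤ B →
      exceptional k m r e₁ κ c B ⊆ Pool.Agent.N752.FD.ExcT k (crd k m)
        (r * Module.finrank ℚ k) (κ + ((m : ℝ) + 1) / e₁) (min κ (2 * (r : ℝ) - 2)) c' B := by
  obtain ⟨A, hA, h⟩ := Pool.Agent.N752.FD.ineq_unif (le_refl (m + 1)) (crd_indep k m)
  obtain ⟨C1, hC1, hdisc⟩ := Pool.Agent.N752.FD.disc_bound k m r hr
  refine ⟨A + |c| + C1, fun B hB => ?_⟩
  rintro x ⟨K, hK, hk, Q, hf, hdeg, hQ, hv, hh, e, L, i1, i2, i3, y, t, he, ht, hy, hviol⟩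
  let _ : Algebra k K := (IntermediateField.inclusion hk).toRingHom.toAlgebra
  have hL0 : 0 ≤ Real.log B := Real.log_nonneg hB
  have hd : (0 : ℝ) < Module.finrank ℚ K := by exact_mod_cast Module.finrank_pos
  set d : ℝ := (Module.finrank ℚ K : ℝ) with hdd
  have hup : ∀ i, Pool.Agent.H57R3.VJ.lin (Pool.Agent.R366.UC.up K (crd k m) i) Q.rep = Q.rep i := by
    intro i
    have e1 : Pool.Agent.R366.UC.up K (crd k m) i = (Pi.single i (1 : K) : Fin (m + 1) → K) :=
      map_single (algebraMap k K) m i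
    unfold Pool.Agent.H57R3.VJ.lin
    rw [e1]
    exact sum_crd m Q.rep i
  have hval : ∀ i, Pool.Agent.Results.MP_44a246_nt.BoundedDegreeHyperplanes.value
      (Pool.Agent.Results.MP_44a246_nt.BoundedDegreeHyperplanes.liftTo hk (crd k m) i) Q =
      Q.rep i := hup
  have he0 : e ≠ 0 := by omega
  have hyne : ∀ i, y i ≠ 0 := by
    intro i h0
    have h3 := hy i
    rw [h0, zero_pow he0] at h3
    have h4 : algebraMap K L (Q.rep i) ≠ 0 := by
      rw [Ne, map_eq_zero]
      exact hv i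
    exact mul_ne_zero ht h4 h3.symm
  obtain ⟨S', h1, -⟩ := h K Q.rep Q.rep_nonzero (fun i => by rw [hup]; exact hv i) e he0 L y t ht
    (fun i => by rw [hup]; exact hy i) ∅
  have h2 := Pool.Agent.TH905.VF.ht_pow (k := K) e Q.rep y t ht hy
  have hprox := Pool.Agent.TH905.VF.prox_nonneg (k := K) ∅ y hyne
  have hL : (0 : ℝ) < Module.finrank K L := Pool.Agent.TH905.VF.finrank_pos'
  have htow : (Module.finrank ℚ L : ℝ) = d * Module.finrank K L := by
    rw [hdd]
    exact_mod_cast (Module.finrank_mul_finrank ℚ K L).symm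
  have h6 : Pool.Agent.TH905.VF.ld K L = d * logDisc L - Real.log |(discr K : ℝ)| := by
    unfold Pool.Agent.TH905.VF.ld logDisc
    rw [htow]
    field_simp
  have h7 : Pool.Agent.TH905.VF.ht K y = d * heightOf y := by
    unfold Pool.Agent.TH905.VF.ht heightOf
    rw [htow]
    field_simp
  have h8 : Real.log |(discr K : ℝ)| = d * logDisc K := by
    unfold logDisc
    rw [mul_div_cancel₀ _ hd.ne']
  have h9 : Height.logHeight Q.rep = d * height Q := by
    unfold height
    rw [mul_div_cancel₀ _ hd.ne', Pool.Agent.TH905.VF.rep_height,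
      Height.logHeight_eq_log_mulHeight]
  rw [Finset.sum_empty, add_zero, h6, h7, h8] at h1
  rw [h7, h9] at h2
  have hheq : (e : ℝ) * heightOf y = height Q := by
    have : d * ((e : ℝ) * heightOf y) = d * height Q := by rw [← h2]; ring
    exact mul_left_cancel₀ hd.ne' this
  rw [hheq] at hviol
  have hQ0 : 0 ≤ height Q := by
    have h10 : 0 ≤ Height.logHeight Q.rep := Height.logHeight_nonneg _
    rw [h9] at h10
    exact nonneg_of_mul_nonneg_right h10 hd
  have he₁' : (0 : ℝ) < e₁ := by exact_mod_cast he₁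
  have hee : (e₁ : ℝ) ≤ e := by exact_mod_cast he
  have hy0 : ((m : ℝ) + 1) * heightOf y ≤ ((m : ℝ) + 1) / e₁ * height Q := by
    have h10 : heightOf y ≤ height Q / e₁ := by
      rw [le_div_iff₀ he₁', ← hheq]
      have h11 : 0 ≤ heightOf y := by
        have : (0 : ℝ) < e := lt_of_lt_of_le he₁' hee
        by_contra hc
        push Not at hc
        nlinarith
      nlinarith
    calc ((m : ℝ) + 1) * heightOf y ≤ ((m : ℝ) + 1) * (height Q / e₁) :=
          mul_le_mul_of_nonneg_left h10 (by positivity)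
      _ = _ := by ring
  have hc := neg_abs_le c
  have hdisc1 : logDisc K ≤ logDisc L := discr_mono
  have hdisc2 := hdisc K hK hk Q (by rw [hQ]; exact hf) hdeg
  have hr1 : (1 : ℝ) ≤ r := by exact_mod_cast hr
  refine ⟨K, hK, hk, Q, hdeg, hQ, fun i => by rw [hval]; exact hv i, hh, ?_, S', ?_⟩
  · have e1 : κ * height Q ≤ κ * Real.log B := mul_le_mul_of_nonneg_left hh hκ
    have e2 : (2 * (r : ℝ) - 2) * height Q ≤ (2 * (r : ℝ) - 2) * Real.log B :=
      mul_le_mul_of_nonneg_left hh (by linarith)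
    rcases le_total κ (2 * (r : ℝ) - 2) with h10 | h10
    · rw [min_eq_left h10]
      linarith
    · rw [min_eq_right h10]
      have := abs_nonneg c
      linarith
  · have h12 : Pool.Agent.Results.MP_44a246_nt.BoundedDegreeHyperplanes.truncated S'
        (Pool.Agent.Results.MP_44a246_nt.BoundedDegreeHyperplanes.liftTo hk (crd k m)) Q =
        Pool.Agent.H57R3.VJ.N1 S' (Pool.Agent.R366.UC.up K (crd k m)) Q.rep / d := rfl
    have h13 : (∑ v ∈ S', Pool.Agent.Results.MP_44a246_nt.BoundedDegreeHyperplanes.logNorm v) =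
        ∑ v ∈ S', Real.log (Pool.Agent.H57R3.VJ.NN v) := rfl
    have h14 : Pool.Agent.H57R3.VJ.N1 S' (Pool.Agent.R366.UC.up K (crd k m)) Q.rep +
        ∑ v ∈ S', Real.log (Pool.Agent.H57R3.VJ.NN v) ≤
        d * (logDisc L - logDisc K + ((m : ℝ) + 1) / e₁ * height Q + A) := by
      have h15 := mul_le_mul_of_nonneg_left hy0 hd.le
      push_cast at h1
      rw [← hdd] at h1
      nlinarith
    rw [h12, h13, ← add_div]
    have h16 : (Pool.Agent.H57R3.VJ.N1 S' (Pool.Agent.R366.UC.up K (crd k m)) Q.rep +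
        ∑ v ∈ S', Real.log (Pool.Agent.H57R3.VJ.NN v)) / d ≤
        logDisc L - logDisc K + ((m : ℝ) + 1) / e₁ * height Q + A := by
      rw [div_le_iff₀ hd]
      linarith
    have h17 : (κ + ((m : ℝ) + 1) / e₁) * height Q =
        κ * height Q + ((m : ℝ) + 1) / e₁ * height Q := by ring
    rw [h17]
    linarith

/-- **The discriminants of the points above points of degree `r`.** Let `η > 0`. There is `c₀ ≥ 1`
such that the following holds for all number fields `k ⊆ ℂ`, all `m ≥ 1`, `r ≥ 1` and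
`n = r [k : ℚ] ≥ 2`; let `α = alpha n c₀ η`. Let `e₁ ≥ 1`, `0 ≤ κ < (m + 1) (1 - 1 / e₁)`, let `c` be
real and `δ > 0`. Then all but `C B ^ (n E + δ)`, `E = (m + 1) / e₁ + κ + (α - 1) min (κ, 2 r - 2)`, of
the points `x` of `ℙ^m` without zero coordinates whose field of definition has degree `r` over `k` and
whose height is at most `log B` have the following property: for ALL `e ≥ e₁`, ALL points `y` of
`ℙ^m` with `(y_0 ^ e : … : y_m ^ e) = x`, over any number field `L ⊇ k(x)`, satisfy
`κ e h(y) ≤ d(L) + c`. Moreover `E < m + 1` if `α κ < (m + 1) (1 - 1 / e₁)`, or if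
`κ + (α - 1) (2 r - 2) < (m + 1) (1 - 1 / e₁)`. And for every `δ > 0` there are `c₁ > 0` and `B₀` such
that for `B ≥ B₀` there are at least `c₁ B ^ (n (m + 1) - δ)` such points `x` of height at most
`log B`. -/
theorem result : ∀ η : ℝ, 0 < η → ∃ c₀ : ℝ, 1 ≤ c₀ ∧
    ∀ (k : IntermediateField ℚ ℂ) [NumberField k] (m r n : ℕ), 1 ≤ m → 1 ≤ r →
      n = r * Module.finrank ℚ k → 2 ≤ n →
      (∀ (e₁ : ℕ) (κ c δ : ℝ), 1 ≤ e₁ → 0 ≤ κ → κ < ((m : ℝ) + 1) * (1 - 1 / e₁) → 0 < δ →
        ((alpha n c₀ η * κ < ((m : ℝ) + 1) * (1 - 1 / e₁) ∨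
          κ + (alpha n c₀ η - 1) * (2 * (r : ℝ) - 2) < ((m : ℝ) + 1) * (1 - 1 / e₁)) →
          exponent m r e₁ (alpha n c₀ η) κ < (m : ℝ) + 1) ∧
        ∃ C : ℝ, ∀ B : ℝ, 1 ≤ B → (exceptional k m r e₁ κ c B).Finite ∧
          ((exceptional k m r e₁ κ c B).ncard : ℝ) ≤
            C * B ^ ((n : ℝ) * exponent m r e₁ (alpha n c₀ η) κ + δ)) ∧
      (∀ δ : ℝ, 0 < δ → ∃ c₁ B₀ : ℝ, 0 < c₁ ∧ ∀ B : ℝ, B₀ ≤ B →
        ∃ F : Finset (ℙ ℂ (Fin (m + 1) → ℂ)), (F : Set (ℙ ℂ (Fin (m + 1) → ℂ))) ⊆ Points k m r B ∧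
          c₁ * B ^ ((n : ℝ) * (m + 1) - δ) ≤ (F.card : ℝ)) := by
  intro η hη
  obtain ⟨c₀, hc₀, hα⟩ := Pool.Agent.W223.VD.Points.alpha_admissible hη
  refine ⟨c₀, hc₀, ?_⟩
  intro k _ m r n hm hr hn hn2
  obtain ⟨hα1, hF⟩ := hα n hn2
  have hα1' : 1 ≤ alpha n c₀ η := hα1
  refine ⟨fun e₁ κ c δ he₁ hκ hκ1 hδ => ⟨?_, ?_⟩, fun δ hδ => ?_⟩
  · intro hcond
    have hr1 : (1 : ℝ) ≤ r := by exact_mod_cast hr
    have e1 : ((m : ℝ) + 1) * (1 - 1 / e₁) = (m : ℝ) + 1 - ((m : ℝ) + 1) / e₁ := by ring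
    rw [e1] at hcond
    unfold exponent
    have h0 : 0 ≤ alpha n c₀ η - 1 := by linarith
    rcases hcond with h | h
    · have h2 := mul_le_mul_of_nonneg_left (min_le_left κ (2 * (r : ℝ) - 2)) h0
      linarith
    · have h2 := mul_le_mul_of_nonneg_left (min_le_right κ (2 * (r : ℝ) - 2)) h0
      linarith
  · obtain ⟨c', hc'⟩ := exceptional_sub k m r e₁ hr he₁ κ c hκ
    have hr1 : (1 : ℝ) ≤ r := by exact_mod_cast hr
    have hT0 : 0 ≤ min κ (2 * (r : ℝ) - 2) := le_min hκ (by linarith)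
    have hme : 0 ≤ ((m : ℝ) + 1) / e₁ := by positivity
    have e1 : ((m : ℝ) + 1) * (1 - 1 / e₁) = (m : ℝ) + 1 - ((m : ℝ) + 1) / e₁ := by ring
    obtain ⟨C, hC⟩ := Pool.Agent.N752.FD.upperT k hm (le_refl (m + 1)) (crd k m) (crd_indep k m)
      n (by omega) hα1 hF (κ + ((m : ℝ) + 1) / e₁) (min κ (2 * (r : ℝ) - 2)) c' δ hT0
      ((min_le_left _ _).trans (by linarith)) (by push_cast; linarith) hδ
    refine ⟨C, fun B hB => ?_⟩
    obtain ⟨h1, h2⟩ := hC B hB
    have hsub := hc' B hB
    rw [← hn] at hsub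
    refine ⟨h1.subset hsub, le_trans ?_ (h2.trans (le_of_eq ?_))⟩
    · exact_mod_cast Set.ncard_le_ncard hsub h1
    · congr 2
      show _ = (n : ℝ) * exponent m r e₁ (alpha n c₀ η) κ + δ
      unfold exponent
      have : Pool.Agent.W223.VD.Points.alpha n c₀ η = alpha n c₀ η := rfl
      rw [this]
      ring
  · obtain ⟨c, B₀, hc, h⟩ := Pool.Agent.Results.MP_44a246_nt.BoundedDegreeHyperplanes.lower k hm
      (le_refl (m + 1)) (crd k m) (crd_indep k m) r n hn hr δ hδ
    refine ⟨c, B₀, hc, fun B hB => ?_⟩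
    obtain ⟨F, hF1, hF2⟩ := h B hB
    refine ⟨F, fun x hx => ?_, hF2⟩
    obtain ⟨K, hK, hk, Q, h1, h2, h3, h4, h5⟩ := hF1 hx
    refine ⟨K, hK, hk, Q, h1, h2, h3, fun i => ?_, h5⟩
    have h6 := h4 i
    have e1 : Pool.Agent.Results.MP_44a246_nt.BoundedDegreeHyperplanes.liftTo hk (crd k m) i =
        (Pi.single i (1 : K) : Fin (m + 1) → K) :=
      map_single (IntermediateField.inclusion hk).toRingHom m i
    unfold Pool.Agent.Results.MP_44a246_nt.BoundedDegreeHyperplanes.value at h6
    rw [e1, sum_crd] at h6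
    exact h6

end Pool.Agent.Results.MP_9b9442_nt.PowerMapFibres
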