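import Mathlib
import Pool.Agent.N752.SU.Universal

/-!
# The truncated inequality for almost all points of given degree, for every arrangement of hyperplanes

Let `k` be a number field, `D = H_1 + … + H_q` a divisor of `q ≥ m + 1` hyperplanes in general
position in `ℙ^m` over `k`. The starting result `AllFieldsAllDegrees` bounds, for one extension
`K ⊇ k` at a time, the number of the `K`-points of `ℙ^m` which violate
`N_S^{(1)}(D, P) + ∑_{v ∈ S} log N_v ≥ θ h(P)`, where `θ < q` is arbitrary. Here all extensions of
degree `r` of `k` are considered at once: we count the points `P` of `ℙ^m` over `ℂ` whose field of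
definition `K = k(P)` has degree `r` over `k`, by their absolute height. Let `n = r [k : ℚ]`. We assume
that `P` is not degenerate: the coordinates of `P` span a vector space of dimension `r` over `k`
(`spanDim k P = r`), that is, the coordinates of `P` span `k(P)` over `k`, or: `P` does not lie in a
linear subspace of dimension `r - 2` which is defined over `k`. For `r = 2` this is always true.

We prove that for `m ≥ n + 1`, for ALL `q` and ALL `θ < q` almost all of these points
satisfy `N_S^{(1)}(D, P) + (∑_{v ∈ S} log N_v) / n > θ h(P) + c` for all finite sets `S` of finite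
places of `k(P)`; there is no discriminant term. Moreover there is ONE set of density zero for all
arrangements: for each `D` and each `θ < q` the inequality
`N_S^{(1)}(D, P) + (∑_{v ∈ S} log N_v) / n ≥ θ h(P) - O(1)` holds for all `P` outside of this set. More
precisely, the number of the nondegenerate
points of height at most `log B` is between `c B ^ (n (m + 1) - δ)` and `C B ^ (n (m + 1) + δ)`, and
the number of the exceptional ones is at most `C B ^ (n E + δ)`, where
`E = m + 1 - (1 - 2 α / m) (m + 1 - e)`, `e = expo m q θ < m + 1` is the exponent for one field from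
`AllFieldsAllDegrees`, and `α` is such that there are `O(Δ ^ α)` number fields of degree `n` and
discriminant at most `Δ`; the condition is `2 α < m`, and it holds for `m ≥ n + 1`. In the conjecture
`θ = q - m - 1 - ε`. In `BoundedDegreeHyperplanes` (MP_44a246_nt) the inequality with an additional
term for the discriminant of `k(P)` is proved for almost all points only if `α θ < m + 1`; there `q`
is bounded in terms of `m` and `n`.

Proof. The main new tool is a bound for the number of nondegenerate points over one field which is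
uniform in the field and takes account of the discriminant `Δ_K`: it is
`≪ B ^ (n (m + 1) + δ) |Δ_K| ^ (-m/2 + δ)` (`Pool.Agent.N752.SU.pts_card`). By Minkowski's theorem the
point has integral coordinates `y` with content `𝔟` of norm at most `√|Δ_K| + 1`; for given `𝔟` and given
size of `y` at all infinite places the coordinates are elements of the lattice `𝔟` in a box, and the
box contains `n` linearly independent elements. If `y_1, …, y_n` are such elements with the largest
determinant, then all elements of `𝔟` in the box are combinations of the `y_i` with coefficients of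
absolute value at most `1`, and there are at most `3 ^ n [𝔟 : ∑ ℤ y_i] ≪ B ^ n / √|Δ_K|` of them. So the
fields with large discriminant contain few points, and for the other fields, which are few, we use
`AllFieldsAllDegrees`. The exceptional sets for the countably many arrangements and rational `θ` are
put together by a diagonal argument: far out one removes more and more of them.
-/

set_option autoImplicit false

namespace Pool.Agent.Results.MP_9ec3f0_nt.SpanningPointsAllFields

open NumberField Finset
open scoped LinearAlgebra.Projectivization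
open Pool.Agent.Results.MP_44a246_nt.BoundedDegreeHyperplanes
  (height value logNorm truncated liftTo toC fieldOf Points alpha ExcK n_pos)
open Pool.Agent.N752.SU (spanDim Spans)

/-- The exponent `m + 1 - (1 - 2 α / m) (m + 1 - e)`, where
`e = min (θ (1 - binom(q - m, m + 1) / binom(q, m + 1)), (m + 1) (1 - m (q - θ) / (q (q - 1))))`. -/
noncomputable def exponent (m q : ℕ) (α θ : ℝ) : ℝ :=
  (m : ℝ) + 1 - (1 - 2 * α / m) * ((m : ℝ) + 1 -
    min (θ * (1 - ((q - m).choose (m + 1) : ℝ) / (q.choose (m + 1) : ℝ)))
      (((m : ℝ) + 1) * (1 - (m : ℝ) * ((q : ℝ) - θ) / ((q : ℝ) * ((q : ℝ) - 1)))))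

/-- The points of `ℙ^m` whose field of definition has degree `r` over `k` and whose coordinates span
a vector space of dimension `r` over `k`, off the hyperplanes `a i`, of height at most `log B`. -/
def Nondegenerate (k : IntermediateField ℚ ℂ) {m q : ℕ} (a : Fin q → Fin (m + 1) → k) (r : ℕ)
    (B : ℝ) : Set (ℙ ℂ (Fin (m + 1) → ℂ)) :=
  {P | P ∈ Points k a r B ∧ spanDim k P = r}

/-- The points `P` of `Nondegenerate` with
`N_S^{(1)}(D, P) + (∑_{v ∈ S} log N_v) / [k(P) : ℚ] ≤ θ h(P) + c` for some finite set `S` of finite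
places of `k(P)`. -/
def Exceptional (k : IntermediateField ℚ ℂ) {m q : ℕ} (a : Fin q → Fin (m + 1) → k) (r : ℕ)
    (θ c B : ℝ) : Set (ℙ ℂ (Fin (m + 1) → ℂ)) :=
  {P | spanDim k P = r ∧ ∃ (K : IntermediateField ℚ ℂ) (_ : NumberField K) (h : k ≤ K)
    (Q : ℙ K (Fin (m + 1) → K)),
    fieldOf k P = K ∧ Module.finrank ℚ K = r * Module.finrank ℚ k ∧ toC Q = P ∧
    (∀ i, value (liftTo h a i) Q ≠ 0) ∧ height Q ≤ Real.log B ∧
    ∃ S : Finset (FinitePlace K), truncated S (liftTo h a) Q +
      (∑ v ∈ S, logNorm v) / Module.finrank ℚ K ≤ θ * height Q + c}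

/-- The points of `ℙ^m` whose field of definition has degree `r` over `k` and whose coordinates span
a vector space of dimension `r` over `k`, of absolute logarithmic height at most `T`. -/
def Full (k : IntermediateField ℚ ℂ) (m r : ℕ) (T : ℝ) : Set (ℙ ℂ (Fin (m + 1) → ℂ)) :=
  {P | spanDim k P = r ∧ ∃ (K : IntermediateField ℚ ℂ) (_ : NumberField K) (_ : k ≤ K)
    (Q : ℙ K (Fin (m + 1) → K)), fieldOf k P = K ∧
    Module.finrank ℚ K = r * Module.finrank ℚ k ∧ toC Q = P ∧ height Q ≤ T}

/-- The set `E` contains almost none of the elements of the sets `F B` as `B → ∞`. -/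
def DensityZero {X : Type*} (F : ℝ → Set X) (E : Set X) : Prop :=
  ∀ ε : ℝ, 0 < ε → ∃ B₀ : ℝ, ∀ B : ℝ, B₀ ≤ B → ((E ∩ F B).ncard : ℝ) ≤ ε * ((F B).ncard : ℝ)

/-- **The truncated inequality for almost all points of degree `r`, for every arrangement.** Let
`η > 0`. There is `c₀ ≥ 1` with the following properties.

I. Let `k ⊆ ℂ` be a number field, `m ≥ 1`, `r ≥ 2`, `n = r [k : ℚ]` and `α = alpha n c₀ η`, and suppose
that `2 α < m` and `r ≤ m + 1`; this is the case if `m ≥ n + 1`. There is ONE set `E₀` of points of
`ℙ^m`, of density zero among the points whose field of definition has degree `r` over `k` and whose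
coordinates span a space of dimension `r` over `k`, such that for ALL `q ≥ m + 1`, ALL arrangements
`D` of `q` hyperplanes in general position over `k` and ALL `θ < q` there is a constant `C` such that
`N_S^{(1)}(D, P) + (∑_{v ∈ S} log N_v) / n ≥ θ h(P) - C` for ALL these points `P` outside of `E₀` and off
the hyperplanes, and for ALL finite sets `S` of finite places of `k(P)`.

II. For all number fields `k ⊆ ℂ`, all `m ≥ 1`, all `q ≥ m + 1` hyperplanes in general position in `ℙ^m`
over `k` and all `r ≥ 2`, let `n = r [k : ℚ]` and `α = alpha n c₀ η`, and suppose that `2 α ≤ m`.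
(1) For all `0 ≤ θ < q`, `c` and `δ > 0` there is `C` such that for all `B ≥ 1` there are at most
`C B ^ (n E + δ)`, `E = exponent m q α θ`, points `P` of height at most `log B`, off the hyperplanes,
whose field of definition `k(P)` has degree `r` over `k`, whose coordinates span a vector space
of dimension `r` over `k`, and for which
`N_S^{(1)}(D, P) + (∑_{v ∈ S} log N_v) / n ≤ θ h(P) + c` for some finite set `S` of finite places of
`k(P)`. (2) The number of all points of this kind is at most `C B ^ (n (m + 1) + δ)`, and (3) if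
`r ≤ m + 1` it is at least `c₁ B ^ (n (m + 1) - δ)` for `B ≥ B₀`. (4) If `m ≥ n + 1`, then `2 α < m`, and if
`2 α < m`, then `E < m + 1` for all `θ < q`. -/
theorem result : ∀ η : ℝ, 0 < η → ∃ c₀ : ℝ, 1 ≤ c₀ ∧
    (∀ (k : IntermediateField ℚ ℂ) [NumberField k] (m r n : ℕ), 1 ≤ m → 2 ≤ r →
      n = r * Module.finrank ℚ k → 2 * alpha n c₀ η < m → r ≤ m + 1 →
      ∃ E₀ : Set (ℙ ℂ (Fin (m + 1) → ℂ)), DensityZero (Full k m r) E₀ ∧
        ∀ (q : ℕ), m + 1 ≤ q → ∀ a : Fin q → Fin (m + 1) → k,
        (∀ I : Finset (Fin q), I.card = m + 1 → LinearIndependent k (fun i : I => a i)) →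
        ∀ θ : ℝ, θ < q → ∃ C : ℝ, ∀ (K : IntermediateField ℚ ℂ) (_ : NumberField K) (h : k ≤ K)
          (Q : ℙ K (Fin (m + 1) → K)), fieldOf k (toC Q) = K →
          Module.finrank ℚ K = r * Module.finrank ℚ k → spanDim k (toC Q) = r → toC Q ∉ E₀ →
          (∀ i, value (liftTo h a i) Q ≠ 0) → ∀ S : Finset (FinitePlace K),
            θ * height Q - C ≤ truncated S (liftTo h a) Q +
              (∑ v ∈ S, logNorm v) / Module.finrank ℚ K) ∧
    ∀ (k : IntermediateField ℚ ℂ) [NumberField k] (m q r n : ℕ), 1 ≤ m → m + 1 ≤ q → 2 ≤ r →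
      n = r * Module.finrank ℚ k → ∀ a : Fin q → Fin (m + 1) → k,
      (∀ I : Finset (Fin q), I.card = m + 1 → LinearIndependent k (fun i : I => a i)) →
      (2 * alpha n c₀ η ≤ m →
        (∀ θ c δ : ℝ, 0 ≤ θ → θ < q → 0 < δ → ∃ C : ℝ, ∀ B : ℝ, 1 ≤ B →
          (Exceptional k a r θ c B).Finite ∧ ((Exceptional k a r θ c B).ncard : ℝ) ≤
            C * B ^ ((n : ℝ) * exponent m q (alpha n c₀ η) θ + δ)) ∧
        (∀ δ : ℝ, 0 < δ → ∃ C : ℝ, ∀ B : ℝ, 1 ≤ B →
          (Nondegenerate k a r B).Finite ∧ ((Nondegenerate k a r B).ncard : ℝ) ≤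
            C * B ^ ((n : ℝ) * (m + 1) + δ))) ∧
      (r ≤ m + 1 → ∀ δ : ℝ, 0 < δ → ∃ c₁ B₀ : ℝ, 0 < c₁ ∧ ∀ B : ℝ, B₀ ≤ B →
        ∃ F : Finset (ℙ ℂ (Fin (m + 1) → ℂ)),
          (F : Set (ℙ ℂ (Fin (m + 1) → ℂ))) ⊆ Nondegenerate k a r B ∧
          c₁ * B ^ ((n : ℝ) * (m + 1) - δ) ≤ (F.card : ℝ)) ∧
      (n + 1 ≤ m → 2 * alpha n c₀ η < m) ∧
      (2 * alpha n c₀ η < m → ∀ θ : ℝ, θ < q → exponent m q (alpha n c₀ η) θ < m + 1) := by
  intro η hη
  obtain ⟨c₀, hc₀, hα⟩ := Pool.Agent.W223.VD.Points.alpha_admissible hη
  refine ⟨c₀, hc₀, ?_, ?_⟩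
  · intro k _ m r n hm hr hn hmα hrm
    have hk : 0 < Module.finrank ℚ k := Module.finrank_pos
    have hn2 : 2 ≤ n := by
      rw [hn]
      nlinarith
    obtain ⟨h1, h2⟩ := hα n hn2
    exact Pool.Agent.N752.SU.universal k hm r n hn hn2 (by omega) hrm h1 h2 hmα
  intro k _ m q r n hm hq hr hn a ha
  have hk : 0 < Module.finrank ℚ k := Module.finrank_pos
  have hn2 : 2 ≤ n := by
    rw [hn]
    nlinarith
  obtain ⟨h1, h2⟩ := hα n hn2
  refine ⟨fun hmα => ⟨fun θ c δ hθ hθq hδ => ?_, fun δ hδ => ?_⟩, fun hrm δ hδ => ?_,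
    fun hmn => Pool.Agent.N752.SU.alpha_lt hn2 hmn _ _,
    fun h θ hθ => Pool.Agent.N752.SU.exponent_lt hm hq h hθ⟩
  · exact Pool.Agent.N752.SU.upper k hm hq a ha r n hn hn2 h1 h2 hmα θ c δ hθ hθq hδ
  · exact Pool.Agent.N752.SU.all k hm hq a ha r n hn hn2 h1 h2 hmα δ hδ
  · exact Pool.Agent.N752.SU.lowN k hm hq a ha r n hn (by omega) hrm δ hδ

end Pool.Agent.Results.MP_9ec3f0_nt.SpanningPointsAllFields
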