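import Mathlib
import Pool.Agent.N752.FD.Stack
import Pool.Agent.N752.FD.SliceE
import Pool.Agent.N752.FD.Disc
import Pool.Agent.N752.SU.Universal

/-!
# Vojta's conjecture for root stacks of projective spaces: integral points above almost all points of
# given degree, for every arrangement of hyperplanes

Let `k` be a number field (for example `ℚ`) and `a_0, …, a_{q-1}` linear forms in `m + 1` variables
over `k`, any `m + 1` of them linearly independent, `q ≥ m + 1`, so that the hyperplanes
`H_i : a_i = 0` form a divisor of `ℙ^m` with normal crossings. Let `𝒳` be the root stack of `ℙ^m` of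
order `e_i ≥ 1` along `H_i` for all `i`, a smooth proper Deligne-Mumford stack with coarse space `ℙ^m`
outside of finitely many primes, and for a set `J` of indices let `𝒟_J` be the sum of the stacky
divisors `𝒟_i` above the `H_i`, `i ∈ J`; `e_i 𝒟_i` is the pullback of `H_i`. Then
`h_{K_𝒳 + 𝒟_J}(x) = (q - m - 1 - ∑_{i ∉ J} 1 / e_i) h(x)`.

The starting result `StackyProjectiveSpaces` of this problem is about the points `x` of `ℙ^m` over one
field. Here we consider all the points `x` of `ℙ^m` over `ℂ` whose field of definition `k(x)` has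
degree `r ≥ 2` over `k`, and count them by their height. (Vojta's conjecture for stacks is about the
points of bounded degree, with a term for the discriminant.) Let `n = r [k : ℚ]`. A point `x` off
the `H_i` comes from an integral point of `𝒳` over the ring of `S`-integers of the number field
`L ⊇ k(x)` (`S` a finite set of prime numbers) if for every prime `w` of `L` not above `S` and all `i`
the intersection number of `x` and `H_i` at `w`, that is
`log (|a_i|_w |x|_w / |a_i(x)|_w) / log N(w)`, is divisible by `e_i`.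

We prove: if `m ≥ n + 1`, then there is ONE set `E₀` of points, of density zero among the points `x` of
degree `r` over `k` whose coordinates span a vector space of dimension `r` over `k`, such that for ALL
arrangements `a_0, …, a_{q-1}`, ALL `q` and ALL `θ < q` (in the conjecture `θ = q - m - 1 - δ`)
`(θ - ∑_{i ∉ J} 1 / e_i) h(x) + m_S(∑_{i ∉ J} 𝒟_i, x)`
`  ≤ N^{(1)}(𝒟_J, x) + d(L) - d(k(x)) + ∑_{p ∈ S} log p + C`
for ALL these points `x` outside of `E₀` and off the `H_i`, ALL orders `e_i`, ALL finite sets `S` of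
primes, ALL number fields `L ⊇ k(x)` over which `x` comes from an integral point of `𝒳`, and ALL `J`;
`C` depends only on the arrangement and on `θ`. Here `m_S` is the proximity function, a sum over
the places above `S` and infinity, and `N^{(1)}` and `d(L)` are the truncated counting function and
the logarithmic discriminant of the point over `L`. The difference `d(L) - d(k(x))` is the
logarithm of the norm of the relative discriminant, divided by `[L : ℚ]`.

For all `m` and `r` the same inequality with `d(L)` instead of `d(L) - d(k(x))` holds above all but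
`C B ^ (n E + δ)` of the points `x` of degree `r` over `k` and of height at most `log B`, of which
there are at least `c B ^ (n (m + 1) - δ)`, with the exponent `E ≤ α θ` defined below, where there are
`O(Δ ^ α)` number fields of degree `n` and discriminant at most `Δ`; so this is true above almost
all `x` if `α θ < m + 1`, or if `α (2 r - 2) q (q - 1) < m (m + 1) (q - θ + 2 r - 2)`.

Proof. If the prime `v` of `K = k(x)` is not above `S` and `x` meets some `H_i` at `v`, then it does at
all primes of `L` above `v`, with a multiple of `e_i` as intersection number. So the truncated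
counting function of `∑ H_i` over `K` is at most the relative discriminant plus the truncated counting
function of `𝒟_J` over `L` plus, for `i ∉ J`, `1 / e_i` times the sum of the local heights with
respect to `H_i` at the primes not above `S`, which is `h(x) - m_S(H_i, x) + O(1)` by the product
formula; the constants do not depend on `K`. Finally the truncated counting function over `k(x)` is at
least `θ h(x) - O(1)` outside of a small set by `SpanningPointsAllFields` (MP_9ec3f0_nt).
-/

set_option autoImplicit false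

namespace Pool.Agent.Results.MP_a41896_nt.StackyPointsOfDegreeR

open NumberField IsDedekindDomain
open scoped LinearAlgebra.Projectivization
open Pool.Agent.Results.MP_44a246_nt.BoundedDegreeHyperplanes
  (height value logDisc liftTo toC fieldOf Points alpha)
open Pool.Agent.N752.SU (spanDim)

/-- The points of `ℙ^m` whose field of definition has degree `r` over `k` and whose coordinates span
a vector space of dimension `r` over `k`, of absolute logarithmic height at most `T`. -/
def Full (k : IntermediateField ℚ ℂ) (m r : ℕ) (T : ℝ) : Set (ℙ ℂ (Fin (m + 1) → ℂ)) :=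
  {P | spanDim k P = r ∧ ∃ (K : IntermediateField ℚ ℂ) (_ : NumberField K) (_ : k ≤ K)
    (Q : ℙ K (Fin (m + 1) → K)), fieldOf k P = K ∧
    Module.finrank ℚ K = r * Module.finrank ℚ k ∧ toC Q = P ∧ height Q ≤ T}

/-- The set `E` contains almost none of the elements of the sets `F B` as `B → ∞`. -/
def DensityZero {X : Type*} (F : ℝ → Set X) (E : Set X) : Prop :=
  ∀ ε : ℝ, 0 < ε → ∃ B₀ : ℝ, ∀ B : ℝ, B₀ ≤ B → ((E ∩ F B).ncard : ℝ) ≤ ε * ((F B).ncard : ℝ)

/-- The exponent `E = α T + min ((θ - T) (1 - binom(q - m, m + 1) / binom(q, m + 1)),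
(m + 1) (1 - m (q - θ + T) / (q (q - 1))))` with `T = min (θ, 2 r - 2)`. -/
noncomputable def exponent (m q r : ℕ) (α θ : ℝ) : ℝ :=
  α * min θ (2 * r - 2) +
    min ((θ - min θ (2 * r - 2)) *
        (1 - ((q - m).choose (m + 1) : ℝ) / (q.choose (m + 1) : ℝ)))
      (((m : ℝ) + 1) * (1 - (m : ℝ) * ((q : ℝ) - (θ - min θ (2 * r - 2))) /
        ((q : ℝ) * ((q : ℝ) - 1))))

/-- The local height `log (|b|_w |x|_w / |b(x)|_w)` of `x` with respect to the hyperplane `b = 0` at
the prime `w` of `L`, for the absolute value `|z|_w = N(w) ^ (- w(z))`: `log N(w)` times the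
intersection number at `w`. -/
noncomputable def localHeight {K : Type} (L : Type) [Field K] [Field L] [NumberField L] [Algebra K L]
    {m : ℕ} (b x : Fin (m + 1) → K) (w : HeightOneSpectrum (𝓞 L)) : ℝ :=
  Real.log ((⨆ j, FinitePlace.mk w (algebraMap K L (b j))) *
    (⨆ j, FinitePlace.mk w (algebraMap K L (x j))) /
      FinitePlace.mk w (algebraMap K L (∑ j, b j * x j)))

/-- The local height `log (|b|_w |x|_w / |b(x)|_w)` at the infinite place `w` of `L`. -/
noncomputable def localHeightInf {K : Type} (L : Type) [Field K] [Field L] [NumberField L]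
    [Algebra K L] {m : ℕ} (b x : Fin (m + 1) → K) (w : InfinitePlace L) : ℝ :=
  Real.log ((⨆ j, w (algebraMap K L (b j))) * (⨆ j, w (algebraMap K L (x j))) /
    w (algebraMap K L (∑ j, b j * x j)))

/-- The prime `w` of `L` is not above a prime number in `S`. -/
def Outside {L : Type} [Field L] [NumberField L] (S : Finset ℕ) (w : HeightOneSpectrum (𝓞 L)) :
    Prop := ∀ p ∈ S, (p : 𝓞 L) ∉ w.asIdeal

open Classical in
/-- The truncated counting function `N^{(1)}(𝒟_J, x)`: the sum of `log N(w) / [L : ℚ]` over the primes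
`w` of `L` not above `S` at which the local height with respect to some `H_i`, `i ∈ J`, is
positive. -/
noncomputable def truncated {K : Type} (L : Type) [Field K] [Field L] [NumberField L] [Algebra K L]
    {m q : ℕ} (S : Finset ℕ) (a : Fin q → Fin (m + 1) → K) (J : Finset (Fin q))
    (x : Fin (m + 1) → K) : ℝ :=
  (∑ᶠ w : HeightOneSpectrum (𝓞 L), if Outside S w ∧ ∃ i ∈ J, 0 < localHeight L (a i) x w
    then Real.log (Ideal.absNorm w.asIdeal) else 0) / Module.finrank ℚ L

/-- The point `x` comes from an integral point over the `S`-integers of `L` of the root stack with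
orders `e_i`: all intersection numbers with `H_i` outside `S` are divisible by `e_i`. -/
def Integral {K : Type} (L : Type) [Field K] [Field L] [NumberField L] [Algebra K L] {m q : ℕ}
    (S : Finset ℕ) (a : Fin q → Fin (m + 1) → K) (e : Fin q → ℕ) (x : Fin (m + 1) → K) : Prop :=
  ∀ w : HeightOneSpectrum (𝓞 L), Outside S w → ∀ i, ∃ t : ℕ,
    localHeight L (a i) x w = t * e i * Real.log (Ideal.absNorm w.asIdeal)

/-- The proximity function `m_S(H, x)` of the hyperplane `H : b = 0`, the sum of the local heights at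
the places of `L` above `S` and infinity, divided by `[L : ℚ]`. -/
noncomputable def proximity {K : Type} (L : Type) [Field K] [Field L] [NumberField L] [Algebra K L]
    {m : ℕ} (S : Finset ℕ) (b x : Fin (m + 1) → K) : ℝ :=
  (∑ w : InfinitePlace L, (w.mult : ℝ) * localHeightInf L b x w +
    ∑ᶠ w ∈ {w : HeightOneSpectrum (𝓞 L) | ¬ Outside S w}, localHeight L b x w) /
      Module.finrank ℚ L

/-- The exceptional points `x` of `ℙ^m`, with a field of definition `K = k(x)` of degree `r` over `k`,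
of height at most `log B` and off the hyperplanes: for some number field `L ⊇ K`, some finite set
`S` of primes, some orders `e_i ≥ 1` such that `x` comes from an integral point over the `S`-integers
of `L`, and some `J`, the inequality
`(θ - ∑_{i ∉ J} 1 / e_i) h(x) + m_S(∑_{i ∉ J} 𝒟_i, x) ≤ N^{(1)}(𝒟_J, x) + d(L) + ∑_{p ∈ S} log p + c`
fails. -/
def exceptional (k : IntermediateField ℚ ℂ) {m q : ℕ} (a : Fin q → Fin (m + 1) → k) (r : ℕ)
    (θ c B : ℝ) : Set (ℙ ℂ (Fin (m + 1) → ℂ)) :=
  {x | ∃ (K : IntermediateField ℚ ℂ) (_ : NumberField K) (h : k ≤ K) (Q : ℙ K (Fin (m + 1) → K)),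
    fieldOf k x = K ∧ Module.finrank ℚ K = r * Module.finrank ℚ k ∧ toC Q = x ∧
    (∀ i, value (liftTo h a i) Q ≠ 0) ∧ height Q ≤ Real.log B ∧
    ∃ (L : Type) (_ : Field L) (_ : NumberField L) (_ : Algebra K L) (S : Finset ℕ)
      (e : Fin q → ℕ) (J : Finset (Fin q)), (∀ p ∈ S, p.Prime) ∧ (∀ i, 1 ≤ e i) ∧
        Integral L S (liftTo h a) e Q.rep ∧
        truncated L S (liftTo h a) J Q.rep + logDisc L + ∑ p ∈ S, Real.log p + c <
          (θ - ∑ i ∈ Jᶜ, 1 / (e i : ℝ)) * height Q +
            ∑ i ∈ Jᶜ, 1 / (e i : ℝ) * proximity L S (liftTo h a i) Q.rep}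

/-- the inequality for all the integral points above the points over the extensions of `k` -/
lemma main (k : IntermediateField ℚ ℂ) [NumberField k] {m q : ℕ} (hq : m + 1 ≤ q)
    (a : Fin q → Fin (m + 1) → k)
    (ha : ∀ I : Finset (Fin q), I.card = m + 1 → LinearIndependent k (fun i : I => a i)) :
    ∃ A : ℝ, ∀ (K : IntermediateField ℚ ℂ) (_ : NumberField K) (hk : k ≤ K)
      (Q : ℙ K (Fin (m + 1) → K)), (∀ i, value (liftTo hk a i) Q ≠ 0) →
      ∀ (L : Type) (_ : Field L) (_ : NumberField L) (_ : Algebra K L) (S : Finset ℕ)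
        (e : Fin q → ℕ) (J : Finset (Fin q)), (∀ p ∈ S, p.Prime) → (∀ i, 1 ≤ e i) →
        Integral L S (liftTo hk a) e Q.rep → ∃ S' : Finset (FinitePlace K),
        Pool.Agent.Results.MP_44a246_nt.BoundedDegreeHyperplanes.truncated S' (liftTo hk a) Q +
          (∑ v ∈ S', Pool.Agent.Results.MP_44a246_nt.BoundedDegreeHyperplanes.logNorm v) /
            Module.finrank ℚ K + logDisc K +
          ∑ i ∈ Jᶜ, 1 / (e i : ℝ) * proximity L S (liftTo hk a i) Q.rep ≤
        truncated L S (liftTo hk a) J Q.rep + logDisc L + ∑ p ∈ S, Real.log p +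
          (∑ i ∈ Jᶜ, 1 / (e i : ℝ)) * height Q + A := by
  classical
  have ha0 : ∀ i, a i ≠ 0 := Pool.Agent.H57R3.VJ.GenPos.ne_zero ha hq
  obtain ⟨A, hA, h⟩ := Pool.Agent.N752.FD.stack_unif (a := a) ha0
  refine ⟨A, fun K hK hk Q hv L i1 i2 i3 S e J hS he hint => ?_⟩
  let _ : Algebra k K := (IntermediateField.inclusion hk).toRingHom.toAlgebra
  have hd : (0 : ℝ) < Module.finrank ℚ K := by exact_mod_cast Module.finrank_pos
  set d : ℝ := (Module.finrank ℚ K : ℝ) with hdd
  have hL : (0 : ℝ) < Module.finrank K L := Pool.Agent.TH905.VF.finrank_pos'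
  have htow : (Module.finrank ℚ L : ℝ) = d * Module.finrank K L := by
    rw [hdd]
    exact_mod_cast (Module.finrank_mul_finrank ℚ K L).symm
  set SK := (Pool.Agent.TH905.VF.above_finite K S hS).toFinset with hSK
  have hout : ∀ w : HeightOneSpectrum (𝓞 L),
      (∀ v ∈ SK, ¬ w.asIdeal.LiesOver v.asIdeal) ↔ Outside S w := by
    intro w
    have h1 := Set.ext_iff.1 (Pool.Agent.TH905.VF.above_eq (K := K) (L := L) S hS) w
    simp only [Set.mem_ofPred_eq] at h1
    unfold Outside
    constructor
    · intro h2 p hp hpw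
      obtain ⟨v, hv1, hv2⟩ := h1.2 ⟨p, hp, hpw⟩
      exact h2 v hv1 hv2
    · intro h2 v hv1 hv2
      obtain ⟨p, hp, hpw⟩ := h1.1 ⟨v, hv1, hv2⟩
      exact h2 p hp hpw
  have hlam : ∀ i (w : HeightOneSpectrum (𝓞 L)),
      Pool.Agent.TH905.VF.lamL (Pool.Agent.R366.UC.up K a i) Q.rep w =
        localHeight L (liftTo hk a i) Q.rep w := fun i w => rfl
  have h1 := h K Q.rep Q.rep_nonzero hv L SK e he J
    (fun w hw i => by rw [hlam]; exact hint w ((hout w).1 hw) i)
  refine ⟨SK.image FinitePlace.mk, ?_⟩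
  -- the truncated counting function over `L`
  have h2 : Pool.Agent.TH905.VF.nJ L SK (Pool.Agent.R366.UC.up K a) J Q.rep =
      d * truncated L S (liftTo hk a) J Q.rep := by
    unfold Pool.Agent.TH905.VF.nJ truncated
    rw [htow, mul_div_assoc', mul_div_mul_left _ _ hd.ne']
    congr 1
    refine finsum_congr fun w => if_congr (and_congr (hout w) Iff.rfl) rfl rfl
  have h3 : ∀ i, Pool.Agent.N752.FD.proxL L SK (Pool.Agent.R366.UC.up K a i) Q.rep =
      d * proximity L S (liftTo hk a i) Q.rep := by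
    intro i
    unfold Pool.Agent.N752.FD.proxL proximity
    have e1 : {w : HeightOneSpectrum (𝓞 L) | ∃ v ∈ SK, w.asIdeal.LiesOver v.asIdeal} =
        {w : HeightOneSpectrum (𝓞 L) | ¬ Outside S w} := by
      ext w
      simp only [Set.mem_ofPred_eq]
      rw [← hout w]
      push Not
      rfl
    rw [e1, htow, mul_div_assoc', mul_div_mul_left _ _ hd.ne']
    rfl
  have h4 : Pool.Agent.TH905.VF.ld K L = d * logDisc L - d * logDisc K := by
    unfold Pool.Agent.TH905.VF.ld logDisc
    rw [htow, mul_div_cancel₀ _ hd.ne']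
    field_simp
  have h5 : Height.logHeight Q.rep = d * height Q := by
    unfold height
    rw [mul_div_cancel₀ _ hd.ne', Pool.Agent.TH905.VF.rep_height,
      Height.logHeight_eq_log_mulHeight]
  have h6 := Pool.Agent.TH905.VF.sum_above K S hS SK
    fun v hv => (Set.Finite.mem_toFinset (Pool.Agent.TH905.VF.above_finite K S hS)).1 hv
  have h7 : ∑ v ∈ SK.image FinitePlace.mk,
      Pool.Agent.Results.MP_44a246_nt.BoundedDegreeHyperplanes.logNorm v ≤
      ∑ v ∈ SK, Real.log (Ideal.absNorm v.asIdeal) := by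
    have h8 := Finset.sum_image_le_of_nonneg (s := SK) (g := FinitePlace.mk)
      (f := fun v : FinitePlace K =>
        Pool.Agent.Results.MP_44a246_nt.BoundedDegreeHyperplanes.logNorm v)
      (fun v _ => Pool.Agent.Results.MP_44a246_nt.BoundedDegreeHyperplanes.logNorm_nonneg v)
    refine h8.trans (le_of_eq (Finset.sum_congr rfl fun v _ => ?_))
    show Real.log (Ideal.absNorm (FinitePlace.mk v).maximalIdeal.asIdeal) = _
    rw [FinitePlace.maximalIdeal_mk]
  have h8 : Pool.Agent.Results.MP_44a246_nt.BoundedDegreeHyperplanes.truncated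
      (SK.image FinitePlace.mk) (liftTo hk a) Q = Pool.Agent.H57R3.VJ.N1
        (SK.image FinitePlace.mk) (Pool.Agent.R366.UC.up K a) Q.rep / d := rfl
  rw [← hdd] at h1 h6
  simp only [h3] at h1
  rw [h2, h4, h5] at h1
  have h9 : ∑ i ∈ Jᶜ, 1 / (e i : ℝ) * (d * proximity L S (liftTo hk a i) Q.rep) =
      d * ∑ i ∈ Jᶜ, 1 / (e i : ℝ) * proximity L S (liftTo hk a i) Q.rep := by
    rw [Finset.mul_sum]
    exact Finset.sum_congr rfl fun i _ => by ring
  rw [h9] at h1
  rw [h8, ← add_div]
  refine le_of_mul_le_mul_left ?_ hd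
  have h10 : d * ((Pool.Agent.H57R3.VJ.N1 (SK.image FinitePlace.mk)
        (Pool.Agent.R366.UC.up K a) Q.rep + ∑ v ∈ SK.image FinitePlace.mk,
      Pool.Agent.Results.MP_44a246_nt.BoundedDegreeHyperplanes.logNorm v) / d + logDisc K +
      ∑ i ∈ Jᶜ, 1 / (e i : ℝ) * proximity L S (liftTo hk a i) Q.rep) =
      Pool.Agent.H57R3.VJ.N1 (SK.image FinitePlace.mk) (Pool.Agent.R366.UC.up K a) Q.rep +
      ∑ v ∈ SK.image FinitePlace.mk,
        Pool.Agent.Results.MP_44a246_nt.BoundedDegreeHyperplanes.logNorm v + d * logDisc K +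
      d * ∑ i ∈ Jᶜ, 1 / (e i : ℝ) * proximity L S (liftTo hk a i) Q.rep := by
    field_simp
  rw [h10]
  have h11 : d * (truncated L S (liftTo hk a) J Q.rep + logDisc L + ∑ p ∈ S, Real.log p +
      (∑ i ∈ Jᶜ, 1 / (e i : ℝ)) * height Q + A) =
      d * truncated L S (liftTo hk a) J Q.rep + d * logDisc L + d * ∑ p ∈ S, Real.log p +
      (∑ i ∈ Jᶜ, 1 / (e i : ℝ)) * (d * height Q) + d * A := by ring
  rw [h11]
  linarith

lemma exceptional_sub (k : IntermediateField ℚ ℂ) [NumberField k] {m q : ℕ} (hq : m + 1 ≤ q)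
    (a : Fin q → Fin (m + 1) → k)
    (ha : ∀ I : Finset (Fin q), I.card = m + 1 → LinearIndependent k (fun i : I => a i))
    (θ c : ℝ) (hθ : 0 ≤ θ) (r n : ℕ) (hr : 2 ≤ r) (hn : n = r * Module.finrank ℚ k) :
    ∃ c' : ℝ, ∀ (B : ℝ), 1 ≤ B →
      exceptional k a r θ c B ⊆ Pool.Agent.N752.FD.ExcT k a n θ (min θ (2 * r - 2)) c' B := by
  have hr1 : (2 : ℝ) ≤ r := by exact_mod_cast hr
  obtain ⟨A, h⟩ := main k hq a ha
  obtain ⟨CD, hCD, hdisc⟩ := Pool.Agent.N752.FD.disc_bound k m r (by omega)
  refine ⟨|A - c| + CD, fun B hB => ?_⟩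
  rintro x ⟨K, hK, hk, Q, hf, hdeg, hQ, hv, hh, L, i1, i2, i3, S, e, J, hS, he, hint, hviol⟩
  have hL0 : 0 ≤ Real.log B := Real.log_nonneg hB
  have hdc := hdisc K hK hk Q (by rw [hQ, hf]) hdeg
  obtain ⟨S', hS'⟩ := h K hK hk Q hv L i1 i2 i3 S e J hS he hint
  have hS'' : Pool.Agent.Results.MP_44a246_nt.BoundedDegreeHyperplanes.truncated S'
      (liftTo hk a) Q +
      (∑ v ∈ S', Pool.Agent.Results.MP_44a246_nt.BoundedDegreeHyperplanes.logNorm v) /
        Module.finrank ℚ K + logDisc K ≤ θ * height Q + (A - c) := by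
    have h1 : (θ - ∑ i ∈ Jᶜ, 1 / (e i : ℝ)) * height Q =
        θ * height Q - (∑ i ∈ Jᶜ, 1 / (e i : ℝ)) * height Q := by ring
    rw [h1] at hviol
    linarith
  have hcc := le_abs_self (A - c)
  refine ⟨K, hK, hk, Q, by rw [hdeg, hn], hQ, hv, hh, ?_, S', by linarith⟩
  have h1 : logDisc K ≤ θ * Real.log B + (|A - c| + CD) := by
    have h2 := Pool.Agent.Results.MP_44a246_nt.BoundedDegreeHyperplanes.truncated_nonneg S'
      (liftTo hk a) Q
    have h3 : 0 ≤ (∑ v ∈ S',
        Pool.Agent.Results.MP_44a246_nt.BoundedDegreeHyperplanes.logNorm v) /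
          (Module.finrank ℚ K : ℝ) :=
      div_nonneg (Finset.sum_nonneg fun v _ =>
        Pool.Agent.Results.MP_44a246_nt.BoundedDegreeHyperplanes.logNorm_nonneg v)
        (Pool.Agent.Results.MP_44a246_nt.BoundedDegreeHyperplanes.n_pos K).le
    have h4 := mul_le_mul_of_nonneg_left hh hθ
    linarith
  have h5 : logDisc K ≤ (2 * (r : ℝ) - 2) * Real.log B + (|A - c| + CD) := by
    have h6 := mul_le_mul_of_nonneg_left hh (show (0 : ℝ) ≤ 2 * (r : ℝ) - 2 by linarith)
    have h7 := abs_nonneg (A - c)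
    linarith
  rcases min_choice θ (2 * (r : ℝ) - 2) with h8 | h8
  · rw [h8]; exact h1
  · rw [h8]; exact h5

/-- **Vojta's conjecture for the root stacks of projective spaces along hyperplanes, integral points
above the points of degree `r`.** Let `η > 0`. There is `c₀ ≥ 1` with the following properties.

I. Let `k ⊆ ℂ` be a number field, `m ≥ 1`, `r ≥ 2`, `n = r [k : ℚ]` and `α = alpha n c₀ η`, and suppose
that `2 α < m` and `r ≤ m + 1`; this is the case if `m ≥ n + 1`. There is ONE set `E₀` of points of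
`ℙ^m`, of density zero among the points whose field of definition has degree `r` over `k` and whose
coordinates span a space of dimension `r` over `k`, such that for ALL `q ≥ m + 1`, ALL families of `q`
linear forms `a_i` over `k`, any `m + 1` of them linearly independent, and ALL `θ < q` there is a
constant `C` with the following property: for ALL these points `x` outside of `E₀` and off the
hyperplanes, ALL number fields `L ⊇ k(x)`, ALL finite sets `S` of primes and ALL orders `e_i ≥ 1` such
that `x` comes from an integral point over the `S`-integers of `L` of the root stack with orders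
`e_i`, and ALL sets `J` of indices
`(θ - ∑_{i ∉ J} 1 / e_i) h(x) + ∑_{i ∉ J} m_S(H_i, x) / e_i ≤`
`N^{(1)}(𝒟_J, x) + d(L) - d(k(x)) + ∑_{p ∈ S} log p + C`.

II. For all number fields `k ⊆ ℂ`, all `m ≥ 1`, all `q ≥ m + 1` linear forms `a_i` in `m + 1` variables
over `k`, any `m + 1` of them linearly independent, and all `r ≥ 2`, let `n = r [k : ℚ]` and
`α = alpha n c₀ η`. Let `0 ≤ θ < q`, let `c` be real and `δ > 0`. Then all but `C B ^ (n E + δ)`,
`E = exponent m q r α θ`, of the points `x` of `ℙ^m`, off the hyperplanes `a_i = 0`, whose field of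
definition has degree `r` over `k` and whose height is at most `log B` have the following property:
for ALL `L`, `S`, `e_i` and `J` as in I
`(θ - ∑_{i ∉ J} 1 / e_i) h(x) + ∑_{i ∉ J} m_S(H_i, x) / e_i ≤ N^{(1)}(𝒟_J, x) + d(L) + ∑_{p ∈ S} log p + c`.
And for every `δ > 0` there are `c₁ > 0` and `B₀` such that for `B ≥ B₀` there are at least
`c₁ B ^ (n (m + 1) - δ)` such points `x` of height at most `log B`. Finally `E < m + 1` if
`θ ≤ 2 r - 2` and `α θ < m + 1`, and if `2 r - 2 ≤ θ` and
`α (2 r - 2) q (q - 1) < m (m + 1) (q - θ + 2 r - 2)`; and `2 α < m` if `m ≥ n + 1`. -/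
theorem result : ∀ η : ℝ, 0 < η → ∃ c₀ : ℝ, 1 ≤ c₀ ∧
    (∀ (k : IntermediateField ℚ ℂ) [NumberField k] (m r n : ℕ), 1 ≤ m → 2 ≤ r →
      n = r * Module.finrank ℚ k → 2 * alpha n c₀ η < m → r ≤ m + 1 →
      ∃ E₀ : Set (ℙ ℂ (Fin (m + 1) → ℂ)), DensityZero (Full k m r) E₀ ∧
        ∀ (q : ℕ), m + 1 ≤ q → ∀ a : Fin q → Fin (m + 1) → k,
        (∀ I : Finset (Fin q), I.card = m + 1 → LinearIndependent k (fun i : I => a i)) →
        ∀ θ : ℝ, θ < q → ∃ C : ℝ, ∀ (K : IntermediateField ℚ ℂ) (_ : NumberField K)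
          (h : k ≤ K) (Q : ℙ K (Fin (m + 1) → K)), fieldOf k (toC Q) = K →
          Module.finrank ℚ K = r * Module.finrank ℚ k → spanDim k (toC Q) = r → toC Q ∉ E₀ →
          (∀ i, value (liftTo h a i) Q ≠ 0) →
          ∀ (L : Type) (_ : Field L) (_ : NumberField L) (_ : Algebra K L) (S : Finset ℕ)
            (e : Fin q → ℕ) (J : Finset (Fin q)), (∀ p ∈ S, p.Prime) → (∀ i, 1 ≤ e i) →
            Integral L S (liftTo h a) e Q.rep →
            (θ - ∑ i ∈ Jᶜ, 1 / (e i : ℝ)) * height Q +
                ∑ i ∈ Jᶜ, 1 / (e i : ℝ) * proximity L S (liftTo h a i) Q.rep ≤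
              truncated L S (liftTo h a) J Q.rep + (logDisc L - logDisc K) +
                ∑ p ∈ S, Real.log p + C) ∧
    ∀ (k : IntermediateField ℚ ℂ) [NumberField k] (m q r n : ℕ), 1 ≤ m → m + 1 ≤ q → 2 ≤ r →
      n = r * Module.finrank ℚ k → ∀ a : Fin q → Fin (m + 1) → k,
      (∀ I : Finset (Fin q), I.card = m + 1 → LinearIndependent k (fun i : I => a i)) →
      (∀ θ c δ : ℝ, 0 ≤ θ → θ < q → 0 < δ → ∃ C : ℝ, ∀ B : ℝ, 1 ≤ B →
        (exceptional k a r θ c B).Finite ∧ ((exceptional k a r θ c B).ncard : ℝ) ≤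
          C * B ^ ((n : ℝ) * exponent m q r (alpha n c₀ η) θ + δ)) ∧
      (∀ δ : ℝ, 0 < δ → ∃ c₁ B₀ : ℝ, 0 < c₁ ∧ ∀ B : ℝ, B₀ ≤ B →
        ∃ F : Finset (ℙ ℂ (Fin (m + 1) → ℂ)), (F : Set (ℙ ℂ (Fin (m + 1) → ℂ))) ⊆ Points k a r B ∧
          c₁ * B ^ ((n : ℝ) * (m + 1) - δ) ≤ (F.card : ℝ)) ∧
      (∀ θ : ℝ, θ ≤ 2 * r - 2 → alpha n c₀ η * θ < m + 1 →
        exponent m q r (alpha n c₀ η) θ < m + 1) ∧
      (∀ θ : ℝ, 2 * r - 2 ≤ θ →
        alpha n c₀ η * (2 * r - 2) * (q * (q - 1)) < m * (m + 1) * (q - θ + (2 * r - 2)) →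
        exponent m q r (alpha n c₀ η) θ < m + 1) ∧
      (n + 1 ≤ m → 2 * alpha n c₀ η < m) := by
  intro η hη
  obtain ⟨c₀, hc₀, hα⟩ := Pool.Agent.W223.VD.Points.alpha_admissible hη
  refine ⟨c₀, hc₀, ?_, ?_⟩
  · intro k _ m r n hm hr hn hmα hrm
    have hk : 0 < Module.finrank ℚ k := Module.finrank_pos
    have hn2 : 2 ≤ n := by
      rw [hn]
      nlinarith
    obtain ⟨h1, h2⟩ := hα n hn2
    obtain ⟨E₀, hE₀, hall⟩ :=
      Pool.Agent.N752.SU.universal k hm r n hn hn2 (by omega) hrm h1 h2 hmα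
    refine ⟨E₀, hE₀, fun q hq a ha θ hθq => ?_⟩
    obtain ⟨C, hC⟩ := hall q hq a ha θ hθq
    obtain ⟨A, hA⟩ := main k hq a ha
    refine ⟨C + A, fun K hK h Q hf hdeg hsp hQE hv L i1 i2 i3 S e J hS he hint => ?_⟩
    obtain ⟨S', hS'⟩ := hA K hK h Q hv L i1 i2 i3 S e J hS he hint
    have h3 := hC K hK h Q hf hdeg hsp hQE hv S'
    have h4 : (θ - ∑ i ∈ Jᶜ, 1 / (e i : ℝ)) * height Q =
        θ * height Q - (∑ i ∈ Jᶜ, 1 / (e i : ℝ)) * height Q := by ring
    rw [h4]
    linarith
  intro k _ m q r n hm hq hr hn a ha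
  have hk : 0 < Module.finrank ℚ k := Module.finrank_pos
  have hn2 : 2 ≤ n := by
    rw [hn]
    nlinarith
  obtain ⟨h1, h2⟩ := hα n hn2
  have hr1 : (2 : ℝ) ≤ r := by exact_mod_cast hr
  have hm1 : (1 : ℝ) ≤ m := by exact_mod_cast hm
  have hq1 : (m : ℝ) + 1 ≤ q := by exact_mod_cast hq
  refine ⟨fun θ c δ hθ hθq hδ => ?_, fun δ hδ => ?_, fun θ h3 h4 => ?_, fun θ h3 h4 => ?_,
    fun hmn => Pool.Agent.N752.SU.alpha_lt hn2 hmn _ _⟩
  · obtain ⟨c', hc'⟩ := exceptional_sub k hq a ha θ c hθ r n hr hn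
    have hT : 0 ≤ min θ (2 * (r : ℝ) - 2) := le_min hθ (by linarith)
    obtain ⟨C, hC⟩ := Pool.Agent.N752.FD.upperE k hm hq a ha n (by omega) h1 h2 θ
      (min θ (2 * (r : ℝ) - 2)) c' δ hT (min_le_left _ _) hθq hδ
    refine ⟨C, fun B hB => ?_⟩
    obtain ⟨h3, h4⟩ := hC B hB
    refine ⟨h3.subset (hc' B hB), le_trans ?_ h4⟩
    exact_mod_cast Set.ncard_le_ncard (hc' B hB) h3
  · exact Pool.Agent.Results.MP_44a246_nt.BoundedDegreeHyperplanes.lower k hm hq a ha r n hn
      (by omega) δ hδ
  · unfold exponent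
    rw [min_eq_left h3]
    refine lt_of_le_of_lt (add_le_add_right (min_le_left _ _) _) ?_
    rw [sub_self, zero_mul, add_zero]
    exact h4
  · unfold exponent
    rw [min_eq_right h3]
    refine lt_of_le_of_lt (add_le_add_right (min_le_right _ _) _) ?_
    have hqq : (0 : ℝ) < (q : ℝ) * ((q : ℝ) - 1) := by nlinarith
    have h5 : alpha n c₀ η * (2 * r - 2) <
        m * (m + 1) * (q - θ + (2 * r - 2)) / (q * (q - 1)) := by
      rw [lt_div_iff₀ hqq]
      exact h4
    have h6 : ((m : ℝ) + 1) * (1 - (m : ℝ) * ((q : ℝ) - (θ - (2 * r - 2))) /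
        ((q : ℝ) * ((q : ℝ) - 1))) = m + 1 -
          m * (m + 1) * (q - θ + (2 * r - 2)) / (q * (q - 1)) := by
      field_simp
      ring
    rw [h6]
    linarith

end Pool.Agent.Results.MP_a41896_nt.StackyPointsOfDegreeR
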